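import Pool.Agent.Lib.MP_09cbbd_rg.Trial

/-!
# Profiles on an arc of the circle

On an arc of at most `b` bins the energy is the one of the line functional.
-/

set_option autoImplicit false

namespace Pool.Agent.Rg

open Finset Real

/-- Twice the sum over the cuts. -/
theorem sum_cuts (m : ℕ → ℝ) (n : ℕ) :
    ∑ i ∈ range n, ∑ j ∈ range n, |(i : ℝ) - j| * m i * m j =
      2 * ∑ k ∈ range n, Sm m k * (Sm m n - Sm m k) := by
  have hD : ∀ n : ℕ, ∑ i ∈ range n, ((n : ℝ) - i) * m i = ∑ k ∈ range (n + 1), Sm m k := by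
    intro n
    induction n with
    | zero => simp
    | succ n ih =>
      rw [sum_range_succ _ (n + 1), ← ih, Sm, sum_range_succ, sum_range_succ, ← add_assoc]
      have h1 : ∑ i ∈ range n, (((n + 1 : ℕ) : ℝ) - i) * m i =
          ∑ i ∈ range n, ((n : ℝ) - i) * m i + ∑ i ∈ range n, m i := by
        rw [← sum_add_distrib]
        refine sum_congr rfl fun i _ => ?_
        push_cast
        ring
      rw [h1]
      push_cast
      ring
  induction n with
  | zero => simp
  | succ n ih =>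
    rw [sum_range_succ, sum_range_succ _ n]
    have h1 : ∑ i ∈ range n, ∑ j ∈ range (n + 1), |(i : ℝ) - j| * m i * m j =
        ∑ i ∈ range n, ∑ j ∈ range n, |(i : ℝ) - j| * m i * m j +
          m n * ∑ i ∈ range n, ((n : ℝ) - i) * m i := by
      rw [mul_sum, ← sum_add_distrib]
      refine sum_congr rfl fun i hi => ?_
      rw [sum_range_succ]
      have h2 : (i : ℝ) < n := by exact_mod_cast mem_range.1 hi
      rw [abs_of_neg (show (i : ℝ) - n < 0 by linarith)]
      ring
    have h2 : ∑ j ∈ range n, |((n : ℕ) : ℝ) - j| * m n * m j =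
        m n * ∑ i ∈ range n, ((n : ℝ) - i) * m i := by
      rw [mul_sum]
      refine sum_congr rfl fun i hi => ?_
      have h2 : (i : ℝ) < n := by exact_mod_cast mem_range.1 hi
      rw [abs_of_pos (show 0 < (n : ℝ) - i by linarith)]
      ring
    rw [h1, h2, ih, sub_self, abs_zero, hD]
    have h3 : ∑ k ∈ range n, Sm m k * (Sm m (n + 1) - Sm m k) =
        ∑ k ∈ range n, Sm m k * (Sm m n - Sm m k) + m n * ∑ k ∈ range n, Sm m k := by
      rw [mul_sum, ← sum_add_distrib]
      refine sum_congr rfl fun i _ => ?_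
      rw [Sm_succ m n]
      ring
    rw [sum_range_succ _ n, sum_range_succ _ n, h3, Sm_succ m n]
    ring

variable {B : ℕ}

/-- The circular distance of two bins of a short arc. -/
theorem cab_arc [NeZero B] {b n : ℕ} (hn : n ≤ b) (hB : 2 * b ≤ B) (t : ZMod B) {i j : ℕ} (hi : i < n)
    (hj : j < n) : (cab (t + (i : ZMod B) - (t + (j : ZMod B))) : ℝ) = |(i : ℝ) - j| := by
  have key : ∀ i j : ℕ, i < n → j < n → j ≤ i →
      (cab (t + (i : ZMod B) - (t + (j : ZMod B))) : ℝ) = |(i : ℝ) - j| := by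
    intro i j hi hj h
    have h1 : t + (i : ZMod B) - (t + (j : ZMod B)) = ((i - j : ℕ) : ZMod B) := by
      rw [Nat.cast_sub h]
      ring
    have h2 : (((i - j : ℕ) : ZMod B)).val = i - j := by
      rw [ZMod.val_natCast, Nat.mod_eq_of_lt (by omega)]
    have h3 : cab (t + (i : ZMod B) - (t + (j : ZMod B))) = i - j := by
      rw [h1, cab, h2]
      omega
    rw [h3, Nat.cast_sub h, abs_of_nonneg (sub_nonneg.2 (Nat.cast_le.2 h))]
  rcases le_total j i with h | h
  · exact key i j hi hj h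
  · have h1 := key j i hj hi h
    have h2 : t + (i : ZMod B) - (t + (j : ZMod B)) = -(t + (j : ZMod B) - (t + (i : ZMod B))) := by ring
    have h3 : cab (-(t + (j : ZMod B) - (t + (i : ZMod B)))) = cab (t + (j : ZMod B) - (t + (i : ZMod B))) := by
      set x := t + (j : ZMod B) - (t + (i : ZMod B))
      rcases eq_or_ne x 0 with hx | hx
      · rw [hx, neg_zero]
      · have h : (-x).val = B - x.val := by
          rw [ZMod.neg_val, if_neg hx]
        have hlt := x.val_lt
        rw [cab, cab, h, min_comm]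
        congr 1
        omega
    rw [h2, h3, h1, abs_sub_comm]

theorem U_arc [NeZero B] {b n : ℕ} (hb : 0 < b) (hn : n ≤ b) (hB : 2 * b ≤ B) (t : ZMod B) {i j : ℕ}
    (hi : i < n) (hj : j < n) : U b (t + (i : ZMod B) - (t + (j : ZMod B))) = 1 / b * |(i : ℝ) - j| := by
  unfold U
  rw [cab_arc hn hB t hi hj]
  have hb' : (0 : ℝ) < b := by exact_mod_cast hb
  have h1 : |(i : ℝ) - j| ≤ b := by
    have h2 : (i : ℝ) < n := by exact_mod_cast hi
    have h3 : (j : ℝ) < n := by exact_mod_cast hj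
    have h4 : (n : ℝ) ≤ b := by exact_mod_cast hn
    rw [abs_le]
    constructor <;> linarith [Nat.cast_nonneg (α := ℝ) i, Nat.cast_nonneg (α := ℝ) j]
  rw [min_eq_right]
  · ring
  · rw [div_le_one hb']
    exact h1

/-- The energy of the restriction to an arc. -/
theorem En_arc [NeZero B] {b n : ℕ} (hb : 0 < b) (hn : n ≤ b) (hB : 2 * b ≤ B) (t : ZMod B) (m : ℕ → ℝ) :
    ∑ i ∈ range n, ∑ j ∈ range n, U b (t + (i : ZMod B) - (t + (j : ZMod B))) * m i * m j =
      2 * (1 / b * ∑ k ∈ range n, Sm m k * (Sm m n - Sm m k)) := by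
  have h1 : ∑ i ∈ range n, ∑ j ∈ range n, U b (t + (i : ZMod B) - (t + (j : ZMod B))) * m i * m j =
      1 / b * ∑ i ∈ range n, ∑ j ∈ range n, |(i : ℝ) - j| * m i * m j := by
    rw [mul_sum]
    refine sum_congr rfl fun i hi => ?_
    rw [mul_sum]
    refine sum_congr rfl fun j hj => ?_
    rw [U_arc hb hn hB t (mem_range.1 hi) (mem_range.1 hj)]
    ring
  rw [h1, sum_cuts]
  ring

/-- The bins of the circle in the order which starts at `t`. -/
theorem sum_base [NeZero B] (t : ZMod B) (f : ZMod B → ℝ) : ∑ x, f x = ∑ k ∈ range B, f (t + k) := by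
  symm
  refine sum_bij' (fun k _ => t + (k : ZMod B)) (fun x _ => (x - t).val) ?_ ?_ ?_ ?_ ?_
  · intro k _
    exact mem_univ _
  · intro x _
    exact mem_range.2 (x - t).val_lt
  · intro k hk
    rw [mem_range] at hk
    simp only [add_sub_cancel_left]
    rw [ZMod.val_natCast, Nat.mod_eq_of_lt hk]
  · intro x _
    rw [ZMod.natCast_zmod_val]
    ring
  · intro k _
    rfl

/-- The profile on the circle which is `m` on the arc of `n` bins starting at `t`. -/
noncomputable def arcP (t : ZMod B) (m : ℕ → ℝ) (n : ℕ) (x : ZMod B) : ℝ :=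
  if (x - t).val < n then m (x - t).val else 0

theorem arcP_base {t : ZMod B} {m : ℕ → ℝ} {n k : ℕ} (hk : k < B) :
    arcP t m n (t + k) = if k < n then m k else 0 := by
  unfold arcP
  rw [add_sub_cancel_left, ZMod.val_natCast, Nat.mod_eq_of_lt hk]

theorem sum_range_if {n N : ℕ} (h : n ≤ N) (f : ℕ → ℝ) :
    ∑ k ∈ range N, (if k < n then f k else 0) = ∑ k ∈ range n, f k := by
  rw [← sum_filter]
  congr 1
  ext k
  simp only [mem_filter, mem_range]
  omega

theorem mass_arcP [NeZero B] {n : ℕ} (hn : n ≤ B) (t : ZMod B) (m : ℕ → ℝ) :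
    mass (arcP t m n) = Sm m n := by
  unfold mass
  rw [sum_base t, Sm, ← sum_range_if hn]
  exact sum_congr rfl fun k hk => arcP_base (mem_range.1 hk)

/-- **The value of a profile on a short arc.** -/
theorem P_arcP [NeZero B] {b n : ℕ} (hb : 0 < b) (hn : n ≤ b) (hB : 2 * b ≤ B) (t : ZMod B) (m : ℕ → ℝ)
    (z : ℝ) : P b z (arcP t m n) = valL z b m n := by
  have hnB : n ≤ B := by omega
  have h1 : Sn z (arcP t m n) = ∑ k ∈ range n, sg z (m k) := by
    unfold Sn
    rw [sum_base t, ← sum_range_if hnB]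
    refine sum_congr rfl fun k hk => ?_
    rw [arcP_base (mem_range.1 hk)]
    split_ifs
    · rfl
    · exact sg_zero z
  have h2 : En b (arcP t m n) = 2 * (1 / b * ∑ k ∈ range n, Sm m k * (Sm m n - Sm m k)) := by
    rw [← En_arc hb hn hB t m]
    unfold En
    rw [sum_base t, ← sum_range_if hnB]
    refine sum_congr rfl fun i hi => ?_
    rw [sum_base t, arcP_base (mem_range.1 hi)]
    split_ifs with h3
    · rw [← sum_range_if hnB]
      refine sum_congr rfl fun j hj => ?_
      rw [arcP_base (mem_range.1 hj)]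
      split_ifs <;> simp
    · simp
  unfold P valL
  rw [h1, h2]
  ring

theorem arcP_nonneg {t : ZMod B} {m : ℕ → ℝ} (hm : ∀ k, 0 ≤ m k) (n : ℕ) (x : ZMod B) :
    0 ≤ arcP t m n x := by
  unfold arcP
  split_ifs
  · exact hm _
  · exact le_rfl

/-- **The lower bound of the ordered pressure.** -/
theorem exists_trial [NeZero B] {b : ℕ} (hb : 0 < b) (hB : 2 * b ≤ B) {z : ℝ} (hz : 0 < z) (t : ZMod B) :
    ∃ M : ZMod B → ℝ, (∀ x, 0 ≤ M x) ∧ (∀ x, b ≤ (x - t).val → M x = 0) ∧
      mass M ≤ √(b * z) ∧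
      2 * √(b * z) - √(b * z) * (√(b * z) + 6) * exp (-(√(b * z) / 2)) - 3 * z ≤ P b z M := by
  have hb' : (0 : ℝ) < b := by exact_mod_cast hb
  have hN : 0 < √(b * z) := Real.sqrt_pos.2 (mul_pos hb' hz)
  refine ⟨arcP t (tm (√(b * z)) b b) b, fun x => arcP_nonneg (tm_nonneg hN hb') b x,
    fun x hx => ?_, ?_, ?_⟩
  · unfold arcP
    rw [if_neg (by omega)]
  · rw [mass_arcP (by omega), Sm_tm le_rfl, tF_sym]
    linarith [tF_pos (b := (b : ℝ)) (n := b) hN 0]
  · rw [P_arcP hb le_rfl hB]
    exact valL_tm_ge hz hb' rfl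

end Pool.Agent.Rg
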