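import Pool.Agent.Lib.MP_09cbbd_rg.Potts

/-!
# The triangular well is an average of Potts cells

For `B = n * b` bins and `n ≥ 2`: the mean field functional is the average over the shifts `t` of the
Potts functional of the `n` cells `t + i b + {0, …, b - 1}` minus relative entropies.
-/

set_option autoImplicit false

namespace Pool.Agent.Rg

open Finset Real

variable {B : ℕ} [NeZero B]

/-- mass of the window `{t, …, t + b - 1}` -/
noncomputable def win (b : ℕ) (M : ZMod B → ℝ) (t : ZMod B) : ℝ :=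
  ∑ r ∈ range b, M (t + (r : ZMod B))

theorem sum_zmod (f : ZMod B → ℝ) : ∑ j, f j = ∑ k ∈ range B, f (k : ZMod B) := by
  refine sum_bij' (fun j _ => j.val) (fun k _ => (k : ZMod B)) ?_ ?_ ?_ ?_ ?_
  · intro j _; exact mem_range.2 (ZMod.val_lt j)
  · intro k _; exact mem_univ _
  · intro j _; exact ZMod.natCast_zmod_val j
  · intro k hk; exact ZMod.val_cast_of_lt (mem_range.1 hk)
  · intro j _; rw [ZMod.natCast_zmod_val]

theorem sum_shift (f : ZMod B → ℝ) (t : ZMod B) : ∑ j, f (j + t) = ∑ j, f j :=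
  Equiv.sum_comp (Equiv.addRight t) f

theorem sum_shift' (f : ZMod B → ℝ) (t : ZMod B) : ∑ j, f (t + j) = ∑ j, f j :=
  Equiv.sum_comp (Equiv.addLeft t) f

theorem sum_blocks (f : ℕ → ℝ) (n b : ℕ) :
    ∑ k ∈ range (n * b), f k = ∑ i ∈ range n, ∑ r ∈ range b, f (i * b + r) := by
  induction n with
  | zero => simp
  | succ n ih => rw [Nat.succ_mul, sum_range_add, ih, sum_range_succ]

/-- the cells partition the circle -/
theorem sum_cells {n b : ℕ} (hB : B = n * b) (M : ZMod B → ℝ) (t : ZMod B) :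
    ∑ i : Fin n, win b M (t + ((i : ℕ) * b : ℕ)) = mass M := by
  unfold mass win
  rw [← sum_shift' M t, sum_zmod, Fin.sum_univ_eq_sum_range
    (fun i => ∑ r ∈ range b, M (t + ((i * b : ℕ) : ZMod B) + (r : ZMod B))) n]
  have hr : range B = range (n * b) := by rw [hB]
  rw [hr, sum_blocks (fun k => M (t + (k : ZMod B)))]
  refine sum_congr rfl fun i _ => sum_congr rfl fun r _ => ?_
  rw [Nat.cast_add, add_assoc]

theorem sum_win (b : ℕ) (f : ZMod B → ℝ) : ∑ t, win b f t = b * ∑ j, f j := by
  unfold win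
  have h : ∀ r ∈ range b, ∑ t, f (t + (r : ZMod B)) = ∑ j, f j := fun r _ => sum_shift f _
  rw [sum_comm, sum_congr rfl h, sum_const, card_range, nsmul_eq_mul]

theorem count_pairs {b : ℕ} (h2 : 2 * b ≤ B) (d : ZMod B) :
    ((range b).filter fun r : ℕ => (d + (r : ZMod B)).val < b).card = b - min b (cab d) := by
  have hv := ZMod.val_lt d
  set v := d.val with hvd
  have key : ∀ r, r < b → (d + (r : ZMod B)).val = (v + r) % B := by
    intro r hr
    rw [ZMod.val_add, ZMod.val_cast_of_lt (by omega)]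
  have hcab : cab d = min v (B - v) := rfl
  rcases lt_or_ge v b with h | h
  · have e : (range b).filter (fun r : ℕ => (d + (r : ZMod B)).val < b) = range (b - v) := by
      ext r
      rw [mem_filter, mem_range, mem_range]
      constructor
      · rintro ⟨h3, h4⟩
        rw [key r h3, Nat.mod_eq_of_lt (by omega)] at h4
        omega
      · intro h3
        refine ⟨by omega, ?_⟩
        rw [key r (by omega), Nat.mod_eq_of_lt (by omega)]
        omega
    rw [e, card_range, hcab]; omega
  · rcases le_or_gt (v + b) B with h' | h'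
    · have e : (range b).filter (fun r : ℕ => (d + (r : ZMod B)).val < b) = ∅ := by
        rw [filter_eq_empty_iff]
        intro r hr
        rw [mem_range] at hr
        rw [key r hr, Nat.mod_eq_of_lt (by omega)]
        omega
      rw [e, card_empty, hcab]; omega
    · have e : (range b).filter (fun r : ℕ => (d + (r : ZMod B)).val < b) = Ico (B - v) b := by
        ext r
        rw [mem_filter, mem_range, mem_Ico]
        constructor
        · rintro ⟨h3, h4⟩
          rw [key r h3] at h4
          refine ⟨?_, h3⟩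
          by_contra h5
          rw [Nat.mod_eq_of_lt (by omega)] at h4
          omega
        · rintro ⟨h3, h4⟩
          refine ⟨h4, ?_⟩
          rw [key r h4, Nat.mod_eq_sub_mod (by omega), Nat.mod_eq_of_lt (by omega)]
          omega
      rw [e, Nat.card_Ico, hcab]; omega

theorem count_pairs' {b : ℕ} (hb : 0 < b) (h2 : 2 * b ≤ B) (d : ZMod B) :
    (((range b).filter fun r : ℕ => (d + (r : ZMod B)).val < b).card : ℝ) = b * (1 - U b d) := by
  rw [count_pairs h2, Nat.cast_sub (min_le_left _ _)]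
  have hb' : (0 : ℝ) < b := by exact_mod_cast hb
  unfold U
  rw [Nat.cast_min, mul_sub, mul_one, mul_min_of_nonneg _ _ hb'.le, mul_one,
    mul_div_cancel₀ _ hb'.ne']

theorem win_eq {b : ℕ} (h2 : b ≤ B) (M : ZMod B → ℝ) (t : ZMod B) :
    win b M t = ∑ j, if (j - t).val < b then M j else 0 := by
  unfold win
  rw [← sum_filter]
  refine sum_bij' (fun r _ => t + (r : ZMod B)) (fun j _ => (j - t).val) ?_ ?_ ?_ ?_ ?_
  · intro r hr
    rw [mem_range] at hr
    rw [mem_filter]
    refine ⟨mem_univ _, ?_⟩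
    rw [add_sub_cancel_left, ZMod.val_cast_of_lt (by omega)]; exact hr
  · intro j hj
    exact mem_range.2 (mem_filter.1 hj).2
  · intro r hr
    rw [mem_range] at hr
    simp only [add_sub_cancel_left]
    exact ZMod.val_cast_of_lt (by omega)
  · intro j _
    simp only [ZMod.natCast_zmod_val]; ring
  · intro r _; rfl

theorem sum_win_sq {b : ℕ} (hb : 0 < b) (h2 : 2 * b ≤ B) (M : ZMod B → ℝ) :
    ∑ t, win b M t ^ 2 = b * (mass M ^ 2 - En b M) := by
  have e1 : ∀ t, win b M t ^ 2 = ∑ j, ∑ k, (if (j - t).val < b ∧ (k - t).val < b then (1 : ℝ) else 0)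
      * (M j * M k) := by
    intro t
    rw [sq, win_eq (by omega), sum_mul_sum]
    refine sum_congr rfl fun j _ => sum_congr rfl fun k _ => ?_
    by_cases h1 : (j - t).val < b <;> by_cases h2 : (k - t).val < b <;> simp [h1, h2]
  rw [sum_congr rfl fun t _ => e1 t, sum_comm]
  have e2 : b * (mass M ^ 2 - En b M) = ∑ j, ∑ k, (b * (1 - U b (j - k))) * (M j * M k) := by
    unfold mass En
    rw [sq, sum_mul_sum, ← sum_sub_distrib, mul_sum]
    refine sum_congr rfl fun j _ => ?_
    rw [← sum_sub_distrib, mul_sum]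
    refine sum_congr rfl fun k _ => ?_
    ring
  rw [e2]
  refine sum_congr rfl fun j _ => ?_
  rw [sum_comm]
  refine sum_congr rfl fun k _ => ?_
  rw [← sum_mul, ← count_pairs' hb h2]
  congr 1
  rw [sum_boole]
  congr 1
  symm
  refine card_bij (fun r _ => k - (r : ZMod B)) ?_ ?_ ?_
  · intro r hr
    rw [mem_filter, mem_range] at hr
    rw [mem_filter]
    refine ⟨mem_univ _, ?_, ?_⟩
    · rw [show j - (k - (r : ZMod B)) = j - k + r by ring]; exact hr.2
    · rw [show k - (k - (r : ZMod B)) = r by ring, ZMod.val_cast_of_lt (by omega)]; exact hr.1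
  · intro r hr r' hr' h
    rw [mem_filter, mem_range] at hr hr'
    have h3 : (r : ZMod B) = (r' : ZMod B) := by
      have := congrArg (fun x => k - x) h
      simpa using this
    rw [← ZMod.val_cast_of_lt (n := B) (a := r) (by omega), h3, ZMod.val_cast_of_lt (by omega)]
  · intro t ht
    rw [mem_filter] at ht
    refine ⟨(k - t).val, ?_, ?_⟩
    · rw [mem_filter, mem_range]
      refine ⟨ht.2.2, ?_⟩
      rw [ZMod.natCast_zmod_val, show j - k + (k - t) = j - t by ring]; exact ht.2.1
    · rw [ZMod.natCast_zmod_val]; ring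

/-- relative entropy of a profile inside the window `t`, with respect to the flat profile -/
noncomputable def klw (b : ℕ) (ζ : ℝ) (M : ZMod B → ℝ) (t : ZMod B) : ℝ :=
  sg (b * ζ) (win b M t) - ∑ r ∈ range b, sg ζ (M (t + (r : ZMod B)))

omit [NeZero B] in
theorem klw_nonneg {b : ℕ} (hb : 0 < b) {ζ : ℝ} (hζ : 0 < ζ) {M : ZMod B → ℝ}
    (hM : ∀ j, 0 ≤ M j) (t : ZMod B) : 0 ≤ klw b ζ M t := by
  have hb' : (0 : ℝ) < b := by exact_mod_cast hb
  unfold klw
  have hw : 0 ≤ win b M t := sum_nonneg fun r _ => hM _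
  rcases hw.eq_or_lt with h | h
  · have h1 : ∀ r ∈ range b, M (t + (r : ZMod B)) = 0 :=
      (sum_eq_zero_iff_of_nonneg fun r _ => hM _).1 (by unfold win at h; exact h.symm)
    rw [← h, sg_zero, sum_eq_zero (fun r hr => by rw [h1 r hr, sg_zero])]; simp
  · set w := win b M t with hw'
    have h1 : ∀ r ∈ range b, sg ζ (M (t + (r : ZMod B))) ≤
        w / b + M (t + (r : ZMod B)) * log (b * ζ / w) := by
      intro r _
      have h2 := sg_mul (ζ := w / b) (r := b * ζ / w) (div_pos h hb') (by positivity) (hM (t + r))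
      rw [show w / b * (b * ζ / w) = ζ by field_simp] at h2
      rw [h2]
      have := sg_le (div_pos h hb') (hM (t + (r : ZMod B)))
      linarith
    have h3 := sum_le_sum h1
    rw [sum_add_distrib, sum_const, card_range, nsmul_eq_mul, ← sum_mul] at h3
    have h4 : ∑ r ∈ range b, M (t + (r : ZMod B)) = w := rfl
    rw [h4, mul_div_cancel₀ _ hb'.ne'] at h3
    unfold sg at h3 ⊢
    linarith

/-- value of the cells at shift `t` -/
noncomputable def Pt (n b : ℕ) (ζ : ℝ) (M : ZMod B → ℝ) (t : ZMod B) : ℝ :=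
  ∑ i : Fin n, (sg (b * ζ) (win b M (t + ((i : ℕ) * b : ℕ))) +
    win b M (t + ((i : ℕ) * b : ℕ)) ^ 2 / 2) - mass M ^ 2 / 2 -
    ∑ i : Fin n, klw b ζ M (t + ((i : ℕ) * b : ℕ))

theorem P_avg {n b : ℕ} (hb : 0 < b) (hn : 2 ≤ n) (hB : B = n * b) (ζ : ℝ) (M : ZMod B → ℝ) :
    B * P b ζ M = ∑ t, Pt n b ζ M t := by
  have h2 : 2 * b ≤ B := by rw [hB]; exact Nat.mul_le_mul_right b hn
  have e1 : ∀ f : ZMod B → ℝ, ∑ t, ∑ i : Fin n, f (t + ((i : ℕ) * b : ℕ)) = n * ∑ t, f t := by
    intro f
    have h : ∀ i ∈ (univ : Finset (Fin n)), ∑ t, f (t + ((i : ℕ) * b : ℕ)) = ∑ j, f j :=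
      fun i _ => sum_shift f _
    rw [sum_comm, sum_congr rfl h, sum_const, card_univ, Fintype.card_fin, nsmul_eq_mul]
  unfold Pt
  rw [sum_sub_distrib, sum_sub_distrib, sum_const, card_univ, ZMod.card, nsmul_eq_mul,
    e1 (fun t => sg (b * ζ) (win b M t) + win b M t ^ 2 / 2), e1 (fun t => klw b ζ M t)]
  unfold klw
  rw [sum_add_distrib, sum_sub_distrib, ← sum_div, sum_win_sq hb h2]
  have e2 : ∑ t, ∑ r ∈ range b, sg ζ (M (t + (r : ZMod B))) = b * Sn ζ M :=
    sum_win b (fun j => sg ζ (M j))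
  rw [e2]
  have hB' : (B : ℝ) = n * b := by rw [hB]; push_cast; ring
  rw [hB']
  unfold P
  ring

end Pool.Agent.Rg
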