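import Pool.Agent.Lib.MP_09cbbd_rg.DNear

/-!
# From an arc to the neighbourhood of the median
-/

set_option autoImplicit false

namespace Pool.Agent.Rg

open Finset Real

variable {B : ℕ} {m : ℕ → ℝ} {b w k0 : ℕ}

/-- The profile on the `2 w + 1` bins around `k0`. -/
noncomputable def ctr (m : ℕ → ℝ) (b w k0 j : ℕ) : ℝ :=
  if w ≤ k0 + j ∧ k0 + j < w + b ∧ j ≤ 2 * w then m (k0 + j - w) else 0

theorem ctr_nonneg (hm : ∀ k, 0 ≤ m k) (j : ℕ) : 0 ≤ ctr m b w k0 j := by
  unfold ctr
  split_ifs
  · exact hm _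
  · exact le_rfl

theorem Sm_ctr {J : ℕ} (h : k0 + J ≤ w + b) (hJ : J ≤ 2 * w + 1) :
    Sm (ctr m b w k0) J = Sm m (k0 + J - w) - Sm m (k0 - w) := by
  induction J with
  | zero => simp
  | succ J ih =>
    rw [Sm_succ, ih (by omega) (by omega), ctr]
    by_cases h1 : w ≤ k0 + J
    · rw [if_pos ⟨h1, by omega, by omega⟩]
      have h2 : k0 + (J + 1) - w = k0 + J - w + 1 := by omega
      rw [h2, Sm_succ]
      ring
    · rw [if_neg (fun h2 => h1 h2.1)]
      have h2 : k0 + (J + 1) - w = 0 := by omega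
      have h3 : k0 + J - w = 0 := by omega
      rw [h2, h3]
      ring

/-- The two descriptions of the same profile on the circle. -/
theorem arcP_ctr [NeZero B] (hk0 : k0 < b) (hw : 2 * w + 1 ≤ b) (hB : 2 * b ≤ B) (t : ZMod B) :
    arcP (t + (k0 : ZMod B) - (w : ZMod B)) (ctr m b w k0) (2 * w + 1) =
      arcP t (nearP m k0 w) b := by
  funext u
  obtain ⟨v, hv, rfl⟩ : ∃ v < B, u = t + (v : ZMod B) := by
    refine ⟨(u - t).val, (u - t).val_lt, ?_⟩
    rw [ZMod.natCast_zmod_val]
    ring
  rw [arcP_base hv]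
  have hval : ∀ j : ℕ, j < B → (v + w : ℤ) - k0 = j →
      (t + (v : ZMod B) - (t + (k0 : ZMod B) - (w : ZMod B))).val = j := by
    intro j hj h
    have h1 : t + (v : ZMod B) - (t + (k0 : ZMod B) - (w : ZMod B)) = (j : ZMod B) := by
      have h2 : (((v + w : ℤ) - k0 : ℤ) : ZMod B) = ((j : ℤ) : ZMod B) := by rw [h]
      push_cast at h2
      rw [← h2]
      ring
    rw [h1, ZMod.val_natCast, Nat.mod_eq_of_lt hj]
  by_cases h1 : k0 ≤ v + w
  · -- the position is `v + w - k0` if it is less than `B`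
    by_cases h2 : v + w - k0 < B
    · have h3 := hval (v + w - k0) h2 (by omega)
      unfold arcP
      rw [h3]
      unfold ctr nearP
      by_cases h4 : v < b
      · rw [if_pos h4]
        by_cases h5 : v ≤ k0 + w
        · rw [if_pos (show v + w - k0 < 2 * w + 1 by omega),
            if_pos ⟨by omega, by omega, by omega⟩, if_pos ⟨h5, h1⟩]
          congr 1
          omega
        · rw [if_neg (by omega), if_neg (fun h => h5 h.1)]
      · rw [if_neg h4]
        split_ifs with h5 h6
        · exfalso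
          omega
        · rfl
        · rfl
    · -- then the position is `v + w - k0 - B`
      have h3 : (t + (v : ZMod B) - (t + (k0 : ZMod B) - (w : ZMod B))).val =
          v + w - k0 - B := by
        have h4 : t + (v : ZMod B) - (t + (k0 : ZMod B) - (w : ZMod B)) =
            ((v + w - k0 - B : ℕ) : ZMod B) := by
          have h5 : (((v + w - k0 - B : ℕ) : ℤ) : ZMod B) =
              (((v + w : ℤ) - k0 - B : ℤ) : ZMod B) := by
            congr 1
            omega
          have h6 : (((v + w - k0 - B : ℕ) : ℤ) : ZMod B) = ((v + w - k0 - B : ℕ) : ZMod B) := by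
            push_cast
            rfl
          rw [← h6, h5]
          push_cast
          rw [ZMod.natCast_self]
          ring
        rw [h4, ZMod.val_natCast, Nat.mod_eq_of_lt (by omega)]
      unfold arcP
      rw [h3]
      unfold ctr nearP
      rw [if_neg (show ¬ v < b by omega)]
      split_ifs with h5 h6
      · exfalso
        omega
      · rfl
      · rfl
  · -- the position is `B + v + w - k0`
    have h3 : (t + (v : ZMod B) - (t + (k0 : ZMod B) - (w : ZMod B))).val =
        B + v + w - k0 := by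
      have h4 : t + (v : ZMod B) - (t + (k0 : ZMod B) - (w : ZMod B)) =
          ((B + v + w - k0 : ℕ) : ZMod B) := by
        have h5 : (((B + v + w - k0 : ℕ) : ℤ) : ZMod B) =
            (((B + v + w : ℤ) - k0 : ℤ) : ZMod B) := by
          congr 1
          omega
        have h6 : (((B + v + w - k0 : ℕ) : ℤ) : ZMod B) = ((B + v + w - k0 : ℕ) : ZMod B) := by
          push_cast
          rfl
        rw [← h6, h5]
        push_cast
        rw [ZMod.natCast_self]
        ring
      rw [h4, ZMod.val_natCast, Nat.mod_eq_of_lt (by omega)]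
    unfold arcP
    rw [h3]
    unfold nearP
    rw [if_neg (show ¬ B + v + w - k0 < 2 * w + 1 by omega)]
    split_ifs with h5 h6
    · exfalso
      exact h1 h6.2
    · rfl
    · rfl

/-- **From an arc to the neighbourhood of the median.** -/
theorem Dl.of_arc [NeZero B] {z δ r R : ℝ} {M : ZMod B → ℝ} (t : ZMod B) (hz : 0 < z)
    (hR : R = √(b * z)) (hw : 2 * w + 1 ≤ b) (hwb : b ≤ 8 * w) (hB : 2 * b ≤ B)
    (hM : ∀ u, 0 ≤ M u) (hN : mass M ≤ 6 * R)
    (hmass : mass M - Sm (fun k => M (t + (k : ZMod B))) b ≤ r)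
    (hval : 2 * R - δ ≤ valL z b (fun k => M (t + (k : ZMod B))) b)
    (hδ : δ + 36 * z ≤ R / 8) (hr : 0 ≤ r) :
    ∃ x y, Dl b w z (δ + R ^ 2 * exp (2 - R / 64))
      (r + (δ + 36 * z + R ^ 2 * exp (2 - R / 64)) / 2) M x y := by
  have hb : 0 < b := by omega
  have hb' : (0 : ℝ) < b := by exact_mod_cast hb
  have hRp : 0 < R := by
    rw [hR]
    exact Real.sqrt_pos.2 (mul_pos hb' hz)
  have hRsq : R ^ 2 = b * z := by
    rw [hR]
    exact Real.sq_sqrt (mul_pos hb' hz).le
  set m : ℕ → ℝ := fun k => M (t + (k : ZMod B)) with hm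
  have hm0 : ∀ k, 0 ≤ m k := fun k => hM _
  have hmM : Sm m b ≤ mass M := by
    have h1 : mass M = Sm m B := by
      unfold mass
      rw [sum_base t]
      rfl
    rw [h1]
    exact Sm_mono hm0 (by omega)
  have hmN : Sm m b ≤ 6 * R := hmM.trans hN
  have hm00 := Sm_nonneg hm0 b
  have hsq : Sm m b ^ 2 / b ≤ 36 * z := by
    rw [div_le_iff₀ hb']
    nlinarith
  -- the mass is at least `R / 2`
  have hline := line_le (n := b) hz hb' hm0
  rw [← hR] at hline
  have hkl0 : 0 ≤ klL b m b :=
    sum_nonneg fun k hk => mul_nonneg (bt_nonneg hb' hm0 (mem_range.1 hk).le)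
      (ph_nonneg (div_nonneg (hm0 k) (bt_nonneg hb' hm0 (mem_range.1 hk).le)))
  have hph0 : 0 ≤ 2 * R * ph (Sm m b / R) :=
    mul_nonneg (by linarith) (ph_nonneg (div_nonneg hm00 hRp.le))
  have hNhalf : R / 2 ≤ Sm m b := by
    by_contra hcon
    push Not at hcon
    have h1 : Sm m b / R ≤ 1 / 2 := by
      rw [div_le_iff₀ hRp]
      linarith
    have h2 := hell_ph (div_nonneg hm00 hRp.le)
    have h3 : √(Sm m b / R) ≤ 71 / 100 := by
      rw [Real.sqrt_le_left (by norm_num)]
      linarith
    have h4 : (29 / 100 : ℝ) ^ 2 ≤ (√(Sm m b / R) - 1) ^ 2 := by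
      nlinarith
    have h5 : 2 * R * (29 / 100 : ℝ) ^ 2 ≤ 2 * R * ph (Sm m b / R) :=
      mul_le_mul_of_nonneg_left (h4.trans h2) (by linarith)
    nlinarith
  obtain ⟨k0, hk0, hm1, hm2⟩ := exists_median hm0 hb
  have hnear := near_le (w := w) hz hb' hm0 hk0 hm1 hm2 (by exact_mod_cast le_refl b)
  set E := R ^ 2 * exp (2 - R / 64) with hE
  have hexp : b * z * exp (2 - w * Sm m b / (4 * b)) ≤ E := by
    rw [hE, hRsq]
    refine mul_le_mul_of_nonneg_left (exp_le_exp.2 ?_) (mul_pos hb' hz).le
    have h1 : R / 64 ≤ w * Sm m b / (4 * b) := by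
      rw [le_div_iff₀ (by linarith)]
      have h2 : (b : ℝ) ≤ 8 * w := by exact_mod_cast hwb
      have h3 : (0 : ℝ) ≤ w := Nat.cast_nonneg w
      nlinarith [mul_le_mul_of_nonneg_left hNhalf h3]
    linarith
  have hy0 := fun k => nearP_nonneg (k0 := k0) (w := w) hm0 k
  have hvn : valL z b (nearP m k0 w) b = valL z b (ctr m b w k0) (2 * w + 1) := by
    rw [← P_arcP hb le_rfl hB t, ← P_arcP hb hw hB (t + (k0 : ZMod B) - (w : ZMod B)),
      arcP_ctr hk0 hw hB t]
  have hmn : Sm (nearP m k0 w) b = Sm (ctr m b w k0) (2 * w + 1) := by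
    rw [← mass_arcP (by omega) t, ← mass_arcP (by omega) (t + (k0 : ZMod B) - (w : ZMod B)),
      arcP_ctr hk0 hw hB t]
  have hnle : Sm (nearP m k0 w) b ≤ Sm m b := by
    have := farM_nonneg (k0 := k0) (w := w) (n := b) hm0
    unfold farM at this
    linarith
  -- the far mass
  have hfar : farM m k0 w b ≤ (δ + 36 * z + E) / 2 := by
    have h1 := line_le (n := b) hz hb' hy0
    rw [← hR] at h1
    have h2 : 0 ≤ klL b (nearP m k0 w) b :=
      sum_nonneg fun k hk => mul_nonneg (bt_nonneg hb' hy0 (mem_range.1 hk).le)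
        (ph_nonneg (div_nonneg (hy0 k) (bt_nonneg hb' hy0 (mem_range.1 hk).le)))
    have h3 : 0 ≤ 2 * R * ph (Sm (nearP m k0 w) b / R) :=
      mul_nonneg (by linarith) (ph_nonneg (div_nonneg (Sm_nonneg hy0 b) hRp.le))
    have h4 : Sm (nearP m k0 w) b ^ 2 / b ≤ 36 * z := by
      refine le_trans (div_le_div_of_nonneg_right ?_ hb'.le) hsq
      exact pow_le_pow_left₀ (Sm_nonneg hy0 b) hnle 2
    linarith
  have hfar0 := farM_nonneg (k0 := k0) (w := w) (n := b) hm0
  have hfd : farM m k0 w b = Sm m b - Sm (ctr m b w k0) (2 * w + 1) := by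
    rw [farM, hmn]
  refine ⟨t + (k0 : ZMod B), ctr m b w k0, fun k => ctr_nonneg hm0 k, ?_, ?_, ?_, ?_, ?_⟩
  · intro u
    rw [arcP_ctr hk0 hw hB t]
    unfold arcP
    split_ifs with h1
    · refine (nearP_le hm0 _).trans (le_of_eq ?_)
      simp only [hm]
      rw [ZMod.natCast_zmod_val]
      congr 1
      ring
    · exact hM u
  · linarith
  · rw [← hR, ← hvn]
    linarith
  · have h1 := Sm_ctr (m := m) (b := b) (w := w) (k0 := k0) (J := w) (by omega) (by omega)
    rw [Nat.add_sub_cancel] at h1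
    have h2 := Sm_nonneg hm0 (k0 - w)
    linarith
  · have h1 := Sm_ctr (m := m) (b := b) (w := w) (k0 := k0) (J := w + 1) (by omega) (by omega)
    have h2 : k0 + (w + 1) - w = k0 + 1 := by omega
    rw [h2] at h1
    -- the mass on the left of the window is far
    have h3 : Sm m (k0 - w) ≤ farM m k0 w b := by
      unfold farM Sm
      rw [← sum_sub_distrib]
      have h4 : ∑ k ∈ range (k0 - w), m k = ∑ k ∈ range (k0 - w), (m k - nearP m k0 w k) := by
        refine sum_congr rfl fun k hk => ?_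
        rw [mem_range] at hk
        rw [nearP, if_neg (by omega), sub_zero]
      rw [h4]
      exact sum_le_sum_of_subset_of_nonneg (range_subset_range.2 (by omega))
        fun k _ _ => sub_nonneg.2 (nearP_le hm0 k)
    linarith

end Pool.Agent.Rg
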