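import Pool.Agent.Lib.MP_09cbbd_rg.Med

/-!
# Near maximisers of the ordered class are close to one another up to a rotation
-/

set_option autoImplicit false

namespace Pool.Agent.Rg

open Finset Real

variable {B : ℕ}

/-- The profile `M` has, up to the mass `r`, a near maximiser `y` of the line functional on the
`2 w + 1` bins around its registry `x`. -/
structure Dl (b w : ℕ) (z δ r : ℝ) [NeZero B] (M : ZMod B → ℝ) (x : ZMod B) (y : ℕ → ℝ) :
    Prop where
  nn : ∀ k, 0 ≤ y k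
  le : ∀ u, arcP (x - (w : ZMod B)) y (2 * w + 1) u ≤ M u
  ms : mass M - Sm y (2 * w + 1) ≤ r
  val : 2 * √(b * z) - δ ≤ valL z b y (2 * w + 1)
  l1 : Sm y w ≤ Sm y (2 * w + 1) / 2 + r
  l2 : Sm y (2 * w + 1) / 2 ≤ Sm y (w + 1) + r

/-- The consequences of a large value. -/
theorem val_near {b : ℕ} {z τ R : ℝ} (hb : 0 < b) (hz : 0 < z) (hR : R = √(b * z))
    {y : ℕ → ℝ} {n : ℕ} (hy : ∀ k, 0 ≤ y k) (hN : Sm y n ≤ 6 * R)
    (hv : 2 * R + 36 * z - τ ≤ valL z b y n) (hτR : τ ≤ R) :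
    klL b y n ≤ τ ∧ |Sm y n - R| ≤ 2 * √(R * τ) ∧ eL b y n ≤ 7 * √(R * τ) ∧
      2 * R * ph (Sm y n / R) ≤ τ := by
  have hb' : (0 : ℝ) < b := by exact_mod_cast hb
  have hRp : 0 < R := by
    rw [hR]
    exact Real.sqrt_pos.2 (mul_pos hb' hz)
  have hRsq : R ^ 2 = b * z := by
    rw [hR]
    exact Real.sq_sqrt (mul_pos hb' hz).le
  have h1 := line_le (n := n) hz hb' hy
  rw [← hR] at h1
  have hN0 := Sm_nonneg hy n
  have h2 : Sm y n ^ 2 / b ≤ 36 * z := by
    rw [div_le_iff₀ hb']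
    nlinarith
  have hkl : 0 ≤ klL b y n :=
    sum_nonneg fun k hk => mul_nonneg (bt_nonneg hb' hy (mem_range.1 hk).le)
      (ph_nonneg (div_nonneg (hy k) (bt_nonneg hb' hy (mem_range.1 hk).le)))
  have hph : 0 ≤ 2 * R * ph (Sm y n / R) :=
    mul_nonneg (by linarith) (ph_nonneg (div_nonneg hN0 hRp.le))
  have h3 : klL b y n ≤ τ := by linarith
  have h4 : 2 * R * ph (Sm y n / R) ≤ τ := by linarith
  have hτ0 : 0 ≤ τ := hkl.trans h3
  refine ⟨h3, ?_, ?_, h4⟩
  · have h5 := hell hRp.le hN0 (fun h => absurd h hRp.ne')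
    have h6 : (√(Sm y n) - √R) ^ 2 ≤ τ / 2 := by linarith
    have h7 : |√(Sm y n) - √R| ≤ √(τ / 2) := by
      rw [← Real.sqrt_sq_eq_abs]
      exact Real.sqrt_le_sqrt h6
    have h8 : Sm y n - R = (√(Sm y n) - √R) * (√(Sm y n) - √R + 2 * √R) := by
      have h9 := Real.mul_self_sqrt hN0
      have h10 := Real.mul_self_sqrt hRp.le
      nlinarith
    have h9 : √(τ / 2) ≤ 71 / 100 * √τ := by
      rw [Real.sqrt_le_left (by positivity)]
      rw [mul_pow, Real.sq_sqrt hτ0]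
      linarith
    have h10 : √(R * τ) = √R * √τ := Real.sqrt_mul hRp.le τ
    have h11 : √τ ≤ √R := Real.sqrt_le_sqrt hτR
    have h12 : 0 ≤ √τ := Real.sqrt_nonneg τ
    have h13 : 0 ≤ √R := Real.sqrt_nonneg R
    have h14 : |√(Sm y n) - √R + 2 * √R| ≤ 71 / 100 * √τ + 2 * √R := by
      refine (abs_add_le _ _).trans (add_le_add (h7.trans h9) ?_)
      rw [abs_of_nonneg (by positivity)]
    rw [h8, abs_mul, h10]
    have h15 := mul_le_mul (h7.trans h9) h14 (abs_nonneg _) (by positivity)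
    nlinarith
  · have h5 := eL_sq_le (n := n) hb' hy
    have h6 : klL b y n * (6 * Sm y n + 4 * klL b y n) ≤ 49 * (R * τ) := by
      have h7 : 6 * Sm y n + 4 * klL b y n ≤ 40 * R := by linarith
      have h8 : klL b y n * (6 * Sm y n + 4 * klL b y n) ≤ τ * (40 * R) :=
        mul_le_mul h3 h7 (by positivity) hτ0
      nlinarith
    have h7 : (7 * √(R * τ)) ^ 2 = 49 * (R * τ) := by
      rw [mul_pow, Real.sq_sqrt (mul_nonneg hRp.le hτ0)]
      norm_num
    refine le_of_sq_le_sq ?_ (by positivity)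
    rw [h7]
    exact h5.trans h6
where
  le_of_sq_le_sq {x y : ℝ} (h : x ^ 2 ≤ y ^ 2) (hy : 0 ≤ y) : x ≤ y := by
    exact abs_le_of_sq_le_sq' h hy |>.2

/-- **Two near maximisers are close to one another after a rotation.** -/
theorem Dl.compare [NeZero B] {b w : ℕ} {z δ r R τ : ℝ} {M M' : ZMod B → ℝ} {x x' : ZMod B}
    {y y' : ℕ → ℝ} (h : Dl b w z δ r M x y) (h' : Dl b w z δ r M' x' y') (hz : 0 < z)
    (hR : R = √(b * z)) (hR1 : 1 ≤ R) (hw : 2 * w + 1 ≤ b) (hB : 2 * b ≤ B)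
    (hM : ∀ u, 0 ≤ M u) (hM' : ∀ u, 0 ≤ M' u)
    (hN : mass M ≤ 6 * R) (hN' : mass M' ≤ 6 * R) (hr : 0 ≤ r) (hrR : r ≤ R)
    (hτ : τ = δ + 36 * z) (hτR : τ ≤ R) (hbR : 24 * R ≤ b) (hδ : 0 ≤ δ) :
    ∑ u, |M (x + u) - M' (x' + u)| ≤ 900 * R ^ 2 * r + 3400 * R ^ 2 * √(R * τ) := by
  have hb : 0 < b := by omega
  have hb' : (0 : ℝ) < b := by exact_mod_cast hb
  have hRp : 0 < R := by linarith
  have hRsq : R ^ 2 = b * z := by
    rw [hR]
    exact Real.sq_sqrt (mul_pos hb' hz).le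
  set n := 2 * w + 1 with hn
  have hnB : n ≤ B := by omega
  -- masses
  have key : ∀ {M : ZMod B → ℝ} {x : ZMod B} {y : ℕ → ℝ}, Dl b w z δ r M x y →
      mass M ≤ 6 * R → Sm y n ≤ 6 * R := by
    intro M x y h hN
    have h1 : mass (arcP (x - (w : ZMod B)) y n) ≤ mass M :=
      sum_le_sum fun u _ => h.le u
    rw [mass_arcP hnB] at h1
    exact h1.trans hN
  have hK := key h hN
  have hK' := key h' hN'
  have hv : 2 * R + 36 * z - τ ≤ valL z b y n := by
    have := h.val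
    rw [← hR] at this
    rw [hτ]
    linarith
  have hv' : 2 * R + 36 * z - τ ≤ valL z b y' n := by
    have := h'.val
    rw [← hR] at this
    rw [hτ]
    linarith
  obtain ⟨hkl, hNR, he, _⟩ := val_near hb hz hR h.nn hK hv hτR
  obtain ⟨hkl', hNR', he', _⟩ := val_near hb hz hR h'.nn hK' hv' hτR
  have hkl0 : 0 ≤ klL b y n :=
    sum_nonneg fun k hk => mul_nonneg (bt_nonneg hb' h.nn (mem_range.1 hk).le)
      (ph_nonneg (div_nonneg (h.nn k) (bt_nonneg hb' h.nn (mem_range.1 hk).le)))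
  have hτ0 : 0 ≤ τ := hkl0.trans hkl
  set q := √(R * τ) with hq
  have hq0 : 0 ≤ q := Real.sqrt_nonneg _
  have hτq : τ ≤ q := by
    rw [hq]
    refine Real.le_sqrt_of_sq_le ?_
    nlinarith
  have hmed : SameMed r y y' n w :=
    ⟨by omega, hr, h.l1, h.l2, h'.l1, h'.l2⟩
  have hnb : (n : ℝ) ≤ b := by exact_mod_cast hw
  have h1 := dist_l1 hb' h.nn h'.nn hmed hnb (K := 6 * R) (by linarith) hK hK' (by linarith)
    (by linarith)
  have h2 : |Sm y n - Sm y' n| ≤ 4 * q := by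
    have h3 : Sm y n - Sm y' n = (Sm y n - R) - (Sm y' n - R) := by ring
    rw [h3]
    refine (abs_sub _ _).trans ?_
    linarith
  have hz36 : 2 * (6 * R) ^ 2 / b = 72 * z := by
    have h3 : 2 * (6 * R) ^ 2 / b = 72 * (R ^ 2) / b := by ring
    rw [h3, hRsq]
    field_simp
  have hzτ : 72 * z ≤ 2 * τ := by linarith
  have hdB : dB r b y y' n (6 * R) ≤ 36 * R * r + 140 * R * q := by
    unfold dB
    rw [hz36]
    have h3 : 4 * (6 * R) * |Sm y n - Sm y' n| ≤ 4 * (6 * R) * (4 * q) :=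
      mul_le_mul_of_nonneg_left h2 (by linarith)
    nlinarith
  have h3 : ∑ k ∈ range n, |y k - y' k| ≤ 24 * R * (36 * R * r + 140 * R * q) := by
    refine h1.trans ?_
    have : 4 * (6 * R) = 24 * R := by ring
    rw [this]
    exact mul_le_mul_of_nonneg_left hdB (by linarith)
  -- the circle
  have hX : ∀ {M : ZMod B → ℝ} {x : ZMod B} {y : ℕ → ℝ}, Dl b w z δ r M x y →
      ∑ u, |M (x + u) - arcP (-(w : ZMod B)) y n u| ≤ r := by
    intro M x y h
    have h4 : ∀ u, arcP (-(w : ZMod B)) y n u = arcP (x - (w : ZMod B)) y n (x + u) := by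
      intro u
      unfold arcP
      have h5 : x + u - (x - (w : ZMod B)) = u - -(w : ZMod B) := by ring
      rw [h5]
    have h5 : ∑ u, |M (x + u) - arcP (-(w : ZMod B)) y n u| =
        ∑ u, (M u - arcP (x - (w : ZMod B)) y n u) := by
      rw [← Equiv.sum_comp (Equiv.addLeft x) fun u => M u - arcP (x - (w : ZMod B)) y n u]
      refine sum_congr rfl fun u _ => ?_
      rw [h4]
      exact abs_of_nonneg (sub_nonneg.2 (h.le _))
    rw [h5, sum_sub_distrib]
    have h6 := h.ms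
    have h7 := mass_arcP hnB (x - (w : ZMod B)) y
    unfold mass at h6 h7
    rw [h7]
    exact h6
  have h4 : ∑ u, |arcP (-(w : ZMod B)) y n u - arcP (-(w : ZMod B)) y' n u| =
      ∑ k ∈ range n, |y k - y' k| := by
    rw [sum_base (-(w : ZMod B)), ← sum_range_if hnB]
    refine sum_congr rfl fun k hk => ?_
    rw [arcP_base (mem_range.1 hk), arcP_base (mem_range.1 hk)]
    split_ifs <;> simp
  have h5 : ∑ u, |M (x + u) - M' (x' + u)| ≤ r + ∑ k ∈ range n, |y k - y' k| + r := by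
    rw [← h4]
    have h6 := hX h
    have h7 := hX h'
    refine le_trans ?_ (add_le_add (add_le_add h6 le_rfl) h7)
    rw [← sum_add_distrib, ← sum_add_distrib]
    refine sum_le_sum fun u _ => ?_
    have h8 : M (x + u) - M' (x' + u) = (M (x + u) - arcP (-(w : ZMod B)) y n u) +
        (arcP (-(w : ZMod B)) y n u - arcP (-(w : ZMod B)) y' n u) -
        (M' (x' + u) - arcP (-(w : ZMod B)) y' n u) := by ring
    rw [h8]
    exact (abs_sub _ _).trans (add_le_add (abs_add_le _ _) le_rfl)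
  have h6 : 1 * r ≤ R ^ 2 * r := mul_le_mul_of_nonneg_right (by nlinarith) hr
  have h7 : 0 ≤ R ^ 2 * q := by positivity
  nlinarith

end Pool.Agent.Rg
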