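import Mathlib.Analysis.SpecialFunctions.Log.NegMulLog
import Mathlib.Data.ZMod.Basic
import Mathlib.Algebra.BigOperators.Field

/-!
# The mean field functional of the registry gas: a circle of `B` bins, wells of `b` bins

`M j` is the mass in bin `j`, `ζ` the activity of one bin, `U b` the capped circular distance.
-/

set_option autoImplicit false

namespace Pool.Agent.Rg

open Finset Real

/-- circular absolute value of a bin difference -/
def cab {B : ℕ} (j : ZMod B) : ℕ := min j.val (B - j.val)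

/-- capped circular distance, `0 ≤ U ≤ 1` -/
noncomputable def U (b : ℕ) {B : ℕ} (j : ZMod B) : ℝ := min 1 ((cab j : ℝ) / b)

/-- entropy of a mass `x` in a region of activity `ζ` -/
noncomputable def sg (ζ x : ℝ) : ℝ := x * (1 + log (ζ / x))

/-- entropy of a profile -/
noncomputable def Sn {B : ℕ} [NeZero B] (ζ : ℝ) (M : ZMod B → ℝ) : ℝ := ∑ j, sg ζ (M j)

/-- (twice the) energy of a profile -/
noncomputable def En (b : ℕ) {B : ℕ} [NeZero B] (M : ZMod B → ℝ) : ℝ :=
  ∑ j, ∑ k, U b (j - k) * M j * M k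

/-- the mean field functional -/
noncomputable def P (b : ℕ) {B : ℕ} [NeZero B] (ζ : ℝ) (M : ZMod B → ℝ) : ℝ :=
  Sn ζ M - En b M / 2

/-- the mass -/
noncomputable def mass {B : ℕ} [NeZero B] (M : ZMod B → ℝ) : ℝ := ∑ j, M j

theorem U_nonneg (b : ℕ) {B : ℕ} (j : ZMod B) : 0 ≤ U b j := by
  unfold U; positivity

theorem U_le_one (b : ℕ) {B : ℕ} (j : ZMod B) : U b j ≤ 1 := min_le_left _ _

theorem sg_zero (ζ : ℝ) : sg ζ 0 = 0 := by simp [sg]

/-- the basic inequality `x (1 + log (ζ / x)) ≤ ζ` -/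
theorem sg_le {ζ x : ℝ} (hζ : 0 < ζ) (hx : 0 ≤ x) : sg ζ x ≤ ζ := by
  rcases hx.eq_or_lt with h | h
  · rw [← h, sg_zero]; exact hζ.le
  · unfold sg
    have h1 := Real.log_le_sub_one_of_pos (div_pos hζ h)
    calc x * (1 + log (ζ / x)) ≤ x * (1 + (ζ / x - 1)) := by gcongr
      _ = ζ := by field_simp; ring

/-- change of the reference activity -/
theorem sg_mul {ζ r x : ℝ} (hζ : 0 < ζ) (hr : 0 < r) (hx : 0 ≤ x) :
    sg (ζ * r) x = sg ζ x + x * log r := by
  rcases hx.eq_or_lt with h | h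
  · rw [← h, sg_zero, sg_zero]; ring
  · unfold sg
    rw [mul_div_right_comm, Real.log_mul (div_pos hζ h).ne' hr.ne']
    ring

end Pool.Agent.Rg
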