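import Pool.Agent.Lib.MP_09cbbd_rg.Def

/-!
# Cutting and lifting a circle valued field

The circle is divided into `B` bins, a field takes values in `ZMod B`.  After a cut at a well
chosen level the field has a lift with values in `[0, B)`, whose increments are the circular ones
except along the cut, and the total weight of the pairs which cross the cut is at most the mean
circular increment.
-/

set_option autoImplicit false

namespace Pool.Agent.Rg

open Finset

variable {B : ℕ} [NeZero B]

omit [NeZero B] in
@[simp] theorem cab_zero : cab (0 : ZMod B) = 0 := by simp [cab]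

theorem cab_neg (x : ZMod B) : cab (-x) = cab x := by
  rcases eq_or_ne x 0 with rfl | hx
  · simp
  · have h : (-x).val = B - x.val := by
      rw [ZMod.neg_val, if_neg hx]
    have hlt := x.val_lt
    rw [cab, cab, h, min_comm]
    congr 1
    omega

theorem cab_sub_comm (x y : ZMod B) : cab (x - y) = cab (y - x) := by
  rw [← neg_sub, cab_neg]

omit [NeZero B] in
theorem cab_le (x : ZMod B) : cab x ≤ x.val := min_le_left _ _

theorem two_cab_le (x : ZMod B) : 2 * cab x ≤ B := by
  have hlt := x.val_lt
  unfold cab
  omega

/-- The lift of `x` after a cut at the level `c`. -/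
def lft (c x : ZMod B) : ℕ := (x - c).val

theorem lft_lt (c x : ZMod B) : lft c x < B := (x - c).val_lt

theorem cast_lft (c x : ZMod B) : ((lft c x : ℕ) : ZMod B) = x - c := by
  simp [lft]

/-- The pair `x, y` crosses the cut at `c`: the increment of the lift is not the circular one. -/
def Crs (c x y : ZMod B) : Prop := |(lft c x : ℤ) - lft c y| ≠ cab (x - y)

instance (c x y : ZMod B) : Decidable (Crs c x y) := by unfold Crs; infer_instance

theorem lft_diff (c x y : ZMod B) :
    (lft c x : ℤ) - lft c y = (x - y).val ∨ (lft c x : ℤ) - lft c y = (x - y).val - B := by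
  have h : x - c = (y - c) + (x - y) := by ring
  have hv : lft c x = (lft c y + (x - y).val) % B := by
    unfold lft
    rw [h, ZMod.val_add]
  have h1 := (x - y).val_lt
  have h2 := lft_lt c y
  rcases lt_or_ge (lft c y + (x - y).val) B with h3 | h3
  · left
    rw [hv, Nat.mod_eq_of_lt h3]
    push_cast
    ring
  · right
    have : (lft c y + (x - y).val) % B = lft c y + (x - y).val - B := by
      rw [Nat.mod_eq_sub_mod h3, Nat.mod_eq_of_lt (by omega)]
    rw [hv, this]
    omega

theorem lft_diff_of_lt {c x y : ZMod B} (h : lft c y < B - (x - y).val) :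
    (lft c x : ℤ) - lft c y = (x - y).val := by
  rcases lft_diff c x y with h1 | h1
  · exact h1
  · have h2 := (x - y).val_lt
    omega

theorem lft_diff_of_ge {c x y : ZMod B} (h : B - (x - y).val ≤ lft c y) :
    (lft c x : ℤ) - lft c y = (x - y).val - B := by
  rcases lft_diff c x y with h1 | h1
  · have h2 := lft_lt c x
    have h3 := (x - y).val_lt
    omega
  · exact h1

/-- The number of levels whose cut is crossed by a pair is at most the circular increment. -/
theorem card_crs_le (x y : ZMod B) :
    (univ.filter fun c : ZMod B => Crs c x y).card ≤ cab (x - y) := by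
  set t := (x - y).val with ht
  have htB : t < B := (x - y).val_lt
  -- the map c -> y - c is injective, its values are counted by their `val`
  have key : ∀ (p : ℕ → Prop) [DecidablePred p],
      (univ.filter fun c : ZMod B => p (lft c y)).card ≤ ((range B).filter p).card := by
    intro p _
    refine card_le_card_of_injOn (fun c => lft c y) ?_ ?_
    · intro c hc
      simp only [coe_filter, mem_univ, true_and, Set.mem_ofPred_eq] at hc
      simp only [coe_filter, mem_range, Set.mem_ofPred_eq]
      exact ⟨lft_lt c y, hc⟩
    · intro c _ c' _ h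
      have h' : y - c = y - c' := by
        have := congrArg (fun n : ℕ => (n : ZMod B)) h
        simpa [cast_lft] using this
      exact sub_right_injective h'
  rcases le_or_gt t (B - t) with h1 | h1
  · have hc : cab (x - y) = t := by
      unfold cab
      omega
    rw [hc]
    calc (univ.filter fun c : ZMod B => Crs c x y).card
        ≤ (univ.filter fun c : ZMod B => B - t ≤ lft c y).card := by
          refine card_le_card fun c hh => ?_
          simp only [mem_filter, mem_univ, true_and] at hh ⊢
          by_contra h2
          have h3 := lft_diff_of_lt (c := c) (x := x) (y := y) (by omega)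
          apply hh
          rw [h3, hc, ht]
          exact abs_of_nonneg (Int.natCast_nonneg _)
      _ ≤ ((range B).filter fun n => B - t ≤ n).card := key fun n => B - t ≤ n
      _ ≤ t := by
          have : ((range B).filter fun n => B - t ≤ n) = Ico (B - t) B := by
            ext n
            simp only [mem_filter, mem_range, mem_Ico]
            omega
          rw [this, Nat.card_Ico]
          omega
  · have hc : cab (x - y) = B - t := by
      unfold cab
      omega
    rw [hc]
    calc (univ.filter fun c : ZMod B => Crs c x y).card
        ≤ (univ.filter fun c : ZMod B => lft c y < B - t).card := by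
          refine card_le_card fun c hh => ?_
          simp only [mem_filter, mem_univ, true_and] at hh ⊢
          by_contra h2
          have h3 := lft_diff_of_ge (c := c) (x := x) (y := y) (by omega)
          apply hh
          rw [h3, hc, ← ht]
          have : ((t : ℤ) - B) ≤ 0 := by omega
          rw [abs_of_nonpos this]
          omega
      _ ≤ ((range B).filter fun n => n < B - t).card := key fun n => n < B - t
      _ ≤ B - t := by
          have : ((range B).filter fun n => n < B - t) = range (B - t) := by
            ext n
            simp only [mem_filter, mem_range]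
            omega
          rw [this, card_range]

/-- **Coarea**: there is a level such that the weight of the pairs which cross its cut is at most
the mean circular increment. -/
theorem exists_cut {ι : Type*} (P : Finset (ι × ι)) (W : ι × ι → ℝ) (hW : ∀ e ∈ P, 0 ≤ W e)
    (m : ι → ZMod B) :
    ∃ c : ZMod B, B * ∑ e ∈ P, (if Crs c (m e.1) (m e.2) then W e else 0) ≤
      ∑ e ∈ P, W e * cab (m e.1 - m e.2) := by
  have hB : (0 : ℝ) < B := by exact_mod_cast Nat.pos_of_ne_zero (NeZero.ne B)
  have hcard : (univ : Finset (ZMod B)).card = B := by rw [card_univ, ZMod.card]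
  have hsum : ∑ c : ZMod B, ∑ e ∈ P, (if Crs c (m e.1) (m e.2) then W e else 0) ≤
      ∑ e ∈ P, W e * cab (m e.1 - m e.2) := by
    rw [sum_comm]
    refine sum_le_sum fun e he => ?_
    have : ∑ c : ZMod B, (if Crs c (m e.1) (m e.2) then W e else 0) =
        ((univ.filter fun c : ZMod B => Crs c (m e.1) (m e.2)).card : ℝ) * W e := by
      rw [← sum_filter, sum_const, nsmul_eq_mul]
    rw [this, mul_comm]
    refine mul_le_mul_of_nonneg_left ?_ (hW e he)
    exact_mod_cast card_crs_le _ _
  by_contra hcon
  push Not at hcon
  have h1 : ∑ c : ZMod B, (∑ e ∈ P, W e * cab (m e.1 - m e.2)) <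
      ∑ c : ZMod B, B * ∑ e ∈ P, (if Crs c (m e.1) (m e.2) then W e else 0) :=
    sum_lt_sum_of_nonempty univ_nonempty fun c _ => hcon c
  rw [sum_const, hcard, nsmul_eq_mul, ← mul_sum] at h1
  have h2 := lt_of_mul_lt_mul_left h1 hB.le
  exact absurd hsum (not_le.2 h2)

/-- The displacement: the lift multiplied by a cutoff, rounded down. -/
noncomputable def dsp (c x : ZMod B) (u : ℝ) : ℤ := ⌊u * lft c x⌋

theorem dsp_one (c x : ZMod B) : dsp c x 1 = lft c x := by
  simp [dsp]

theorem dsp_zero (c x : ZMod B) : dsp c x 0 = 0 := by
  simp [dsp]

theorem dsp_mem (c x : ZMod B) {u : ℝ} (h0 : 0 ≤ u) (h1 : u ≤ 1) :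
    0 ≤ dsp c x u ∧ dsp c x u < B := by
  have h2 : (0 : ℝ) ≤ lft c x := Nat.cast_nonneg _
  have h3 : (lft c x : ℝ) < B := by exact_mod_cast lft_lt c x
  constructor
  · exact Int.floor_nonneg.2 (mul_nonneg h0 h2)
  · rw [dsp, Int.floor_lt]
    push_cast
    nlinarith

/-- Away from the cut the increments of the displacement are small. -/
theorem dsp_sub_le {c x y : ZMod B} (h : ¬ Crs c x y) {u v : ℝ} (hu0 : 0 ≤ u) (hu1 : u ≤ 1) :
    |(dsp c x u : ℝ) - dsp c y v| ≤ cab (x - y) + B * |u - v| + 1 := by
  have h1 : |(lft c x : ℝ) - lft c y| = cab (x - y) := by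
    have h2 : |(lft c x : ℤ) - lft c y| = cab (x - y) := not_not.1 h
    have := congrArg (fun n : ℤ => (n : ℝ)) h2
    push_cast at this
    exact this
  have h2 : |u * (lft c x : ℝ) - v * lft c y| ≤ cab (x - y) + B * |u - v| := by
    have h3 : u * (lft c x : ℝ) - v * lft c y =
        u * ((lft c x : ℝ) - lft c y) + (u - v) * lft c y := by ring
    rw [h3]
    refine (abs_add_le _ _).trans ?_
    rw [abs_mul, abs_mul, abs_of_nonneg hu0, h1]
    have h4 : (0 : ℝ) ≤ lft c y := Nat.cast_nonneg _
    have h5 : (lft c y : ℝ) ≤ B := by exact_mod_cast (lft_lt c y).le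
    rw [abs_of_nonneg h4]
    have h6 : (0 : ℝ) ≤ cab (x - y) := Nat.cast_nonneg _
    have h7 := abs_nonneg (u - v)
    nlinarith
  have h3 := Int.floor_le (u * (lft c x : ℝ))
  have h4 := Int.lt_floor_add_one (u * (lft c x : ℝ))
  have h5 := Int.floor_le (v * (lft c y : ℝ))
  have h6 := Int.lt_floor_add_one (v * (lft c y : ℝ))
  rw [abs_le] at h2
  unfold dsp
  rw [abs_le]
  constructor <;> linarith [h2.1, h2.2]

/-- Modulo `B` the displacement with cutoff one is the field, up to the level of the cut. -/
theorem cast_dsp_one (c x : ZMod B) : ((dsp c x 1 : ℤ) : ZMod B) = x - c := by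
  rw [dsp_one]
  exact_mod_cast cast_lft c x

end Pool.Agent.Rg
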