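import Pool.Agent.Lib.MP_09cbbd_rg.Loc
import Pool.Agent.Lib.MP_09cbbd_rg.Lift
import Pool.Agent.Lib.MP_09cbbd_rg.DLoc

/-!
# Elastic energies

The energy of two rotated profiles.
-/

set_option autoImplicit false

namespace Pool.Agent.Rg

open Finset Real

variable {B : ℕ} [NeZero B]

/-! ### Signed representatives -/

theorem cab_intCast_le (a : ℤ) : cab ((a : ℤ) : ZMod B) ≤ a.natAbs := by
  have hB : (0 : ℤ) < B := by exact_mod_cast Nat.pos_of_ne_zero (NeZero.ne B)
  have hpos : ∀ n : ℕ, cab ((n : ℕ) : ZMod B) ≤ n := by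
    intro n
    refine (min_le_left _ _).trans ?_
    rw [ZMod.val_natCast]
    exact Nat.mod_le _ _
  obtain ⟨n, rfl | rfl⟩ := Int.eq_nat_or_neg a
  · simpa using hpos n
  · have := hpos n
    rw [← cab_neg] at this
    simpa using this

theorem exists_rep (x : ZMod B) : ∃ a : ℤ, ((a : ℤ) : ZMod B) = x ∧ a.natAbs = cab x := by
  have hlt := x.val_lt
  rcases le_total x.val (B - x.val) with h | h
  · refine ⟨x.val, by simp, ?_⟩
    unfold cab
    rw [min_eq_left h]
    exact Int.natAbs_natCast _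
  · refine ⟨(x.val : ℤ) - B, by simp, ?_⟩
    unfold cab
    rw [min_eq_right h]
    omega

theorem cab_add_le (x y : ZMod B) : cab (x + y) ≤ cab x + cab y := by
  obtain ⟨a, ha, hac⟩ := exists_rep x
  obtain ⟨c, hc, hcc⟩ := exists_rep y
  rw [← ha, ← hc, ← Int.cast_add]
  refine (cab_intCast_le _).trans ?_
  rw [ha, hc, ← hac, ← hcc]
  exact Int.natAbs_add_le _ _

/-- The well is Lipschitz. -/
theorem U_lip {b : ℕ} (hb : 0 < b) (x s : ZMod B) : |U b (x + s) - U b x| ≤ cab s / b := by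
  have hb' : (0 : ℝ) < b := by exact_mod_cast hb
  have key : ∀ x s : ZMod B, U b (x + s) ≤ U b x + cab s / b := by
    intro x s
    have h1 : (cab (x + s) : ℝ) ≤ cab x + cab s := by exact_mod_cast cab_add_le x s
    have h2 : (cab (x + s) : ℝ) / b ≤ cab x / b + cab s / b := by
      rw [← add_div]
      exact div_le_div_of_nonneg_right h1 hb'.le
    have h3 : (0 : ℝ) ≤ cab s / b := by positivity
    unfold U
    rcases min_cases (1 : ℝ) ((cab x : ℝ) / b) with h | h
    · rw [h.1]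
      exact (min_le_left _ _).trans (by linarith)
    · rw [h.1]
      exact (min_le_right _ _).trans h2
  rw [abs_le]
  constructor
  · have h1 := key (x + s) (-s)
    rw [add_neg_cancel_right, cab_neg] at h1
    linarith
  · linarith [key x s]

/-- **The second difference of the well.** -/
theorem U_second {b : ℕ} (hb : 0 < b) (x s : ZMod B) :
    U b (x + s) + U b (x - s) - 2 * U b x ≤ if cab x < cab s then 2 * (cab s / b : ℝ) else 0 := by
  have hb' : (0 : ℝ) < b := by exact_mod_cast hb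
  obtain ⟨a, ha, hac⟩ := exists_rep x
  obtain ⟨c, hc, hcc⟩ := exists_rep s
  have h1 : (cab (x + s) : ℝ) ≤ |(a : ℝ) + c| := by
    have h2 : cab (x + s) ≤ (a + c).natAbs := by
      rw [← ha, ← hc, ← Int.cast_add]
      exact cab_intCast_le _
    have h3 : (((a + c).natAbs : ℕ) : ℝ) = |(a : ℝ) + c| := by
      rw [Nat.cast_natAbs, Int.cast_abs]
      push_cast
      rfl
    rw [← h3]
    exact_mod_cast h2
  have h2 : (cab (x - s) : ℝ) ≤ |(a : ℝ) - c| := by
    have h2 : cab (x - s) ≤ (a - c).natAbs := by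
      rw [← ha, ← hc, ← Int.cast_sub]
      exact cab_intCast_le _
    have h3 : (((a - c).natAbs : ℕ) : ℝ) = |(a : ℝ) - c| := by
      rw [Nat.cast_natAbs, Int.cast_abs]
      push_cast
      rfl
    rw [← h3]
    exact_mod_cast h2
  have h3 : (cab x : ℝ) = |(a : ℝ)| := by
    rw [← hac, Nat.cast_natAbs, Int.cast_abs]
  have h4 : (cab s : ℝ) = |(c : ℝ)| := by
    rw [← hcc, Nat.cast_natAbs, Int.cast_abs]
  -- the sum of the two absolute values
  have h5 : |(a : ℝ) + c| + |(a : ℝ) - c| ≤ 2 * max |(a : ℝ)| |(c : ℝ)| := by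
    rcases le_total |(a : ℝ)| |(c : ℝ)| with h | h
    · rw [max_eq_right h]
      rcases abs_cases (a : ℝ) with ha' | ha' <;> rcases abs_cases (c : ℝ) with hc' | hc' <;>
        rcases abs_cases ((a : ℝ) + c) with h6 | h6 <;>
        rcases abs_cases ((a : ℝ) - c) with h7 | h7 <;> linarith
    · rw [max_eq_left h]
      rcases abs_cases (a : ℝ) with ha' | ha' <;> rcases abs_cases (c : ℝ) with hc' | hc' <;>
        rcases abs_cases ((a : ℝ) + c) with h6 | h6 <;>
        rcases abs_cases ((a : ℝ) - c) with h7 | h7 <;> linarith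
  split_ifs with h
  · have h' : (cab x : ℝ) < cab s := by exact_mod_cast h
    have h6 : max |(a : ℝ)| |(c : ℝ)| = cab s := by
      rw [← h3, ← h4]
      exact max_eq_right h'.le
    rw [h6] at h5
    have h7 : U b (x + s) ≤ cab (x + s) / b := min_le_right _ _
    have h8 : U b (x - s) ≤ cab (x - s) / b := min_le_right _ _
    have h9 := U_nonneg b x
    have h10 : (cab (x + s) : ℝ) / b + cab (x - s) / b ≤ 2 * (cab s / b) := by
      rw [← add_div, ← mul_div_assoc]
      exact div_le_div_of_nonneg_right (by linarith) hb'.le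
    linarith
  · have h' : (cab s : ℝ) ≤ cab x := by exact_mod_cast not_lt.1 h
    have h6 : max |(a : ℝ)| |(c : ℝ)| = cab x := by
      rw [← h3, ← h4]
      exact max_eq_left h'
    rw [h6] at h5
    have h7 : U b (x + s) ≤ cab (x + s) / b := min_le_right _ _
    have h8 : U b (x - s) ≤ cab (x - s) / b := min_le_right _ _
    have h9 : U b (x + s) ≤ 1 := U_le_one b _
    have h10 : U b (x - s) ≤ 1 := U_le_one b _
    have h11 : (cab (x + s) : ℝ) / b + cab (x - s) / b ≤ 2 * (cab x / b) := by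
      rw [← add_div, ← mul_div_assoc]
      exact div_le_div_of_nonneg_right (by linarith) hb'.le
    have h12 : U b x = min 1 ((cab x : ℝ) / b) := rfl
    rcases min_cases (1 : ℝ) ((cab x : ℝ) / b) with h13 | h13
    · rw [h12, h13.1]
      linarith
    · rw [h12, h13.1]
      linarith

/-! ### Cross energies -/

/-- The energy of the pairs of bins of two profiles. -/
noncomputable def Ec (b : ℕ) (M M' : ZMod B → ℝ) : ℝ := ∑ j, ∑ k, U b (j - k) * M j * M' k

/-- The rotated profile. -/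
def rot (s : ZMod B) (M : ZMod B → ℝ) : ZMod B → ℝ := fun j => M (j - s)

omit [NeZero B] in
@[simp] theorem rot_apply (s : ZMod B) (M : ZMod B → ℝ) (j : ZMod B) : rot s M j = M (j - s) := rfl

omit [NeZero B] in
theorem rot_rot (s t : ZMod B) (M : ZMod B → ℝ) : rot s (rot t M) = rot (s + t) M := by
  funext j
  simp only [rot_apply]
  congr 1
  ring

omit [NeZero B] in
@[simp] theorem rot_zero (M : ZMod B → ℝ) : rot 0 M = M := by
  funext j
  simp

theorem Ec_self (b : ℕ) (M : ZMod B → ℝ) : Ec b M M = En b M := rfl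

theorem Ec_comm (b : ℕ) (M M' : ZMod B → ℝ) : Ec b M M' = Ec b M' M := by
  unfold Ec
  rw [sum_comm]
  refine sum_congr rfl fun k _ => sum_congr rfl fun j _ => ?_
  rw [U_comm]
  ring

theorem Ec_nonneg {b : ℕ} {M M' : ZMod B → ℝ} (hM : ∀ j, 0 ≤ M j) (hM' : ∀ j, 0 ≤ M' j) :
    0 ≤ Ec b M M' :=
  sum_nonneg fun j _ => sum_nonneg fun k _ =>
    mul_nonneg (mul_nonneg (U_nonneg _ _) (hM j)) (hM' k)

theorem Ec_le {b : ℕ} {M M' : ZMod B → ℝ} (hM : ∀ j, 0 ≤ M j) (hM' : ∀ j, 0 ≤ M' j) :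
    Ec b M M' ≤ mass M * mass M' := by
  unfold Ec mass
  rw [sum_mul_sum]
  refine sum_le_sum fun j _ => sum_le_sum fun k _ => ?_
  have h1 := mul_le_mul_of_nonneg_right (U_le_one b (j - k)) (mul_nonneg (hM j) (hM' k))
  linarith

theorem mass_rot (s : ZMod B) (M : ZMod B → ℝ) : mass (rot s M) = mass M := by
  unfold mass
  exact Equiv.sum_comp (Equiv.subRight s) M

theorem Ec_rot_left (b : ℕ) (s : ZMod B) (M M' : ZMod B → ℝ) :
    Ec b (rot s M) M' = ∑ j, ∑ k, U b (j - k + s) * M j * M' k := by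
  unfold Ec
  rw [← Equiv.sum_comp (Equiv.addRight s)]
  refine sum_congr rfl fun j _ => sum_congr rfl fun k _ => ?_
  simp only [Equiv.coe_addRight, rot_apply, add_sub_cancel_right]
  congr 3
  ring

/-- The energy only depends on the relative rotation. -/
theorem Ec_rot_rot (b : ℕ) (s t : ZMod B) (M M' : ZMod B → ℝ) :
    Ec b (rot s M) (rot t M') = Ec b (rot (s - t) M) M' := by
  rw [Ec_rot_left, Ec_rot_left]
  refine sum_congr rfl fun j _ => ?_
  rw [← Equiv.sum_comp (Equiv.addRight t)]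
  refine sum_congr rfl fun k _ => ?_
  simp only [Equiv.coe_addRight, rot_apply, add_sub_cancel_right]
  congr 3
  ring

theorem Sn_rot (z : ℝ) (s : ZMod B) (M : ZMod B → ℝ) : Sn z (rot s M) = Sn z M := by
  unfold Sn
  exact Equiv.sum_comp (Equiv.subRight s) fun j => sg z (M j)

theorem P_rot (b : ℕ) (z : ℝ) (s : ZMod B) (M : ZMod B → ℝ) : P b z (rot s M) = P b z M := by
  unfold P
  rw [Sn_rot, ← Ec_self, ← Ec_self, Ec_rot_rot, sub_self, rot_zero]

/-- **Lipschitz bound of the energy of a rotation.** -/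
theorem Ec_rot_lip {b : ℕ} (hb : 0 < b) {M M' : ZMod B → ℝ} (hM : ∀ j, 0 ≤ M j)
    (hM' : ∀ j, 0 ≤ M' j) (s : ZMod B) :
    |Ec b (rot s M) M' - Ec b M M'| ≤ cab s / b * (mass M * mass M') := by
  rw [Ec_rot_left, Ec, ← sum_sub_distrib]
  unfold mass
  rw [sum_mul_sum, mul_sum]
  refine (abs_sum_le_sum_abs _ _).trans (sum_le_sum fun j _ => ?_)
  rw [← sum_sub_distrib, mul_sum]
  refine (abs_sum_le_sum_abs _ _).trans (sum_le_sum fun k _ => ?_)
  have h1 : U b (j - k + s) * M j * M' k - U b (j - k) * M j * M' k =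
      (U b (j - k + s) - U b (j - k)) * (M j * M' k) := by ring
  rw [h1, abs_mul, abs_of_nonneg (mul_nonneg (hM j) (hM' k))]
  exact mul_le_mul_of_nonneg_right (U_lip hb _ _) (mul_nonneg (hM j) (hM' k))

/-- The mass of the pairs at a distance of less than `c` bins. -/
noncomputable def cusp (c : ℕ) (M : ZMod B → ℝ) : ℝ :=
  ∑ j, ∑ k, if cab (j - k) < c then M j * M k else 0

/-- **The elastic energy of a profile.** -/
theorem Ec_rot_self {b : ℕ} (hb : 0 < b) {M : ZMod B → ℝ} (hM : ∀ j, 0 ≤ M j) (s : ZMod B) :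
    Ec b (rot s M) M ≤ En b M + cab s / b * cusp (cab s) M := by
  have h1 : Ec b (rot s M) M = ∑ j, ∑ k, U b (j - k - s) * M j * M k := by
    rw [Ec_rot_left, sum_comm]
    refine sum_congr rfl fun j _ => sum_congr rfl fun k _ => ?_
    have h2 : k - j + s = -(j - k - s) := by ring
    rw [h2, U_neg]
    ring
  have h2 := Ec_rot_left b s M M
  have h3 : 2 * Ec b (rot s M) M - 2 * En b M = ∑ j, ∑ k,
      (U b (j - k + s) + U b (j - k - s) - 2 * U b (j - k)) * (M j * M k) := by
    have h4 : 2 * Ec b (rot s M) M = ∑ j, ∑ k, U b (j - k + s) * M j * M k +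
        ∑ j, ∑ k, U b (j - k - s) * M j * M k := by
      rw [← h1, ← h2]
      ring
    rw [h4, En, mul_sum, ← sum_add_distrib, ← sum_sub_distrib]
    refine sum_congr rfl fun j _ => ?_
    rw [mul_sum, ← sum_add_distrib, ← sum_sub_distrib]
    exact sum_congr rfl fun k _ => by ring
  have h4 : ∑ j, ∑ k, (U b (j - k + s) + U b (j - k - s) - 2 * U b (j - k)) * (M j * M k) ≤
      2 * (cab s / b * cusp (cab s) M) := by
    unfold cusp
    rw [mul_sum, mul_sum]
    refine sum_le_sum fun j _ => ?_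
    rw [mul_sum, mul_sum]
    refine sum_le_sum fun k _ => ?_
    have h5 := mul_le_mul_of_nonneg_right (U_second hb (j - k) s) (mul_nonneg (hM j) (hM k))
    refine h5.trans (le_of_eq ?_)
    split_ifs <;> ring
  linarith

theorem card_cab_lt (j : ZMod B) (c : ℕ) :
    (univ.filter fun k : ZMod B => cab (j - k) < c).card ≤ 2 * c := by
  have h1 : (univ.filter fun k : ZMod B => cab (j - k) < c) ⊆
      (Ioo (-(c : ℤ)) c).image fun a : ℤ => j - (a : ZMod B) := by
    intro k hk
    rw [mem_filter] at hk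
    obtain ⟨a, ha, hac⟩ := exists_rep (j - k)
    rw [mem_image]
    refine ⟨a, ?_, ?_⟩
    · rw [mem_Ioo]
      have := hk.2
      rw [← hac] at this
      omega
    · rw [ha]
      ring
  refine (card_le_card h1).trans (card_image_le.trans ?_)
  rw [Int.card_Ioo]
  omega

theorem cusp_le {κ : ℝ} {M : ZMod B → ℝ} (hM : ∀ j, 0 ≤ M j) (hκ : ∀ j, M j ≤ κ) (c : ℕ) :
    cusp c M ≤ 2 * c * κ * mass M := by
  unfold cusp mass
  rw [mul_sum]
  refine sum_le_sum fun j _ => ?_
  rw [← sum_filter]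
  have h1 : ∑ k ∈ univ.filter (fun k : ZMod B => cab (j - k) < c), M j * M k ≤
      ∑ _k ∈ univ.filter (fun k : ZMod B => cab (j - k) < c), M j * κ :=
    sum_le_sum fun k _ => mul_le_mul_of_nonneg_left (hκ k) (hM j)
  refine h1.trans ?_
  rw [sum_const, nsmul_eq_mul]
  have h2 : (((univ.filter fun k : ZMod B => cab (j - k) < c).card : ℕ) : ℝ) ≤ 2 * c := by
    exact_mod_cast card_cab_lt j c
  have h3 : 0 ≤ M j * κ := mul_nonneg (hM j) ((hM j).trans (hκ j))
  nlinarith

/-- **(MF5)** The elastic energy of a bounded profile is quadratic. -/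
theorem Ec_rot_bdd {b : ℕ} (hb : 0 < b) {κ : ℝ} {M : ZMod B → ℝ} (hM : ∀ j, 0 ≤ M j)
    (hκ : ∀ j, M j ≤ κ) (s : ZMod B) :
    Ec b (rot s M) M ≤ En b M + 2 * κ * mass M / b * (cab s : ℝ) ^ 2 := by
  have h1 := Ec_rot_self hb hM s
  have h2 := cusp_le hM hκ (cab s)
  have hb' : (0 : ℝ) < b := by exact_mod_cast hb
  have h3 : (0 : ℝ) ≤ cab s / b := by positivity
  have h4 := mul_le_mul_of_nonneg_left h2 h3
  have h5 : (cab s : ℝ) / b * (2 * cab s * κ * mass M) =
      2 * κ * mass M / b * (cab s : ℝ) ^ 2 := by ring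
  linarith

/-- The energy is Lipschitz in variation. -/
theorem Ec_sub_le {b : ℕ} {M : ZMod B → ℝ} (hM : ∀ j, 0 ≤ M j) (M' M'' : ZMod B → ℝ) :
    |Ec b M M' - Ec b M M''| ≤ mass M * ∑ k, |M' k - M'' k| := by
  unfold Ec mass
  rw [← sum_sub_distrib, sum_mul_sum]
  refine (abs_sum_le_sum_abs _ _).trans (sum_le_sum fun j _ => ?_)
  rw [← sum_sub_distrib]
  refine (abs_sum_le_sum_abs _ _).trans (sum_le_sum fun k _ => ?_)
  have h1 : U b (j - k) * M j * M' k - U b (j - k) * M j * M'' k =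
      U b (j - k) * (M j * (M' k - M'' k)) := by ring
  rw [h1, abs_mul, abs_mul, abs_of_nonneg (U_nonneg _ _), abs_of_nonneg (hM j)]
  have h2 := mul_le_mul_of_nonneg_right (U_le_one b (j - k))
    (mul_nonneg (hM j) (abs_nonneg (M' k - M'' k)))
  linarith

/-- The energy of two profiles which are close to rotations of one profile. -/
theorem Ec_near {b : ℕ} (hb : 0 < b) {κ e e' N : ℝ} {D M M' : ZMod B → ℝ} (hD : ∀ j, 0 ≤ D j)
    (hκ : ∀ j, D j ≤ κ) (hM' : ∀ j, 0 ≤ M' j) (hN : mass M' ≤ N) (hDN : mass D ≤ N)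
    {s t : ZMod B} (h1 : ∑ j, |M j - rot s D j| ≤ e) (h2 : ∑ j, |M' j - rot t D j| ≤ e') :
    Ec b M M' ≤ En b D + 2 * κ * mass D / b * (cab (s - t) : ℝ) ^ 2 + N * (e + e') := by
  have hrot : ∀ u j, 0 ≤ rot u D j := fun u j => hD _
  have h3 : |Ec b M' M - Ec b M' (rot s D)| ≤ N * e :=
    (Ec_sub_le hM' M (rot s D)).trans (mul_le_mul hN h1 (sum_nonneg fun _ _ => abs_nonneg _)
      ((sum_nonneg fun j _ => hM' j).trans hN))
  have h4 : |Ec b (rot s D) M' - Ec b (rot s D) (rot t D)| ≤ N * e' := by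
    refine (Ec_sub_le (hrot s) M' (rot t D)).trans ?_
    rw [mass_rot]
    exact mul_le_mul hDN h2 (sum_nonneg fun _ _ => abs_nonneg _)
      ((sum_nonneg fun j _ => hD j).trans hDN)
  have h5 := Ec_rot_bdd hb hD hκ (s - t)
  rw [← Ec_rot_rot b s t D D] at h5
  rw [Ec_comm b M' M, Ec_comm b M' (rot s D)] at h3
  rw [abs_le] at h3 h4
  linarith [h3.2, h4.2]

end Pool.Agent.Rg
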