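import Pool.Agent.Lib.MP_09cbbd_rg.Avg

/-!
# The fluid class

All windows of mass at most `A`: the functional is at most the fluid value minus explicit deficits.
-/

set_option autoImplicit false

namespace Pool.Agent.Rg

open Finset Real

variable {B : ℕ} [NeZero B]

/-- the fluid value -/
noncomputable def Pf (L s : ℝ) : ℝ := L + s * L ^ 2 / 2

/-- the parameters of the mean field model: `n` wells of `b` bins, bin activity `ζ`, fluid density
`L`, threshold `A` of the window mass -/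
structure Par (n b : ℕ) (ζ L s A K : ℝ) : Prop where
  hb : 0 < b
  hn : 6 ≤ n
  hs : s = 1 - 1 / n
  hL : 1 ≤ L
  hz : n * (b * ζ) = L * exp (s * L)
  hK : K = 1 + log (4 * (b * ζ))
  hK0 : 0 ≤ K
  hKL : K ≤ L / 2
  hAK : A * K ≤ L ^ 2 / 16

namespace Par

variable {n b : ℕ} {ζ L s A K : ℝ}

theorem n_pos (h : Par n b ζ L s A K) : (0 : ℝ) < n := by
  have := h.hn; exact_mod_cast (by omega : 0 < n)

theorem b_pos (h : Par n b ζ L s A K) : (0 : ℝ) < b := by exact_mod_cast h.hb

theorem s_ge (h : Par n b ζ L s A K) : 5 / 6 ≤ s := by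
  have h6 : (6 : ℝ) ≤ n := by exact_mod_cast h.hn
  have : 1 / (n : ℝ) ≤ 1 / 6 := one_div_le_one_div_of_le (by norm_num) h6
  rw [h.hs]; linarith

theorem s_le (h : Par n b ζ L s A K) : s ≤ 1 := by
  have := h.n_pos
  have : 0 ≤ 1 / (n : ℝ) := by positivity
  rw [h.hs]; linarith

theorem ζ_pos (h : Par n b ζ L s A K) : 0 < ζ := by
  have h1 : 0 < n * (b * ζ) := by rw [h.hz]; have := h.hL; positivity
  exact (mul_pos_iff_of_pos_left h.b_pos).1 ((mul_pos_iff_of_pos_left h.n_pos).1 h1)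

end Par

theorem kl_chain {n b : ℕ} (hb : 0 < b) (hn : 0 < n) (hB : B = n * b) {ζ : ℝ} (hζ : 0 < ζ)
    {M : ZMod B → ℝ} (hM : ∀ j, 0 ≤ M j) (t : ZMod B) :
    ∑ i : Fin n, kl (win b M (t + ((i : ℕ) * b : ℕ))) (mass M / n) +
      ∑ i : Fin n, klw b ζ M (t + ((i : ℕ) * b : ℕ)) = ∑ j, kl (M j) (mass M / B) := by
  have hb' : (0 : ℝ) < b := by exact_mod_cast hb
  have hn' : (0 : ℝ) < n := by exact_mod_cast hn
  have hB' : (B : ℝ) = n * b := by rw [hB]; push_cast; ring
  have hN : 0 ≤ mass M := sum_nonneg fun j _ => hM j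
  have hw0 : ∀ t, 0 ≤ win b M t := fun t => sum_nonneg fun r _ => hM _
  rcases hN.eq_or_lt with h0 | hpos
  · have h1 : ∀ j, M j = 0 := fun j =>
      (sum_eq_zero_iff_of_nonneg fun j _ => hM j).1 (by unfold mass at h0; exact h0.symm) j
        (mem_univ j)
    have h2 : ∀ t, win b M t = 0 := fun t => sum_eq_zero fun r _ => h1 _
    have h3 : ∀ t, klw b ζ M t = 0 := by
      intro t; unfold klw; rw [h2, sg_zero, sum_eq_zero (fun r _ => by rw [h1, sg_zero])]; simp
    have h4 : kl 0 0 = 0 := by unfold kl; rw [sg_zero]; simp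
    rw [← h0, zero_div, zero_div, sum_eq_zero (fun i _ => by rw [h2, h4]),
      sum_eq_zero (fun i _ => h3 _), sum_eq_zero (fun j _ => by rw [h1, h4])]
    simp
  · set N := mass M with hNd
    set y := N / n with hy
    have hy0 : 0 < y := div_pos hpos hn'
    have hyb : N / B = y / b := by rw [hB', hy]; field_simp
    rw [hyb]
    have hyb0 : 0 < y / b := div_pos hy0 hb'
    have e1 : ∀ x, 0 ≤ x → sg (b * ζ) x = sg y x + x * log (b * ζ / y) := by
      intro x hx
      have h2 := sg_mul (ζ := y) (r := b * ζ / y) hy0 (by positivity) hx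
      rwa [show y * (b * ζ / y) = b * ζ by field_simp] at h2
    have e2 : ∀ x, 0 ≤ x → sg ζ x = sg (y / b) x + x * log (b * ζ / y) := by
      intro x hx
      have h2 := sg_mul (ζ := y / b) (r := b * ζ / y) hyb0 (by positivity) hx
      rwa [show y / b * (b * ζ / y) = ζ by field_simp] at h2
    have e3 : ∑ i : Fin n, win b M (t + ((i : ℕ) * b : ℕ)) = N := sum_cells hB M t
    have e4 : ∑ i : Fin n, ∑ r ∈ range b, sg ζ (M (t + ((i : ℕ) * b : ℕ) + (r : ZMod B))) =
        ∑ j, sg ζ (M j) := sum_cells hB (fun j => sg ζ (M j)) t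
    unfold klw kl
    rw [sum_sub_distrib, sum_sub_distrib, e4, sum_sub_distrib, sum_const, card_univ,
      Fintype.card_fin, nsmul_eq_mul, sum_const, card_univ, ZMod.card, nsmul_eq_mul,
      sum_congr rfl (fun i _ => e1 _ (hw0 _)), sum_congr rfl (fun j _ => e2 _ (hM j)),
      sum_add_distrib, sum_add_distrib, ← sum_mul, ← sum_mul, e3]
    have e5 : ∑ j, M j = N := rfl
    rw [e5, hB']
    field_simp
    ring

/-- the functional in the class of light windows -/
theorem fluid_class {n b : ℕ} {ζ L s A K : ℝ} (h : Par n b ζ L s A K) (hB : B = n * b)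
    {M : ZMod B → ℝ} (hM : ∀ j, 0 ≤ M j) (hA : ∀ t, win b M t ≤ A) :
    ∃ g : ℝ, 0 ≤ g ∧ g ≤ 1 ∧ P b ζ M ≤ Pf L s - (1 - g) * (L / 32) -
      g * (kl (mass M) L + s * (mass M - L) ^ 2 / 2 + (∑ j, kl (M j) (mass M / B)) / 2) := by
  classical
  have hn' := h.n_pos
  have hB' : (0 : ℝ) < B := by exact_mod_cast NeZero.pos B
  have hn := h.hn
  have : Nonempty (Fin n) := ⟨⟨0, by omega⟩⟩
  have hζ := h.ζ_pos
  have hL0 : 0 < L := by have := h.hL; linarith
  set G : Finset (ZMod B) := univ.filter fun t => ∀ i : Fin n,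
    win b M (t + ((i : ℕ) * b : ℕ)) ≤ 1 / 4 with hG
  set X := kl (mass M) L + s * (mass M - L) ^ 2 / 2 + (∑ j, kl (M j) (mass M / B)) / 2 with hX
  have hw0 : ∀ t, 0 ≤ win b M t := fun t => sum_nonneg fun r _ => hM _
  have hklw : ∀ t, 0 ≤ ∑ i : Fin n, klw b ζ M (t + ((i : ℕ) * b : ℕ)) := fun t =>
    sum_nonneg fun i _ => klw_nonneg h.hb hζ hM _
  have h1 : ∀ t ∈ G, Pt n b ζ M t ≤ Pf L s - X := by
    intro t ht
    have h2 := potts_small (fun i : Fin n => win b M (t + ((i : ℕ) * b : ℕ))) (c := b * ζ)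
      (L := L) (s := s) hL0 (by rw [Fintype.card_fin]; exact h.hs)
      (by rw [Fintype.card_fin]; exact h.hz) (fun i => hw0 _) (mem_filter.1 ht).2
    rw [sum_cells hB, Fintype.card_fin] at h2
    have h3 := kl_chain h.hb (by omega : 0 < n) hB hζ hM t
    have h4 := hklw t
    unfold Pt Pf
    rw [hX, ← h3]
    linarith
  have h1' : ∀ t ∈ Gᶜ, Pt n b ζ M t ≤ Pf L s - L / 32 := by
    intro t ht
    have hex : ∃ i : Fin n, 1 / 4 < win b M (t + ((i : ℕ) * b : ℕ)) := by
      rw [mem_compl, hG, mem_filter] at ht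
      push Not at ht
      exact ht (mem_univ t)
    have h2 := potts_gap (fun i : Fin n => win b M (t + ((i : ℕ) * b : ℕ))) (c := b * ζ)
      (L := L) (s := s) (A := A) (K := K) h.hL (by rw [Fintype.card_fin]; exact h.hs)
      (by rw [Fintype.card_fin]; exact h.hz) h.s_ge h.s_le h.hK h.hKL
      (by have := h.hAK; nlinarith [sq_nonneg L]) h.hK0 (fun i => hw0 _) (fun i => hA _) hex
    rw [sum_cells hB] at h2
    have h4 := hklw t
    unfold Pt Pf
    linarith
  have hsum := P_avg h.hb (by omega : 2 ≤ n) hB ζ M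
  have h5 : ∑ t, Pt n b ζ M t ≤ G.card * (Pf L s - X) + (Gᶜ).card * (Pf L s - L / 32) := by
    rw [← sum_add_sum_compl G]
    refine add_le_add ?_ ?_
    · rw [← nsmul_eq_mul]; exact sum_le_card_nsmul _ _ _ h1
    · rw [← nsmul_eq_mul]; exact sum_le_card_nsmul _ _ _ h1'
  have h6 : ((Gᶜ).card : ℝ) = B - G.card := by
    rw [card_compl, ZMod.card, Nat.cast_sub]
    have := card_le_univ G
    rwa [ZMod.card] at this
  have h7 : (G.card : ℝ) ≤ B := by
    have := card_le_univ G
    rw [ZMod.card] at this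
    exact_mod_cast this
  refine ⟨G.card / B, by positivity, by rw [div_le_one hB']; exact h7, ?_⟩
  rw [h6] at h5
  have h8 : B * P b ζ M ≤ B * (Pf L s - (1 - G.card / B) * (L / 32) - G.card / B * X) := by
    rw [hsum]
    refine h5.trans (le_of_eq ?_)
    field_simp
    ring
  exact le_of_mul_le_mul_left h8 hB'

/-- relative entropy controls the `L¹` distance -/
theorem l1_kl {ι : Type*} (T : Finset ι) (a y : ι → ℝ) (ha : ∀ i ∈ T, 0 ≤ a i)
    (hy : ∀ i ∈ T, 0 < y i) :
    (∑ i ∈ T, |a i - y i|) ^ 2 ≤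
      (∑ i ∈ T, kl (a i) (y i)) * (2 * (∑ i ∈ T, a i + ∑ i ∈ T, y i)) := by
  have h1 : ∑ i ∈ T, |a i - y i| = ∑ i ∈ T, |√(a i) - √(y i)| * (√(a i) + √(y i)) := by
    refine sum_congr rfl fun i hi => ?_
    have h2 : 0 ≤ √(a i) + √(y i) := by positivity
    rw [← abs_of_nonneg h2, ← abs_mul]
    congr 1
    have := Real.sq_sqrt (ha i hi); have := Real.sq_sqrt (hy i hi).le
    nlinarith
  rw [h1]
  refine (sum_mul_sq_le_sq_mul_sq _ _ _).trans ?_
  refine mul_le_mul ?_ ?_ (sum_nonneg fun i _ => sq_nonneg _)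
    (sum_nonneg fun i hi => kl_nonneg (ha i hi) (hy i hi))
  · refine sum_le_sum fun i hi => ?_
    rw [sq_abs]; exact kl_hellinger (ha i hi) (hy i hi)
  · rw [← sum_add_distrib, mul_sum]
    refine sum_le_sum fun i hi => ?_
    have := Real.sq_sqrt (ha i hi); have := Real.sq_sqrt (hy i hi).le
    nlinarith [sq_nonneg (√(a i) - √(y i))]

/-- stability of the fluid -/
theorem fluid_stab {n b : ℕ} {ζ L s A K : ℝ} (h : Par n b ζ L s A K) (hB : B = n * b)
    {M : ZMod B → ℝ} (hM : ∀ j, 0 ≤ M j) (hA : ∀ t, win b M t ≤ A) {δ : ℝ}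
    (hδ : δ ≤ L / 64) (hP : Pf L s - δ ≤ P b ζ M) :
    kl (mass M) L + s * (mass M - L) ^ 2 / 2 + (∑ j, kl (M j) (mass M / B)) / 2 ≤ 2 * δ ∧
      0 < mass M := by
  obtain ⟨g, hg0, hg1, hg⟩ := fluid_class h hB hM hA
  set X := kl (mass M) L + s * (mass M - L) ^ 2 / 2 + (∑ j, kl (M j) (mass M / B)) / 2 with hX
  have hL := h.hL
  have hL0 : 0 < L := by linarith
  have hN : 0 ≤ mass M := sum_nonneg fun j _ => hM j
  have hB' : (0 : ℝ) < B := by exact_mod_cast NeZero.pos B
  have hX0 : 0 ≤ X := by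
    have h1 := kl_nonneg hN hL0
    have h2 : 0 ≤ s * (mass M - L) ^ 2 / 2 := by have := h.s_ge; positivity
    have h3 : 0 ≤ ∑ j, kl (M j) (mass M / B) := by
      rcases hN.eq_or_lt with h0 | hpos
      · have h1 : ∀ j, M j = 0 := fun j =>
          (sum_eq_zero_iff_of_nonneg fun j _ => hM j).1 (by unfold mass at h0; exact h0.symm) j
            (mem_univ j)
        rw [← h0]
        refine sum_nonneg fun j _ => ?_
        rw [h1]; simp [kl, sg]
      · exact sum_nonneg fun j _ => kl_nonneg (hM j) (div_pos hpos hB')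
    rw [hX]; linarith
  have hg2 : 1 / 2 ≤ g := by
    by_contra hcon
    push Not at hcon
    have h1 : (1 - g) * (L / 32) + g * X ≤ δ := by linarith
    have h2 : 0 ≤ g * X := mul_nonneg hg0 hX0
    nlinarith
  have h3 : g * X ≤ δ := by
    have : 0 ≤ (1 - g) * (L / 32) := mul_nonneg (by linarith) (by positivity)
    linarith
  have h4 : X ≤ 2 * δ := by nlinarith
  refine ⟨h4, ?_⟩
  rcases hN.eq_or_lt with h0 | hpos
  · exfalso
    have h5 : kl 0 L = L := by unfold kl; rw [sg_zero]; ring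
    have h6 : L ≤ X := by
      have h2 : 0 ≤ s * (mass M - L) ^ 2 / 2 := by have := h.s_ge; positivity
      have h3 : 0 ≤ ∑ j, kl (M j) (mass M / B) := by
        have h1 : ∀ j, M j = 0 := fun j =>
          (sum_eq_zero_iff_of_nonneg fun j _ => hM j).1 (by unfold mass at h0; exact h0.symm) j
            (mem_univ j)
        rw [← h0]
        refine sum_nonneg fun j _ => ?_
        rw [h1]; simp [kl, sg]
      rw [hX]
      rw [← h0] at h2 h3 ⊢
      rw [h5]; linarith
    linarith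
  · exact hpos

/-- `L¹` stability of the fluid -/
theorem fluid_l1 {n b : ℕ} {ζ L s A K : ℝ} (h : Par n b ζ L s A K) (hB : B = n * b)
    {M : ZMod B → ℝ} (hM : ∀ j, 0 ≤ M j) (hA : ∀ t, win b M t ≤ A) {δ : ℝ}
    (hδ : δ ≤ L / 64) (hP : Pf L s - δ ≤ P b ζ M) :
    (∑ j, |M j - mass M / B|) ^ 2 ≤ 16 * δ * mass M ∧ (mass M - L) ^ 2 ≤ 5 * δ := by
  obtain ⟨h1, hpos⟩ := fluid_stab h hB hM hA hδ hP
  have hB' : (0 : ℝ) < B := by exact_mod_cast NeZero.pos B
  have hL0 : 0 < L := by have := h.hL; linarith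
  have hk := kl_nonneg hpos.le hL0
  have hs := h.s_ge
  have h2 : 0 ≤ s * (mass M - L) ^ 2 / 2 := by positivity
  have h3 : 0 ≤ ∑ j, kl (M j) (mass M / B) := sum_nonneg fun j _ =>
    kl_nonneg (hM j) (div_pos hpos hB')
  constructor
  · have h4 := l1_kl univ M (fun _ => mass M / B) (fun j _ => hM j) (fun j _ => div_pos hpos hB')
    rw [sum_const, card_univ, ZMod.card, nsmul_eq_mul, mul_div_cancel₀ _ hB'.ne'] at h4
    have h5 : ∑ j, M j = mass M := rfl
    rw [h5] at h4
    have h6 : ∑ j, kl (M j) (mass M / B) ≤ 4 * δ := by linarith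
    nlinarith
  · nlinarith [sq_nonneg (mass M - L)]

/-- sum of the well -/
theorem sum_U {b : ℕ} (hb : 0 < b) (h2 : 2 * b ≤ B) : ∑ d : ZMod B, U b d = B - b := by
  have hB' : (0 : ℝ) < B := by exact_mod_cast NeZero.pos B
  have hb' : (0 : ℝ) < b := by exact_mod_cast hb
  have h1 := sum_win_sq hb h2 (fun _ : ZMod B => (1 : ℝ))
  have h3 : ∀ t : ZMod B, win b (fun _ : ZMod B => (1 : ℝ)) t = b := by
    intro t; unfold win; simp
  have h4 : mass (fun _ : ZMod B => (1 : ℝ)) = B := by unfold mass; simp [ZMod.card]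
  have h5 : En b (fun _ : ZMod B => (1 : ℝ)) = B * ∑ d : ZMod B, U b d := by
    unfold En
    rw [sum_comm]
    have : ∀ k ∈ (univ : Finset (ZMod B)), ∑ j, U b (j - k) * 1 * 1 = ∑ d : ZMod B, U b d := by
      intro k _
      rw [← sum_shift (fun d => U b d) (-k)]
      refine sum_congr rfl fun j _ => ?_
      rw [mul_one, mul_one, sub_eq_add_neg]
    rw [sum_congr rfl this, sum_const, card_univ, ZMod.card, nsmul_eq_mul]
  rw [sum_congr rfl (fun t _ => by rw [h3 t]), sum_const, card_univ, ZMod.card, nsmul_eq_mul, h4,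
    h5] at h1
  have h6 : B * (b * (∑ d : ZMod B, U b d)) = B * (b * (B - b)) := by nlinarith
  have h7 := mul_left_cancel₀ hB'.ne' h6
  exact mul_left_cancel₀ hb'.ne' h7

theorem U_neg {b : ℕ} (j : ZMod B) : U b (-j) = U b j := by
  unfold U cab
  rcases eq_or_ne j 0 with h | h
  · rw [h, neg_zero]
  · have : NeZero j := ⟨h⟩
    rw [ZMod.val_neg_of_ne_zero j]
    have := ZMod.val_lt j
    congr 3
    omega

theorem sum_U' {b : ℕ} (hb : 0 < b) (h2 : 2 * b ≤ B) (j : ZMod B) :
    ∑ k : ZMod B, U b (j - k) = B - b := by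
  rw [← sum_U hb h2, ← sum_shift (fun d => U b d) (-j)]
  refine sum_congr rfl fun k _ => ?_
  rw [← U_neg, neg_sub, sub_eq_add_neg]

/-- the uniform profile attains the fluid value -/
theorem P_uniform {n b : ℕ} {ζ L s A K : ℝ} (h : Par n b ζ L s A K) (hB : B = n * b) :
    P b ζ (fun _ : ZMod B => L / B) = Pf L s := by
  have hn' := h.n_pos
  have hb' := h.b_pos
  have hB' : (B : ℝ) = n * b := by rw [hB]; push_cast; ring
  have hL0 : 0 < L := by have := h.hL; linarith
  have hζ := h.ζ_pos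
  have h2 : 2 * b ≤ B := by rw [hB]; exact Nat.mul_le_mul_right b (by have := h.hn; omega)
  have hBp : (0 : ℝ) < B := by rw [hB']; positivity
  unfold P Sn En
  have e1 : ∀ j ∈ (univ : Finset (ZMod B)), ∑ k : ZMod B, U b (j - k) * (L / B) * (L / B) =
      (B - b) * (L / B) * (L / B) := by
    intro j _
    rw [← sum_mul, ← sum_mul, sum_U' h.hb h2]
  rw [sum_congr rfl e1, sum_const, sum_const, card_univ, ZMod.card, nsmul_eq_mul, nsmul_eq_mul]
  unfold sg Pf
  have e2 : ζ / (L / B) = exp (s * L) := by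
    rw [div_div_eq_mul_div, div_eq_iff hL0.ne', hB']
    linear_combination h.hz
  rw [e2, Real.log_exp]
  have e3 : ((B : ℝ) - b) / B = s := by rw [h.hs, hB']; field_simp
  have e4 : (B : ℝ) * ((B - b) * (L / B) * (L / B)) = s * L ^ 2 := by
    rw [← e3]; field_simp
  rw [e4]
  field_simp
  ring

/-- stationarity of the uniform profile -/
theorem stat_uniform {n b : ℕ} {ζ L s A K : ℝ} (h : Par n b ζ L s A K) (hB : B = n * b)
    (j : ZMod B) : log (ζ / (L / B)) = ∑ k : ZMod B, U b (j - k) * (L / B) := by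
  have hn' := h.n_pos
  have hb' := h.b_pos
  have hB' : (B : ℝ) = n * b := by rw [hB]; push_cast; ring
  have hL0 : 0 < L := by have := h.hL; linarith
  have h2 : 2 * b ≤ B := by rw [hB]; exact Nat.mul_le_mul_right b (by have := h.hn; omega)
  have e2 : ζ / (L / B) = exp (s * L) := by
    rw [div_div_eq_mul_div, div_eq_iff hL0.ne', hB']
    linear_combination h.hz
  have e3 : ((B : ℝ) - b) / B = s := by rw [h.hs, hB']; field_simp
  rw [e2, Real.log_exp, ← sum_mul, sum_U' h.hb h2, ← e3]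
  ring

end Pool.Agent.Rg
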