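import Pool.Agent.Lib.MP_09cbbd_sw.Finn

/-!
# Finner's inequality with the energy of the cut pairs, for gases on cells with coarse contents
-/

set_option autoImplicit false

namespace Pool.Agent.Rg

open MeasureTheory Finset Pool.Agent.SquareWell

/-- A gas on cells with coarse contents. `E` are the contents of a cell, `cc x` is the coarse
content of `x`, and `none` stands for the crowded contents. The weight `g i l` of a pair of cells is
at most one, and for given uncrowded contents of the cells of `S` and given uncrowded coarse content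
of the cell `i` its mean is `exp (-∑ Φ)` up to a factor `K`. -/
structure Fr (Γ E C : Type) [DecidableEq Γ] [MeasurableSpace E] where
  π : Measure E
  e0 : E
  cc : E → Option C
  g : Γ → Γ → E → E → ENNReal
  nb : Γ → Finset Γ
  Φ : Γ → Γ → Option C → Option C → ℝ
  K : ENNReal
  η : ENNReal
  fin : IsFiniteMeasure π
  one_le_K : 1 ≤ K
  measurable_g : ∀ i l, Measurable fun p : E × E => g i l p.1 p.2
  measurable_cc : ∀ o, MeasurableSet (cc ⁻¹' {o})
  measurableSet_e0 : MeasurableSet ({e0} : Set E)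
  one_le_π : 1 ≤ π {e0}
  cc_e0 : cc e0 ≠ none
  g_le : ∀ i l x y, g i l x y ≤ 1
  g_symm : ∀ i l x y, g i l x y = g l i y x
  g_e0 : ∀ i l y, g i l e0 y = 1
  g_far : ∀ i l, l ∉ nb i → ∀ x y, g i l x y = 1
  nb_symm : ∀ i l, l ∈ nb i → i ∈ nb l
  nb_self : ∀ i, i ∉ nb i
  Φ_nonneg : ∀ i l a b, 0 ≤ Φ i l a b
  Φ_symm : ∀ i l a b, Φ i l a b = Φ l i b a
  Φ_none : ∀ i l b, Φ i l none b = 0
  A_up : ∀ (i : Γ) (c : C) (S : Finset Γ) (y : Γ → E), S ⊆ nb i → (∀ l ∈ S, cc (y l) ≠ none) →
    ∫⁻ x in cc ⁻¹' {some c}, ∏ l ∈ S, g i l x (y l) ∂π ≤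
      K * (π (cc ⁻¹' {some c}) * ex (-∑ l ∈ S, Φ i l (some c) (cc (y l))))
  A_lo : ∀ (i : Γ) (c : C) (S : Finset Γ) (y : Γ → E), S ⊆ nb i → (∀ l ∈ S, cc (y l) ≠ none) →
    π (cc ⁻¹' {some c}) * ex (-∑ l ∈ S, Φ i l (some c) (cc (y l))) ≤
      K * ∫⁻ x in cc ⁻¹' {some c}, ∏ l ∈ S, g i l x (y l) ∂π
  T_le : π (cc ⁻¹' {none}) ≤ η

namespace Fr

variable {Γ E C : Type} [DecidableEq Γ] [MeasurableSpace E] (M : Fr Γ E C)

instance : IsFiniteMeasure M.π := M.fin

theorem measurable_comp_cc [Countable C] {β : Type} [MeasurableSpace β] (F : Option C → β) :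
    Measurable fun x => F (M.cc x) := by
  intro s _
  have h : (fun x => F (M.cc x)) ⁻¹' s = ⋃ o ∈ {o : Option C | F o ∈ s}, M.cc ⁻¹' {o} := by
    ext x
    simp
  rw [h]
  exact MeasurableSet.biUnion (Set.to_countable _) fun o _ => M.measurable_cc o

/-- Sum over the coarse contents. -/
theorem lintegral_cc [Countable C] (F : E → ENNReal) :
    ∫⁻ x, F x ∂M.π = ∑' o : Option C, ∫⁻ x in M.cc ⁻¹' {o}, F x ∂M.π := by
  rw [← lintegral_iUnion M.measurable_cc]
  · have h : (⋃ o : Option C, M.cc ⁻¹' {o}) = Set.univ := by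
      ext x
      simp
    rw [h, Measure.restrict_univ]
  · intro a b hab
    refine Set.disjoint_left.2 fun x ha hb => hab ?_
    rw [Set.mem_preimage, Set.mem_singleton_iff] at ha hb
    rw [← ha, ← hb]

theorem lintegral_le_cc [Countable C] {F G : E → ENNReal} {k : ENNReal}
    (h : ∀ o, ∫⁻ x in M.cc ⁻¹' {o}, F x ∂M.π ≤ k * ∫⁻ x in M.cc ⁻¹' {o}, G x ∂M.π) :
    ∫⁻ x, F x ∂M.π ≤ k * ∫⁻ x, G x ∂M.π := by
  rw [M.lintegral_cc F, M.lintegral_cc G, ← ENNReal.tsum_mul_left]
  exact ENNReal.tsum_le_tsum h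

/-- Removal of the crowded contents of one cell. -/
theorem uncrowd {F : E → ENNReal} (h : ∀ x, F x ≤ F M.e0) :
    ∫⁻ x, F x ∂M.π ≤ (1 + M.η) * ∫⁻ x in (M.cc ⁻¹' {none})ᶜ, F x ∂M.π := by
  have h0 : F M.e0 ≤ ∫⁻ x in (M.cc ⁻¹' {none})ᶜ, F x ∂M.π := by
    calc F M.e0 = 1 * F M.e0 := (one_mul _).symm
      _ ≤ M.π {M.e0} * F M.e0 := mul_le_mul_left M.one_le_π _
      _ = ∫⁻ x in {M.e0}, F x ∂M.π := by
          rw [setLIntegral_congr_fun M.measurableSet_e0
            (g := fun _ => F M.e0) (fun x hx => by rw [Set.mem_singleton_iff.1 hx]),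
            setLIntegral_const, mul_comm]
      _ ≤ _ := by
          refine lintegral_mono_set ?_
          intro x hx
          rw [Set.mem_singleton_iff.1 hx]
          exact M.cc_e0
  rw [← lintegral_add_compl F (M.measurable_cc none), add_mul, one_mul, add_comm]
  refine add_le_add le_rfl ?_
  calc ∫⁻ x in M.cc ⁻¹' {none}, F x ∂M.π ≤ ∫⁻ _x in M.cc ⁻¹' {none}, F M.e0 ∂M.π :=
        lintegral_mono fun x => h x
    _ = F M.e0 * M.π (M.cc ⁻¹' {none}) := setLIntegral_const _ _
    _ ≤ (∫⁻ x in (M.cc ⁻¹' {none})ᶜ, F x ∂M.π) * M.η := mul_le_mul' h0 M.T_le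
    _ = _ := mul_comm _ _

/-! ### Marginals -/

section Lm

variable (π : Measure E)

theorem lm_const_mul (A : Finset Γ) {f : (Γ → E) → ENNReal} (hf : Measurable f) (k : ENNReal)
    (ω : Γ → E) : lmarginal (fun _ : Γ => π) A (fun ω => k * f ω) ω =
      k * lmarginal (fun _ : Γ => π) A f ω := by
  exact lintegral_const_mul k (hf.comp measurable_updateFinset)

variable [IsFiniteMeasure π]

theorem lm_le_of_mem {A : Finset Γ} {i : Γ} (hi : i ∈ A) {f f' : (Γ → E) → ENNReal}
    (hf : Measurable f) (hf' : Measurable f') {k : ENNReal}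
    (h : ∀ ω, ∫⁻ x, f (Function.update ω i x) ∂π ≤
      k * ∫⁻ x, f' (Function.update ω i x) ∂π) (ω : Γ → E) :
    lmarginal (fun _ : Γ => π) A f ω ≤ k * lmarginal (fun _ : Γ => π) A f' ω := by
  rw [← lm_const_mul π A hf' k ω]
  refine lmarginal_le_of_subset (singleton_subset_iff.2 hi) hf (hf'.const_mul k) ?_ ω
  rw [lmarginal_singleton, lmarginal_singleton]
  intro ω
  show ∫⁻ x, f (Function.update ω i x) ∂π ≤ ∫⁻ x, k * f' (Function.update ω i x) ∂π
  exact (h ω).trans (le_of_eq (lintegral_const_mul k (hf'.comp (measurable_update ω))).symm)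

end Lm

/-! ### Weights of sets of pairs -/

/-- Weight of a set of pairs of cells. -/
noncomputable def wt (P : Finset (Γ × Γ)) (ω : Γ → E) : ENNReal :=
  ∏ p ∈ P, M.g p.1 p.2 (ω p.1) (ω p.2)

/-- The pairs of `P` which do not touch `i`. -/
def off (P : Finset (Γ × Γ)) (i : Γ) : Finset (Γ × Γ) := P.filter fun p => p.1 ≠ i ∧ p.2 ≠ i

/-- The partners of `i` in `P`. -/
def oth (P : Finset (Γ × Γ)) (i : Γ) : Finset Γ :=
  (P.filter fun p => p.1 = i).image Prod.snd ∪ (P.filter fun p => p.2 = i).image Prod.fst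

theorem mem_oth {P : Finset (Γ × Γ)} {i l : Γ} : l ∈ oth P i ↔ (i, l) ∈ P ∨ (l, i) ∈ P := by
  unfold oth
  rw [mem_union, mem_image, mem_image]
  constructor
  · rintro (⟨⟨a, b⟩, h, rfl⟩ | ⟨⟨a, b⟩, h, rfl⟩) <;> rw [mem_filter] at h
    · left
      obtain ⟨h1, h2⟩ := h
      simp only at h2
      rw [← h2]
      exact h1
    · right
      obtain ⟨h1, h2⟩ := h
      simp only at h2
      rw [← h2]
      exact h1
  · rintro (h | h)
    · exact Or.inl ⟨(i, l), mem_filter.2 ⟨h, rfl⟩, rfl⟩
    · exact Or.inr ⟨(l, i), mem_filter.2 ⟨h, rfl⟩, rfl⟩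

theorem measurable_wt (P : Finset (Γ × Γ)) : Measurable (M.wt P) := by
  unfold wt
  refine Finset.measurable_prod _ fun p _ => ?_
  have h : Measurable fun ω : Γ → E => (ω p.1, ω p.2) :=
    (measurable_pi_apply p.1).prodMk (measurable_pi_apply p.2)
  exact (M.measurable_g p.1 p.2).comp h

theorem wt_le_one (P : Finset (Γ × Γ)) (ω : Γ → E) : M.wt P ω ≤ 1 :=
  Finset.prod_le_one' fun _ _ => M.g_le _ _ _ _

/-- The pairs of `P` are increasing for an injective rank `r`. -/
def Inc (r : Γ → ℕ) (P : Finset (Γ × Γ)) : Prop := ∀ p ∈ P, r p.1 < r p.2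

theorem wt_split {r : Γ → ℕ} {P : Finset (Γ × Γ)} (hP : Inc r P) (i : Γ) (ω : Γ → E) :
    M.wt P ω = M.wt (off P i) ω * ∏ l ∈ oth P i, M.g i l (ω i) (ω l) := by
  unfold wt off
  rw [← prod_filter_mul_prod_filter_not P (fun p => p.1 ≠ i ∧ p.2 ≠ i)]
  congr 1
  have h1 : P.filter (fun p => ¬ (p.1 ≠ i ∧ p.2 ≠ i)) =
      P.filter (fun p => p.1 = i) ∪ P.filter (fun p => p.2 = i) := by
    ext p
    simp only [mem_filter, mem_union]
    tauto
  rw [h1, prod_union]
  · unfold oth
    rw [prod_union]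
    · congr 1
      · rw [prod_image]
        · refine prod_congr rfl fun p hp => ?_
          rw [(mem_filter.1 hp).2]
        · rintro ⟨a, b⟩ ha ⟨a', b'⟩ hb hab
          have h2 := (mem_filter.1 ha).2
          have h3 := (mem_filter.1 hb).2
          simp only at h2 h3 hab
          rw [h2, h3, hab]
      · rw [prod_image]
        · refine prod_congr rfl fun p hp => ?_
          rw [M.g_symm, (mem_filter.1 hp).2]
        · rintro ⟨a, b⟩ ha ⟨a', b'⟩ hb hab
          have h2 := (mem_filter.1 ha).2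
          have h3 := (mem_filter.1 hb).2
          simp only at h2 h3 hab
          rw [h2, h3, hab]
    · rw [disjoint_left]
      intro l h2 h3
      rw [mem_image] at h2 h3
      obtain ⟨⟨a, b⟩, h4, rfl⟩ := h2
      obtain ⟨⟨a', b'⟩, h5, h6⟩ := h3
      rw [mem_filter] at h4 h5
      have h7 := hP _ h4.1
      have h8 := hP _ h5.1
      obtain ⟨h4, h9⟩ := h4
      obtain ⟨h5, h10⟩ := h5
      simp only at h6 h7 h8 h9 h10
      rw [h9] at h7
      rw [h10, h6] at h8
      omega
  · rw [disjoint_left]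
    intro p h2 h3
    rw [mem_filter] at h2 h3
    have h4 := hP _ h2.1
    rw [h2.2, h3.2] at h4
    exact lt_irrefl _ h4

/-! ### Comparison of one pair weight with its mean -/

/-- On a class of contents a coarse factor is constant. -/
theorem cls_const (c : C) {b : E → ENNReal} (hb : ∀ x x', M.cc x = M.cc x' → b x = b x') :
    ∃ b0 : ENNReal, ∀ F : E → ENNReal, Measurable F →
      ∫⁻ x in M.cc ⁻¹' {some c}, b x * F x ∂M.π = b0 * ∫⁻ x in M.cc ⁻¹' {some c}, F x ∂M.π := by
  have h : ∃ b0 : ENNReal, ∀ x ∈ M.cc ⁻¹' {some c}, b x = b0 := by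
    by_cases h1 : ∃ x0, M.cc x0 = some c
    · obtain ⟨x0, hx0⟩ := h1
      exact ⟨b x0, fun x hx => hb _ _ (hx.trans hx0.symm)⟩
    · exact ⟨0, fun x hx => (h1 ⟨x, hx⟩).elim⟩
  obtain ⟨b0, h0⟩ := h
  refine ⟨b0, fun F hF => ?_⟩
  rw [← lintegral_const_mul b0 hF]
  exact setLIntegral_congr_fun (M.measurable_cc _) fun x hx => by
    show b x * F x = b0 * F x
    rw [h0 x hx]

theorem measurable_prodg (i : Γ) (S : Finset Γ) (y : Γ → E) :
    Measurable fun x => ∏ l ∈ S, M.g i l x (y l) := by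
  refine Finset.measurable_prod _ fun l _ => ?_
  exact (M.measurable_g i l).comp (measurable_id.prodMk measurable_const)

theorem class_up (i : Γ) (c : C) {j : Γ} {S : Finset Γ} (hj : j ∈ M.nb i) (hS : S ⊆ M.nb i)
    (hjS : j ∉ S) {y : Γ → E} (h1 : M.cc (y j) ≠ none) (h2 : ∀ l ∈ S, M.cc (y l) ≠ none) :
    ∫⁻ x in M.cc ⁻¹' {some c}, M.g i j x (y j) * ∏ l ∈ S, M.g i l x (y l) ∂M.π ≤
      M.K ^ 2 * (ex (-M.Φ i j (some c) (M.cc (y j))) *
        ∫⁻ x in M.cc ⁻¹' {some c}, ∏ l ∈ S, M.g i l x (y l) ∂M.π) := by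
  have h3 : ∀ l ∈ insert j S, M.cc (y l) ≠ none := by
    intro l hl
    rcases mem_insert.1 hl with rfl | hl
    · exact h1
    · exact h2 l hl
  have h4 := M.A_up i c (insert j S) y (insert_subset hj hS) h3
  have h5 := M.A_lo i c S y hS h2
  simp only [prod_insert hjS, sum_insert hjS] at h4
  refine h4.trans ?_
  have h6 : ex (-(M.Φ i j (some c) (M.cc (y j)) + ∑ l ∈ S, M.Φ i l (some c) (M.cc (y l)))) =
      ex (-M.Φ i j (some c) (M.cc (y j))) * ex (-∑ l ∈ S, M.Φ i l (some c) (M.cc (y l))) := by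
    rw [← ex_add]
    congr 1
    ring
  rw [h6]
  calc M.K * (M.π (M.cc ⁻¹' {some c}) * (ex (-M.Φ i j (some c) (M.cc (y j))) *
        ex (-∑ l ∈ S, M.Φ i l (some c) (M.cc (y l)))))
      = M.K * (ex (-M.Φ i j (some c) (M.cc (y j))) * (M.π (M.cc ⁻¹' {some c}) *
        ex (-∑ l ∈ S, M.Φ i l (some c) (M.cc (y l))))) := by ring
    _ ≤ M.K * (ex (-M.Φ i j (some c) (M.cc (y j))) * (M.K *
        ∫⁻ x in M.cc ⁻¹' {some c}, ∏ l ∈ S, M.g i l x (y l) ∂M.π)) := by gcongr
    _ = _ := by ring

theorem class_lo (i : Γ) (c : C) {j : Γ} {S : Finset Γ} (hj : j ∈ M.nb i) (hS : S ⊆ M.nb i)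
    (hjS : j ∉ S) {y : Γ → E} (h1 : M.cc (y j) ≠ none) (h2 : ∀ l ∈ S, M.cc (y l) ≠ none) :
    ex (-M.Φ i j (some c) (M.cc (y j))) *
        ∫⁻ x in M.cc ⁻¹' {some c}, ∏ l ∈ S, M.g i l x (y l) ∂M.π ≤
      M.K ^ 2 * ∫⁻ x in M.cc ⁻¹' {some c}, M.g i j x (y j) * ∏ l ∈ S, M.g i l x (y l) ∂M.π := by
  have h3 : ∀ l ∈ insert j S, M.cc (y l) ≠ none := by
    intro l hl
    rcases mem_insert.1 hl with rfl | hl
    · exact h1
    · exact h2 l hl
  have h4 := M.A_lo i c (insert j S) y (insert_subset hj hS) h3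
  have h5 := M.A_up i c S y hS h2
  simp only [prod_insert hjS, sum_insert hjS] at h4
  have h6 : ex (-(M.Φ i j (some c) (M.cc (y j)) + ∑ l ∈ S, M.Φ i l (some c) (M.cc (y l)))) =
      ex (-M.Φ i j (some c) (M.cc (y j))) * ex (-∑ l ∈ S, M.Φ i l (some c) (M.cc (y l))) := by
    rw [← ex_add]
    congr 1
    ring
  rw [h6] at h4
  calc ex (-M.Φ i j (some c) (M.cc (y j))) *
        ∫⁻ x in M.cc ⁻¹' {some c}, ∏ l ∈ S, M.g i l x (y l) ∂M.π
      ≤ ex (-M.Φ i j (some c) (M.cc (y j))) * (M.K * (M.π (M.cc ⁻¹' {some c}) *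
        ex (-∑ l ∈ S, M.Φ i l (some c) (M.cc (y l))))) := by gcongr
    _ = M.K * (M.π (M.cc ⁻¹' {some c}) * (ex (-M.Φ i j (some c) (M.cc (y j))) *
        ex (-∑ l ∈ S, M.Φ i l (some c) (M.cc (y l))))) := by ring
    _ ≤ M.K * (M.K * ∫⁻ x in M.cc ⁻¹' {some c}, M.g i j x (y j) *
        ∏ l ∈ S, M.g i l x (y l) ∂M.π) := by gcongr
    _ = _ := by ring

theorem cmp_up [Countable C] (i : Γ) {j : Γ} {S : Finset Γ} (hj : j ∈ M.nb i) (hS : S ⊆ M.nb i)
    (hjS : j ∉ S) {y : Γ → E} (h1 : M.cc (y j) ≠ none) (h2 : ∀ l ∈ S, M.cc (y l) ≠ none)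
    {b : E → ENNReal} (hb : ∀ x x', M.cc x = M.cc x' → b x = b x')
    (hb0 : ∀ x, M.cc x = none → b x = 0) :
    ∫⁻ x, b x * (M.g i j x (y j) * ∏ l ∈ S, M.g i l x (y l)) ∂M.π ≤
      M.K ^ 2 * ∫⁻ x, b x * (ex (-M.Φ i j (M.cc x) (M.cc (y j))) *
        ∏ l ∈ S, M.g i l x (y l)) ∂M.π := by
  have hgm : Measurable fun x => M.g i j x (y j) :=
    (M.measurable_g i j).comp (measurable_id.prodMk measurable_const)
  refine M.lintegral_le_cc fun o => ?_
  rcases o with _ | c
  · have h3 : ∫⁻ x in M.cc ⁻¹' {none}, b x * (M.g i j x (y j) *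
        ∏ l ∈ S, M.g i l x (y l)) ∂M.π = 0 := by
      rw [setLIntegral_congr_fun (g := fun _ => 0) (M.measurable_cc none)
        (fun x hx => by
          show b x * _ = 0
          rw [hb0 x hx, zero_mul])]
      simp
    rw [h3]
    exact zero_le
  · obtain ⟨b0, h0⟩ := M.cls_const c hb
    have hgm2 : Measurable fun x => M.g i j x (y j) * ∏ l ∈ S, M.g i l x (y l) :=
      hgm.mul (M.measurable_prodg i S y)
    rw [h0 _ hgm2]
    have h3 : ∫⁻ x in M.cc ⁻¹' {some c}, b x * (ex (-M.Φ i j (M.cc x) (M.cc (y j))) *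
        ∏ l ∈ S, M.g i l x (y l)) ∂M.π = b0 * (ex (-M.Φ i j (some c) (M.cc (y j))) *
        ∫⁻ x in M.cc ⁻¹' {some c}, ∏ l ∈ S, M.g i l x (y l) ∂M.π) := by
      rw [← lintegral_const_mul _ (M.measurable_prodg i S y), ← h0 _
        ((M.measurable_prodg i S y).const_mul _)]
      refine setLIntegral_congr_fun (M.measurable_cc _) fun x hx => ?_
      have hx' : M.cc x = some c := hx
      show b x * (ex (-M.Φ i j (M.cc x) (M.cc (y j))) * _) = _
      rw [hx']
    rw [h3]
    calc b0 * ∫⁻ x in M.cc ⁻¹' {some c}, M.g i j x (y j) * ∏ l ∈ S, M.g i l x (y l) ∂M.π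
        ≤ b0 * (M.K ^ 2 * (ex (-M.Φ i j (some c) (M.cc (y j))) *
        ∫⁻ x in M.cc ⁻¹' {some c}, ∏ l ∈ S, M.g i l x (y l) ∂M.π)) :=
          mul_le_mul_right (M.class_up i c hj hS hjS h1 h2) _
      _ = _ := by ring

theorem cmp_lo [Countable C] (i : Γ) {j : Γ} {S : Finset Γ} (hj : j ∈ M.nb i) (hS : S ⊆ M.nb i)
    (hjS : j ∉ S) {y : Γ → E} (h1 : M.cc (y j) ≠ none) (h2 : ∀ l ∈ S, M.cc (y l) ≠ none)
    {b : E → ENNReal} (hb : ∀ x x', M.cc x = M.cc x' → b x = b x')
    (hb0 : ∀ x, M.cc x = none → b x = 0) :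
    ∫⁻ x, b x * (ex (-M.Φ i j (M.cc x) (M.cc (y j))) * ∏ l ∈ S, M.g i l x (y l)) ∂M.π ≤
      M.K ^ 2 * ∫⁻ x, b x * (M.g i j x (y j) * ∏ l ∈ S, M.g i l x (y l)) ∂M.π := by
  have hgm : Measurable fun x => M.g i j x (y j) :=
    (M.measurable_g i j).comp (measurable_id.prodMk measurable_const)
  refine M.lintegral_le_cc fun o => ?_
  rcases o with _ | c
  · have h3 : ∫⁻ x in M.cc ⁻¹' {none}, b x * (ex (-M.Φ i j (M.cc x) (M.cc (y j))) *
        ∏ l ∈ S, M.g i l x (y l)) ∂M.π = 0 := by
      rw [setLIntegral_congr_fun (g := fun _ => 0) (M.measurable_cc none)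
        (fun x hx => by
          show b x * _ = 0
          rw [hb0 x hx, zero_mul])]
      simp
    rw [h3]
    exact zero_le
  · obtain ⟨b0, h0⟩ := M.cls_const c hb
    have hgm2 : Measurable fun x => M.g i j x (y j) * ∏ l ∈ S, M.g i l x (y l) :=
      hgm.mul (M.measurable_prodg i S y)
    rw [h0 _ hgm2]
    have h3 : ∫⁻ x in M.cc ⁻¹' {some c}, b x * (ex (-M.Φ i j (M.cc x) (M.cc (y j))) *
        ∏ l ∈ S, M.g i l x (y l)) ∂M.π = b0 * (ex (-M.Φ i j (some c) (M.cc (y j))) *
        ∫⁻ x in M.cc ⁻¹' {some c}, ∏ l ∈ S, M.g i l x (y l) ∂M.π) := by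
      rw [← lintegral_const_mul _ (M.measurable_prodg i S y), ← h0 _
        ((M.measurable_prodg i S y).const_mul _)]
      refine setLIntegral_congr_fun (M.measurable_cc _) fun x hx => ?_
      have hx' : M.cc x = some c := hx
      show b x * (ex (-M.Φ i j (M.cc x) (M.cc (y j))) * _) = _
      rw [hx']
    rw [h3]
    calc b0 * (ex (-M.Φ i j (some c) (M.cc (y j))) *
        ∫⁻ x in M.cc ⁻¹' {some c}, ∏ l ∈ S, M.g i l x (y l) ∂M.π)
        ≤ b0 * (M.K ^ 2 * ∫⁻ x in M.cc ⁻¹' {some c}, M.g i j x (y j) *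
          ∏ l ∈ S, M.g i l x (y l) ∂M.π) :=
          mul_le_mul_right (M.class_lo i c hj hS hjS h1 h2) _
      _ = _ := by ring

/-! ### Replacing pair weights by their means -/

/-- The pairs of `P` which are not of the form `{i, j}`, `i ∈ R`. -/
def cutp (P : Finset (Γ × Γ)) (j : Γ) (R : Finset Γ) : Finset (Γ × Γ) :=
  P.filter fun p => ¬ ((p.1 = j ∧ p.2 ∈ R) ∨ (p.2 = j ∧ p.1 ∈ R))

theorem cutp_empty (P : Finset (Γ × Γ)) (j : Γ) : cutp P j ∅ = P := by
  unfold cutp
  rw [filter_true_of_mem]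
  intro p _
  simp

theorem cutp_subset (P : Finset (Γ × Γ)) (j : Γ) (R : Finset Γ) : cutp P j R ⊆ P :=
  filter_subset _ _

omit [DecidableEq Γ] in
theorem Inc.mono {r : Γ → ℕ} {P P' : Finset (Γ × Γ)} (h : Inc r P) (h' : P' ⊆ P) : Inc r P' :=
  fun p hp => h p (h' hp)

theorem Inc.ne_of_mem_oth {r : Γ → ℕ} {P : Finset (Γ × Γ)} (h : Inc r P) {i l : Γ}
    (hl : l ∈ oth P i) : l ≠ i := by
  rintro rfl
  rcases mem_oth.1 hl with h1 | h1 <;> exact lt_irrefl _ (h _ h1)

theorem off_cutp {P : Finset (Γ × Γ)} {i j : Γ} {R : Finset Γ} :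
    off (cutp P j (insert i R)) i = off (cutp P j R) i := by
  ext p
  unfold off cutp
  simp only [mem_filter, mem_insert]
  tauto

theorem oth_cutp {P : Finset (Γ × Γ)} {i j : Γ} {R : Finset Γ} (hij : i ≠ j) :
    oth (cutp P j (insert i R)) i = (oth (cutp P j R) i).erase j := by
  ext l
  rw [mem_erase, mem_oth, mem_oth]
  unfold cutp
  simp only [mem_filter, mem_insert]
  by_cases hl : l = j
  · subst hl
    tauto
  · constructor
    · rintro (⟨h1, h2⟩ | ⟨h1, h2⟩)
      · refine ⟨hl, Or.inl ⟨h1, ?_⟩⟩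
        tauto
      · refine ⟨hl, Or.inr ⟨h1, ?_⟩⟩
        tauto
    · rintro ⟨-, (⟨h1, h2⟩ | ⟨h1, h2⟩)⟩
      · refine Or.inl ⟨h1, ?_⟩
        rintro (⟨h3, -⟩ | ⟨h3, -⟩)
        · exact hij h3
        · exact hl h3
      · refine Or.inr ⟨h1, ?_⟩
        rintro (⟨h3, -⟩ | ⟨h3, -⟩)
        · exact hl h3
        · exact hij h3

theorem mem_oth_cutp {P : Finset (Γ × Γ)} {i j : Γ} {R : Finset Γ} (hi : i ∉ R) (hjR : j ∉ R)
    (h : j ∈ oth P i) : j ∈ oth (cutp P j R) i := by
  rw [mem_oth] at h ⊢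
  unfold cutp
  simp only [mem_filter]
  rcases h with h | h
  · refine Or.inl ⟨h, ?_⟩
    tauto
  · refine Or.inr ⟨h, ?_⟩
    tauto

theorem wt_off_update (P : Finset (Γ × Γ)) (i : Γ) (ω : Γ → E) (x : E) :
    M.wt (off P i) (Function.update ω i x) = M.wt (off P i) ω := by
  unfold wt off
  refine prod_congr rfl fun p hp => ?_
  have h := (mem_filter.1 hp).2
  rw [Function.update_of_ne h.1, Function.update_of_ne h.2]

/-- The integrand in the telescoping. -/
noncomputable def tel (Y : (Γ → E) → ENNReal) (P : Finset (Γ × Γ)) (j : Γ) (R : Finset Γ)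
    (ω : Γ → E) : ENNReal :=
  Y ω * (∏ i ∈ R, ex (-M.Φ i j (M.cc (ω i)) (M.cc (ω j)))) * M.wt (cutp P j R) ω

theorem tel_empty (Y : (Γ → E) → ENNReal) (P : Finset (Γ × Γ)) (j : Γ) (ω : Γ → E) :
    M.tel Y P j ∅ ω = Y ω * M.wt P ω := by
  unfold tel
  rw [cutp_empty, prod_empty, mul_one]

theorem measurable_Φ [Countable C] (i j : Γ) :
    Measurable fun ω : Γ → E => ex (-M.Φ i j (M.cc (ω i)) (M.cc (ω j))) := by
  have h1 : Measurable fun p : E × E => ex (-M.Φ i j (M.cc p.1) (M.cc p.2)) := by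
    have h2 : Measurable fun p : E × E => M.Φ i j (M.cc p.1) (M.cc p.2) := by
      intro s _
      have h3 : (fun p : E × E => M.Φ i j (M.cc p.1) (M.cc p.2)) ⁻¹' s =
          ⋃ o ∈ {o : Option C × Option C | M.Φ i j o.1 o.2 ∈ s},
            (M.cc ⁻¹' {o.1}) ×ˢ (M.cc ⁻¹' {o.2}) := by
        ext p
        simp only [Set.mem_preimage, Set.mem_ofPred_eq, Set.mem_iUnion, Set.mem_prod,
          Set.mem_singleton_iff, exists_prop, Prod.exists]
        constructor
        · intro h
          exact ⟨_, _, h, rfl, rfl⟩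
        · rintro ⟨a, b, h, h4, h5⟩
          rw [h4, h5]
          exact h
      rw [h3]
      exact MeasurableSet.biUnion (Set.to_countable _) fun o _ =>
        (M.measurable_cc _).prod (M.measurable_cc _)
    exact (Real.measurable_exp.comp h2.neg).ennreal_ofReal
  have h3 : Measurable fun ω : Γ → E => (ω i, ω j) :=
    (measurable_pi_apply i).prodMk (measurable_pi_apply j)
  exact h1.comp h3

theorem measurable_tel [Countable C] {Y : (Γ → E) → ENNReal} (hY : Measurable Y)
    (P : Finset (Γ × Γ)) (j : Γ) (R : Finset Γ) : Measurable (M.tel Y P j R) := by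
  unfold tel
  exact (hY.mul (Finset.measurable_prod _ fun i _ => M.measurable_Φ i j)).mul
    (M.measurable_wt _)

/-- Coarse functions. -/
def Coarse (Y : (Γ → E) → ENNReal) : Prop :=
  ∀ ω ω' : Γ → E, (∀ i, M.cc (ω i) = M.cc (ω' i)) → Y ω = Y ω'

theorem Coarse.update {Y : (Γ → E) → ENNReal} (hY : M.Coarse Y) (ω : Γ → E) (i : Γ) {x x' : E}
    (h : M.cc x = M.cc x') : Y (Function.update ω i x) = Y (Function.update ω i x') := by
  refine hY _ _ fun l => ?_
  by_cases hl : l = i
  · subst hl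
    rw [Function.update_self, Function.update_self, h]
  · rw [Function.update_of_ne hl, Function.update_of_ne hl]

/-- The two sides of one step of the telescoping. -/
theorem tel_step {r : Γ → ℕ} {P : Finset (Γ × Γ)} (hP : Inc r P)
    {Y : (Γ → E) → ENNReal} {i j : Γ} {R : Finset Γ} (hi : i ∉ R)
    (hij : i ≠ j) (hjR : j ∉ R) (hj : j ∈ oth P i) (ω : Γ → E) (x : E) :
    M.tel Y P j R (Function.update ω i x) =
      (Y (Function.update ω i x) * (∏ l ∈ R, ex (-M.Φ l j (M.cc (ω l)) (M.cc (ω j)))) *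
        M.wt (off (cutp P j R) i) ω) * (M.g i j x (ω j) *
        ∏ l ∈ (oth (cutp P j R) i).erase j, M.g i l x (ω l)) ∧
    M.tel Y P j (insert i R) (Function.update ω i x) =
      (Y (Function.update ω i x) * (∏ l ∈ R, ex (-M.Φ l j (M.cc (ω l)) (M.cc (ω j)))) *
        M.wt (off (cutp P j R) i) ω) * (ex (-M.Φ i j (M.cc x) (M.cc (ω j))) *
        ∏ l ∈ (oth (cutp P j R) i).erase j, M.g i l x (ω l)) := by
  have hinc : Inc r (cutp P j R) := hP.mono (cutp_subset _ _ _)
  have hinc' : Inc r (cutp P j (insert i R)) := hP.mono (cutp_subset _ _ _)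
  have hj' := mem_oth_cutp hi hjR hj
  have h1 : ∏ l ∈ R, ex (-M.Φ l j (M.cc (Function.update ω i x l))
      (M.cc (Function.update ω i x j))) = ∏ l ∈ R, ex (-M.Φ l j (M.cc (ω l)) (M.cc (ω j))) := by
    refine prod_congr rfl fun l hl => ?_
    rw [Function.update_of_ne hij.symm, Function.update_of_ne]
    rintro rfl
    exact hi hl
  have h2 : ∀ S : Finset Γ, (∀ l ∈ S, l ≠ i) → ∏ l ∈ S, M.g i l (Function.update ω i x i)
      (Function.update ω i x l) = ∏ l ∈ S, M.g i l x (ω l) := by
    intro S hS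
    refine prod_congr rfl fun l hl => ?_
    rw [Function.update_self, Function.update_of_ne (hS l hl)]
  constructor
  · unfold tel
    rw [h1, M.wt_split hinc i, M.wt_off_update, h2 _ fun l hl => hinc.ne_of_mem_oth hl,
      ← mul_prod_erase _ _ hj']
    ring
  · unfold tel
    rw [prod_insert hi, h1, M.wt_split hinc' i, off_cutp, M.wt_off_update,
      h2 _ fun l hl => hinc'.ne_of_mem_oth hl, oth_cutp hij, Function.update_self,
      Function.update_of_ne hij.symm]
    ring

theorem tel_up_lo [Countable C] {r : Γ → ℕ} {P : Finset (Γ × Γ)} (hP : Inc r P)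
    (hPnb : ∀ p ∈ P, p.2 ∈ M.nb p.1) {Y : (Γ → E) → ENNReal} (hY : Measurable Y)
    (hYc : M.Coarse Y) {A : Finset Γ} {j : Γ} (hjA : j ∉ A) {R : Finset Γ} (hRA : R ⊆ A)
    (hRj : ∀ i ∈ R, j ∈ oth P i)
    (hY0 : ∀ ω, Y ω ≠ 0 → ∀ i ∈ R, M.cc (ω i) ≠ none ∧ ∀ l ∈ oth P i, M.cc (ω l) ≠ none)
    (ω : Γ → E) :
    lmarginal (fun _ : Γ => M.π) A (M.tel Y P j ∅) ω ≤
      M.K ^ (2 * R.card) * lmarginal (fun _ : Γ => M.π) A (M.tel Y P j R) ω ∧
    lmarginal (fun _ : Γ => M.π) A (M.tel Y P j R) ω ≤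
      M.K ^ (2 * R.card) * lmarginal (fun _ : Γ => M.π) A (M.tel Y P j ∅) ω := by
  induction R using Finset.induction_on with
  | empty => simp
  | insert i R hi ih =>
    obtain ⟨ih1, ih2⟩ := ih ((subset_insert _ _).trans hRA)
      (fun l hl => hRj l (mem_insert_of_mem hl))
      (fun ω hω l hl => hY0 ω hω l (mem_insert_of_mem hl))
    have hiA : i ∈ A := hRA (mem_insert_self _ _)
    have hij : i ≠ j := by
      rintro rfl
      exact hjA hiA
    have hjR : j ∉ R := fun h => hjA (hRA (mem_insert_of_mem h))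
    have hj := hRj i (mem_insert_self _ _)
    have hsub : oth (cutp P j R) i ⊆ oth P i := by
      intro l hl
      rw [mem_oth] at hl ⊢
      exact hl.imp (fun h => cutp_subset _ _ _ h) (fun h => cutp_subset _ _ _ h)
    have hnb : oth P i ⊆ M.nb i := by
      intro l hl
      rcases mem_oth.1 hl with h | h
      · exact hPnb _ h
      · exact M.nb_symm _ _ (hPnb _ h)
    have hb : ∀ ω : Γ → E, ∀ x x', M.cc x = M.cc x' →
        (Y (Function.update ω i x) * (∏ l ∈ R, ex (-M.Φ l j (M.cc (ω l)) (M.cc (ω j)))) *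
          M.wt (off (cutp P j R) i) ω) =
        (Y (Function.update ω i x') * (∏ l ∈ R, ex (-M.Φ l j (M.cc (ω l)) (M.cc (ω j)))) *
          M.wt (off (cutp P j R) i) ω) := by
      intro ω x x' h
      rw [hYc.update M ω i h]
    have hcard : (insert i R).card = R.card + 1 := card_insert_of_notMem hi
    · constructor
      · refine ih1.trans ?_
        have h1 : lmarginal (fun _ : Γ => M.π) A (M.tel Y P j R) ω ≤
            M.K ^ 2 * lmarginal (fun _ : Γ => M.π) A (M.tel Y P j (insert i R)) ω := by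
          refine lm_le_of_mem M.π hiA (M.measurable_tel hY _ _ _) (M.measurable_tel hY _ _ _)
            (fun ω => ?_) ω
          simp only [(M.tel_step hP hi hij hjR hj ω _).1, (M.tel_step hP hi hij hjR hj ω _).2]
          by_cases h2 : M.cc (ω j) ≠ none ∧ ∀ l ∈ oth P i, M.cc (ω l) ≠ none
          · refine M.cmp_up i (hnb hj) ?_ (notMem_erase _ _) h2.1 ?_ (hb ω) ?_
            · exact (erase_subset _ _).trans (hsub.trans hnb)
            · exact fun l hl => h2.2 l (hsub (mem_of_mem_erase hl))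
            · intro x hx
              have h3 : Y (Function.update ω i x) = 0 := by
                by_contra h3
                have h4 := (hY0 _ h3 i (mem_insert_self _ _)).1
                rw [Function.update_self] at h4
                exact h4 hx
              rw [h3]
              simp
          · have h3 : ∀ x, Y (Function.update ω i x) = 0 := by
              intro x
              by_contra h3
              refine h2 ?_
              have h4 := (hY0 _ h3 i (mem_insert_self _ _)).2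
              have h5 : ∀ l ∈ oth P i, M.cc (ω l) ≠ none := by
                intro l hl
                have h6 := h4 l hl
                rwa [Function.update_of_ne (hP.ne_of_mem_oth hl)] at h6
              exact ⟨h5 j hj, h5⟩
            simp only [h3, zero_mul, lintegral_zero]
            exact zero_le
        calc M.K ^ (2 * R.card) * lmarginal (fun _ : Γ => M.π) A (M.tel Y P j R) ω
            ≤ M.K ^ (2 * R.card) * (M.K ^ 2 *
              lmarginal (fun _ : Γ => M.π) A (M.tel Y P j (insert i R)) ω) :=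
              mul_le_mul_right h1 _
          _ = _ := by
              rw [hcard, ← mul_assoc, ← pow_add]
              congr 2
      · have h1 : lmarginal (fun _ : Γ => M.π) A (M.tel Y P j (insert i R)) ω ≤
            M.K ^ 2 * lmarginal (fun _ : Γ => M.π) A (M.tel Y P j R) ω := by
          refine lm_le_of_mem M.π hiA (M.measurable_tel hY _ _ _) (M.measurable_tel hY _ _ _)
            (fun ω => ?_) ω
          simp only [(M.tel_step hP hi hij hjR hj ω _).1, (M.tel_step hP hi hij hjR hj ω _).2]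
          by_cases h2 : M.cc (ω j) ≠ none ∧ ∀ l ∈ oth P i, M.cc (ω l) ≠ none
          · refine M.cmp_lo i (hnb hj) ?_ (notMem_erase _ _) h2.1 ?_ (hb ω) ?_
            · exact (erase_subset _ _).trans (hsub.trans hnb)
            · exact fun l hl => h2.2 l (hsub (mem_of_mem_erase hl))
            · intro x hx
              have h3 : Y (Function.update ω i x) = 0 := by
                by_contra h3
                have h4 := (hY0 _ h3 i (mem_insert_self _ _)).1
                rw [Function.update_self] at h4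
                exact h4 hx
              rw [h3]
              simp
          · have h3 : ∀ x, Y (Function.update ω i x) = 0 := by
              intro x
              by_contra h3
              refine h2 ?_
              have h4 := (hY0 _ h3 i (mem_insert_self _ _)).2
              have h5 : ∀ l ∈ oth P i, M.cc (ω l) ≠ none := by
                intro l hl
                have h6 := h4 l hl
                rwa [Function.update_of_ne (hP.ne_of_mem_oth hl)] at h6
              exact ⟨h5 j hj, h5⟩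
            simp only [h3, zero_mul, lintegral_zero]
            exact zero_le
        refine h1.trans ?_
        calc M.K ^ 2 * lmarginal (fun _ : Γ => M.π) A (M.tel Y P j R) ω
            ≤ M.K ^ 2 * (M.K ^ (2 * R.card) *
              lmarginal (fun _ : Γ => M.π) A (M.tel Y P j ∅) ω) := mul_le_mul_right ih2 _
          _ = _ := by
              rw [hcard, ← mul_assoc, ← pow_add]
              congr 2
              ring

/-! ### Crowded contents -/

/-- Indicator of the configurations whose content in `i` is not crowded. -/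
noncomputable def un (i : Γ) (ω : Γ → E) : ENNReal := by
  classical exact if M.cc (ω i) = none then 0 else 1

theorem measurable_un [Countable C] (i : Γ) : Measurable (M.un i) := by
  classical
  have h := M.measurable_comp_cc (fun o => if o = none then (0 : ENNReal) else 1)
  exact h.comp (measurable_pi_apply i)

theorem un_le_one (i : Γ) (ω : Γ → E) : M.un i ω ≤ 1 := by
  classical
  unfold un
  split_ifs <;> simp

theorem un_ne_zero {i : Γ} {ω : Γ → E} (h : M.un i ω ≠ 0) : M.cc (ω i) ≠ none := by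
  classical
  intro h1
  refine h ?_
  unfold un
  rw [if_pos h1]

theorem un_eq_one {i : Γ} {ω : Γ → E} (h : M.cc (ω i) ≠ none) : M.un i ω = 1 := by
  classical
  unfold un
  rw [if_neg h]

theorem un_update_of_ne {i l : Γ} (h : l ≠ i) (ω : Γ → E) (x : E) :
    M.un l (Function.update ω i x) = M.un l ω := by
  unfold un
  rw [Function.update_of_ne h]

/-- Functions which do not decrease when the cell `i` is emptied. -/
def MonoAt (F : (Γ → E) → ENNReal) (i : Γ) : Prop :=
  ∀ ω : Γ → E, F ω ≤ F (Function.update ω i M.e0)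

theorem wt_mono (P : Finset (Γ × Γ)) (i : Γ) : M.MonoAt (M.wt P) i := by
  intro ω
  unfold wt
  refine prod_le_prod' fun p _ => ?_
  by_cases h1 : p.1 = i
  · rw [h1, Function.update_self, M.g_e0]
    exact M.g_le _ _ _ _
  · by_cases h2 : p.2 = i
    · rw [h2, Function.update_self, M.g_symm p.1 i _ M.e0, M.g_e0]
      exact M.g_le _ _ _ _
    · rw [Function.update_of_ne h1, Function.update_of_ne h2]

theorem decrowd [Countable C] {F : (Γ → E) → ENNReal} (hF : Measurable F) {A N : Finset Γ}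
    (hN : N ⊆ A) (hmono : ∀ i ∈ N, M.MonoAt F i) (ω : Γ → E) :
    lmarginal (fun _ : Γ => M.π) A F ω ≤ (1 + M.η) ^ N.card *
      lmarginal (fun _ : Γ => M.π) A (fun ω => (∏ i ∈ N, M.un i ω) * F ω) ω := by
  induction N using Finset.induction_on with
  | empty => simp
  | insert i N hi ih =>
    refine (ih ((subset_insert _ _).trans hN) fun l hl => hmono l (mem_insert_of_mem hl)).trans ?_
    have hm : ∀ N : Finset Γ, Measurable fun ω => (∏ i ∈ N, M.un i ω) * F ω := fun N =>
      (Finset.measurable_prod _ fun i _ => M.measurable_un i).mul hF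
    have h1 : lmarginal (fun _ : Γ => M.π) A (fun ω => (∏ i ∈ N, M.un i ω) * F ω) ω ≤
        (1 + M.η) * lmarginal (fun _ : Γ => M.π) A
          (fun ω => (∏ i ∈ insert i N, M.un i ω) * F ω) ω := by
      refine lm_le_of_mem M.π (hN (mem_insert_self _ _)) (hm _) (hm _) (fun ω => ?_) ω
      have h2 : ∀ x, ∏ l ∈ N, M.un l (Function.update ω i x) = ∏ l ∈ N, M.un l ω := by
        intro x
        refine prod_congr rfl fun l hl => M.un_update_of_ne ?_ ω x
        rintro rfl
        exact hi hl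
      simp only [prod_insert hi, h2]
      refine (M.uncrowd (F := fun x => (∏ l ∈ N, M.un l ω) * F (Function.update ω i x))
        fun x => ?_).trans (mul_le_mul_right (le_of_eq ?_) _)
      · refine mul_le_mul_right ?_ _
        have h3 := hmono i (mem_insert_self _ _) (Function.update ω i x)
        rwa [Function.update_idem] at h3
      · rw [← lintegral_indicator (M.measurable_cc none).compl]
        refine lintegral_congr fun x => ?_
        by_cases hx : M.cc x = none
        · rw [Set.indicator_of_notMem (by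
            rw [Set.mem_compl_iff, not_not]
            exact hx)]
          have h4 : M.un i (Function.update ω i x) = 0 := by
            by_contra h4
            have h5 := M.un_ne_zero h4
            rw [Function.update_self] at h5
            exact h5 hx
          rw [h4, zero_mul, zero_mul]
        · rw [Set.indicator_of_mem (by
            rw [Set.mem_compl_iff]
            exact hx)]
          have h4 : M.un i (Function.update ω i x) = 1 := by
            refine M.un_eq_one ?_
            rw [Function.update_self]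
            exact hx
          rw [h4, one_mul]
    calc (1 + M.η) ^ N.card *
          lmarginal (fun _ : Γ => M.π) A (fun ω => (∏ i ∈ N, M.un i ω) * F ω) ω
        ≤ (1 + M.η) ^ N.card * ((1 + M.η) * lmarginal (fun _ : Γ => M.π) A
          (fun ω => (∏ i ∈ insert i N, M.un i ω) * F ω) ω) := mul_le_mul_right h1 _
      _ = _ := by
          rw [card_insert_of_notMem hi, pow_succ, mul_assoc]

/-- Marginals of functions which agree on the configurations with the given exterior. -/
theorem lm_congr_ext (π : Measure E) {A : Finset Γ} {f f' : (Γ → E) → ENNReal} {ω : Γ → E}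
    (h : ∀ ω' : Γ → E, (∀ i, i ∉ A → ω' i = ω i) → f ω' = f' ω') :
    lmarginal (fun _ : Γ => π) A f ω = lmarginal (fun _ : Γ => π) A f' ω := by
  unfold lmarginal
  refine lintegral_congr fun y => h _ fun i hi => ?_
  unfold Function.updateFinset
  rw [dif_neg hi]

theorem lm_mul_ext (π : Measure E) {A : Finset Γ} {f b : (Γ → E) → ENNReal} (hf : Measurable f)
    {ω : Γ → E} (h : ∀ ω' : Γ → E, (∀ i, i ∉ A → ω' i = ω i) → b ω' = b ω) :
    lmarginal (fun _ : Γ => π) A (fun ω => b ω * f ω) ω =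
      b ω * lmarginal (fun _ : Γ => π) A f ω := by
  rw [← lm_const_mul π A hf (b ω) ω]
  refine lm_congr_ext π fun ω' hω' => ?_
  show b ω' * f ω' = b ω * f ω'
  rw [h ω' hω']

/-! ### Dependence of partition functions on an exact boundary content -/

/-- The cells which matter for the dependence on the content of the cell `j`. -/
def hull (P : Finset (Γ × Γ)) (N : Finset Γ) : Finset Γ := N ∪ N.biUnion fun i => oth P i

theorem compare [Countable C] {r : Γ → ℕ} {P : Finset (Γ × Γ)} (hP : Inc r P)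
    (hPnb : ∀ p ∈ P, p.2 ∈ M.nb p.1) {X : (Γ → E) → ENNReal} (hX : Measurable X)
    (hXc : M.Coarse X) (hXm : ∀ i, M.MonoAt X i) {A : Finset Γ} {j : Γ} (hjA : j ∉ A)
    {N : Finset Γ} (hNA : N ⊆ A) (hNj : ∀ i ∈ N, j ∈ oth P i) {ω : Γ → E}
    (hω : ∀ l ∈ hull P N, l ∉ A → M.cc (ω l) ≠ none) {m : ℕ} (hm : N.card ≤ m)
    (hm2 : (hull P N ∩ A).card ≤ m) :
    lmarginal (fun _ : Γ => M.π) A (fun ω => X ω * M.wt P ω) ω ≤
      ((1 + M.η) ^ m * M.K ^ (2 * m)) * lmarginal (fun _ : Γ => M.π) A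
        (M.tel (fun ω => (∏ i ∈ hull P N, M.un i ω) * X ω) P j N) ω ∧
    lmarginal (fun _ : Γ => M.π) A (M.tel (fun ω => (∏ i ∈ hull P N, M.un i ω) * X ω) P j N) ω ≤
      M.K ^ (2 * m) * lmarginal (fun _ : Γ => M.π) A (fun ω => X ω * M.wt P ω) ω := by
  have hYm : Measurable fun ω => (∏ i ∈ hull P N, M.un i ω) * X ω :=
    (Finset.measurable_prod _ fun i _ => M.measurable_un i).mul hX
  have hYc : M.Coarse fun ω => (∏ i ∈ hull P N, M.un i ω) * X ω := by
    intro ω ω' h
    show (∏ i ∈ hull P N, M.un i ω) * X ω = (∏ i ∈ hull P N, M.un i ω') * X ω'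
    rw [hXc ω ω' h]
    congr 1
    refine prod_congr rfl fun i _ => ?_
    unfold un
    rw [h i]
  have hY0 : ∀ ω, (∏ i ∈ hull P N, M.un i ω) * X ω ≠ 0 → ∀ i ∈ N, M.cc (ω i) ≠ none ∧
      ∀ l ∈ oth P i, M.cc (ω l) ≠ none := by
    intro ω h i hi
    have h1 : ∀ l ∈ hull P N, M.cc (ω l) ≠ none := by
      intro l hl
      refine M.un_ne_zero fun h2 => h ?_
      rw [prod_eq_zero hl h2, zero_mul]
    refine ⟨h1 i (mem_union_left _ hi), fun l hl => h1 l (mem_union_right _ ?_)⟩
    exact mem_biUnion.2 ⟨i, hi, hl⟩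
  obtain ⟨h1, h2⟩ := M.tel_up_lo hP hPnb hYm hYc hjA hNA hNj hY0 ω
  have h3 : ∀ ω : Γ → E, M.tel (fun ω => (∏ i ∈ hull P N, M.un i ω) * X ω) P j ∅ ω =
      (∏ i ∈ hull P N, M.un i ω) * (X ω * M.wt P ω) := by
    intro ω
    rw [M.tel_empty, mul_assoc]
  have hwX : Measurable fun ω => X ω * M.wt P ω := hX.mul (M.measurable_wt P)
  have h4 : lmarginal (fun _ : Γ => M.π) A
      (M.tel (fun ω => (∏ i ∈ hull P N, M.un i ω) * X ω) P j ∅) ω =
      lmarginal (fun _ : Γ => M.π) A
        (fun ω => (∏ i ∈ hull P N ∩ A, M.un i ω) * (X ω * M.wt P ω)) ω := by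
    refine lm_congr_ext M.π fun ω' hω' => ?_
    rw [h3]
    congr 1
    rw [← prod_inter_mul_prod_sdiff (hull P N) A]
    have h5 : ∏ i ∈ hull P N \ A, M.un i ω' = 1 := by
      refine prod_eq_one fun l hl => ?_
      rw [mem_sdiff] at hl
      refine M.un_eq_one ?_
      rw [hω' l hl.2]
      exact hω l hl.1 hl.2
    rw [h5, mul_one]
  have hK : 1 ≤ M.K := M.one_le_K
  have hKpow : M.K ^ (2 * N.card) ≤ M.K ^ (2 * m) := pow_le_pow_right₀ hK (by omega)
  constructor
  · have h5 := M.decrowd hwX (A := A) (N := hull P N ∩ A) inter_subset_right (fun i _ ω => by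
      show X ω * M.wt P ω ≤ X (Function.update ω i M.e0) * M.wt P (Function.update ω i M.e0)
      exact mul_le_mul' (hXm i ω) (M.wt_mono P i ω)) ω
    refine h5.trans ?_
    rw [← h4, mul_assoc]
    refine mul_le_mul' (pow_le_pow_right₀ (by simp) hm2) (h1.trans ?_)
    exact mul_le_mul_left hKpow _
  · refine h2.trans (mul_le_mul' hKpow ?_)
    rw [h4]
    refine lmarginal_mono (fun ω' => ?_) ω
    show (∏ i ∈ hull P N ∩ A, M.un i ω') * (X ω' * M.wt P ω') ≤ X ω' * M.wt P ω'
    calc (∏ i ∈ hull P N ∩ A, M.un i ω') * (X ω' * M.wt P ω')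
        ≤ 1 * (X ω' * M.wt P ω') :=
          mul_le_mul_left (prod_le_one' fun i _ => M.un_le_one i ω') _
      _ = _ := one_mul _

/-! ### Finner's inequality with the energy of the cut pairs -/

/-- The neighbours of `j` of larger rank. -/
def lf (r : Γ → ℕ) (j : Γ) : Finset Γ := (M.nb j).filter fun l => r j < r l

theorem mem_lf {r : Γ → ℕ} {j l : Γ} : l ∈ M.lf r j ↔ l ∈ M.nb j ∧ r j < r l := by
  unfold lf
  rw [mem_filter]

/-- The interacting pairs in `A` whose first cell is in `B`. -/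
def pr (r : Γ → ℕ) (A B : Finset Γ) : Finset (Γ × Γ) :=
  ((A ∩ B) ×ˢ A).filter fun p => p.2 ∈ M.lf r p.1

theorem mem_pr {r : Γ → ℕ} {A B : Finset Γ} {p : Γ × Γ} :
    p ∈ M.pr r A B ↔ (p.1 ∈ A ∧ p.1 ∈ B) ∧ p.2 ∈ A ∧ p.2 ∈ M.lf r p.1 := by
  unfold pr
  rw [mem_filter, mem_product, mem_inter, and_assoc]

theorem inc_pr (r : Γ → ℕ) (A B : Finset Γ) : Inc r (M.pr r A B) := fun _ hp =>
  (M.mem_lf.1 (M.mem_pr.1 hp).2.2).2

theorem wt_pr (r : Γ → ℕ) (A B : Finset Γ) (ω : Γ → E) :
    M.wt (M.pr r A B) ω = ∏ i ∈ A ∩ B, ∏ l ∈ M.lf r i ∩ A, M.g i l (ω i) (ω l) := by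
  unfold wt pr
  rw [prod_filter, prod_product]
  refine prod_congr rfl fun i _ => ?_
  rw [← prod_filter]
  refine prod_congr ?_ fun _ _ => rfl
  ext l
  rw [mem_filter, mem_inter, and_comm]

theorem wt_pr_insert {r : Γ → ℕ} {A B : Finset Γ} {j : Γ} (hjA : j ∈ A) (hjB : j ∉ B)
    (ω : Γ → E) : M.wt (M.pr r A (insert j B)) ω =
      M.wt (M.pr r A B) ω * ∏ l ∈ M.lf r j ∩ A, M.g j l (ω j) (ω l) := by
  rw [wt_pr, wt_pr, inter_insert_of_mem hjA, prod_insert fun h => hjB (mem_inter.1 h).2, mul_comm]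

theorem wt_pr_insert_of_notMem {r : Γ → ℕ} {A B : Finset Γ} {j : Γ} (hjA : j ∉ A)
    (ω : Γ → E) : M.wt (M.pr r A (insert j B)) ω = M.wt (M.pr r A B) ω := by
  rw [wt_pr, wt_pr, inter_insert_of_notMem hjA]

theorem wt_pr_congr {r : Γ → ℕ} {A B : Finset Γ} {ω ω' : Γ → E} (h : ∀ i ∈ A, ω i = ω' i) :
    M.wt (M.pr r A B) ω = M.wt (M.pr r A B) ω' := by
  unfold wt
  refine prod_congr rfl fun p hp => ?_
  rw [h _ (M.mem_pr.1 hp).1.1, h _ (M.mem_pr.1 hp).2.1]

theorem tel_coarse [Countable C] {Y : (Γ → E) → ENNReal} (hY : M.Coarse Y)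
    (hYm : Measurable Y) {P : Finset (Γ × Γ)} {A N : Finset Γ} {j : Γ} (hjA : j ∉ A)
    (hN : N ⊆ A) (hoth : oth P j ⊆ N) {y y' : E} (h : M.cc y = M.cc y') (ω : Γ → E) :
    lmarginal (fun _ : Γ => M.π) A (M.tel Y P j N) (Function.update ω j y) =
      lmarginal (fun _ : Γ => M.π) A (M.tel Y P j N) (Function.update ω j y') := by
  rw [lmarginal_update_of_notMem (M.measurable_tel hYm P j N) hjA,
    lmarginal_update_of_notMem (M.measurable_tel hYm P j N) hjA]
  congr 1
  funext ω
  show M.tel Y P j N (Function.update ω j y) = M.tel Y P j N (Function.update ω j y')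
  unfold tel
  rw [hY.update M ω j h]
  congr 1
  · congr 1
    refine prod_congr rfl fun i hi => ?_
    have hij : i ≠ j := by
      rintro rfl
      exact hjA (hN hi)
    rw [Function.update_of_ne hij, Function.update_of_ne hij, Function.update_self,
      Function.update_self, h]
  · unfold wt
    refine prod_congr rfl fun p hp => ?_
    unfold cutp at hp
    rw [mem_filter] at hp
    obtain ⟨hp, h1⟩ := hp
    have h2 : p.1 ≠ j := by
      intro h3
      refine h1 (Or.inl ⟨h3, hoth (mem_oth.2 (Or.inl ?_))⟩)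
      rw [← h3]
      exact hp
    have h3 : p.2 ≠ j := by
      intro h4
      refine h1 (Or.inr ⟨h4, hoth (mem_oth.2 (Or.inr ?_))⟩)
      rw [← h4]
      exact hp
    rw [Function.update_of_ne h2, Function.update_of_ne h3, Function.update_of_ne h2,
      Function.update_of_ne h3]

/-- Comparison of the weights with and without the pairs leaving `A`, for one cell `j`, with a
factor `Z` which is nearly a function of the coarse content. -/
theorem step_class (j : Γ) (c : C) {S S' : Finset Γ} (hS : S ⊆ M.nb j) (hSS : S' ⊆ S)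
    {y : Γ → E} (h1 : ∀ l ∈ S, M.cc (y l) ≠ none) {Z Q : E → ENNReal} {k1 k2 : ENNReal}
    (hZm : Measurable Z) (hQm : Measurable Q)
    (hQ : ∀ x x', M.cc x = M.cc x' → Q x = Q x') (hZQ : ∀ x, M.cc x = some c → Z x ≤ k1 * Q x)
    (hQZ : ∀ x, M.cc x = some c → Q x ≤ k2 * Z x) :
    ∫⁻ x in M.cc ⁻¹' {some c}, (∏ l ∈ S, M.g j l x (y l)) *
        ex (∑ l ∈ S \ S', M.Φ j l (M.cc x) (M.cc (y l))) * Z x ∂M.π ≤
      (k1 * k2 * M.K ^ 2) *
        ∫⁻ x in M.cc ⁻¹' {some c}, (∏ l ∈ S', M.g j l x (y l)) * Z x ∂M.π := by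
  obtain ⟨q, hq⟩ := M.cls_const c hQ
  set e : ENNReal := ex (∑ l ∈ S \ S', M.Φ j l (some c) (M.cc (y l))) with he
  have h2 := M.A_up j c S y hS h1
  have h3 := M.A_lo j c S' y (hSS.trans hS) fun l hl => h1 l (hSS hl)
  have h4 : ex (-∑ l ∈ S, M.Φ j l (some c) (M.cc (y l))) * e =
      ex (-∑ l ∈ S', M.Φ j l (some c) (M.cc (y l))) := by
    rw [he, ← ex_add]
    congr 1
    rw [← sum_sdiff hSS]
    ring
  calc ∫⁻ x in M.cc ⁻¹' {some c}, (∏ l ∈ S, M.g j l x (y l)) *
        ex (∑ l ∈ S \ S', M.Φ j l (M.cc x) (M.cc (y l))) * Z x ∂M.π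
      ≤ ∫⁻ x in M.cc ⁻¹' {some c}, (k1 * e) * (Q x * ∏ l ∈ S, M.g j l x (y l)) ∂M.π := by
        refine setLIntegral_mono' (M.measurable_cc _) fun x hx => ?_
        have hx' : M.cc x = some c := hx
        rw [hx']
        calc (∏ l ∈ S, M.g j l x (y l)) * e * Z x
            ≤ (∏ l ∈ S, M.g j l x (y l)) * e * (k1 * Q x) := mul_le_mul_right (hZQ x hx') _
          _ = _ := by ring
    _ = k1 * e * (q * ∫⁻ x in M.cc ⁻¹' {some c}, ∏ l ∈ S, M.g j l x (y l) ∂M.π) := by
        rw [← hq _ (M.measurable_prodg j S y)]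
        have hm : Measurable fun x => Q x * ∏ l ∈ S, M.g j l x (y l) :=
          hQm.mul (M.measurable_prodg j S y)
        exact lintegral_const_mul _ hm
    _ ≤ k1 * e * (q * (M.K * (M.π (M.cc ⁻¹' {some c}) *
          ex (-∑ l ∈ S, M.Φ j l (some c) (M.cc (y l)))))) := by gcongr
    _ = k1 * q * M.K * (M.π (M.cc ⁻¹' {some c}) *
          ex (-∑ l ∈ S', M.Φ j l (some c) (M.cc (y l)))) := by
        rw [← h4]
        ring
    _ ≤ k1 * q * M.K * (M.K * ∫⁻ x in M.cc ⁻¹' {some c}, ∏ l ∈ S', M.g j l x (y l) ∂M.π) := by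
        gcongr
    _ = k1 * M.K ^ 2 * (q * ∫⁻ x in M.cc ⁻¹' {some c}, ∏ l ∈ S', M.g j l x (y l) ∂M.π) := by ring
    _ = k1 * M.K ^ 2 * ∫⁻ x in M.cc ⁻¹' {some c}, Q x * ∏ l ∈ S', M.g j l x (y l) ∂M.π := by
        rw [hq _ (M.measurable_prodg j S' y)]
    _ ≤ k1 * M.K ^ 2 * ∫⁻ x in M.cc ⁻¹' {some c}, k2 * ((∏ l ∈ S', M.g j l x (y l)) * Z x) ∂M.π := by
        refine mul_le_mul_right (setLIntegral_mono' (M.measurable_cc _) fun x hx => ?_) _
        calc Q x * ∏ l ∈ S', M.g j l x (y l) ≤ k2 * Z x * ∏ l ∈ S', M.g j l x (y l) :=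
              mul_le_mul_left (hQZ x hx) _
          _ = _ := by ring
    _ = _ := by
        have hm : Measurable fun x => (∏ l ∈ S', M.g j l x (y l)) * Z x :=
          (M.measurable_prodg j S' y).mul hZm
        rw [lintegral_const_mul _ hm]
        ring

/-- No cell of larger rank near `j` is crowded. -/
def free (r : Γ → ℕ) (near : Γ → Finset Γ) (j : Γ) (ω : Γ → E) : Prop :=
  ∀ l ∈ near j, r j < r l → M.cc (ω l) ≠ none

/-- Energy between the cell `j` and the cells of larger rank outside `A`. -/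
noncomputable def eout (r : Γ → ℕ) (near : Γ → Finset Γ) (A : Finset Γ) (j : Γ) (ω : Γ → E) : ℝ := by
  classical exact if M.free r near j ω then
    ∑ l ∈ M.lf r j \ A, M.Φ j l (M.cc (ω j)) (M.cc (ω l)) else 0

theorem eout_nonneg (r : Γ → ℕ) (near : Γ → Finset Γ) (A : Finset Γ) (j : Γ) (ω : Γ → E) :
    0 ≤ M.eout r near A j ω := by
  unfold eout
  split_ifs
  · exact sum_nonneg fun l _ => M.Φ_nonneg _ _ _ _
  · exact le_rfl

theorem eout_of_subset {r : Γ → ℕ} {near : Γ → Finset Γ} {A : Finset Γ} {j : Γ}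
    (h : M.nb j ⊆ A) (ω : Γ → E) : M.eout r near A j ω = 0 := by
  have h1 : M.lf r j \ A = ∅ := by
    rw [sdiff_eq_empty_iff_subset]
    exact fun l hl => h (M.mem_lf.1 hl).1
  unfold eout
  rw [h1]
  simp

/-- `eout` depends only on the contents of the cells of rank at least that of `j`. -/
theorem eout_congr {r : Γ → ℕ} {near : Γ → Finset Γ} {A : Finset Γ} {j : Γ} {ω ω' : Γ → E}
    (h : ∀ l, r j ≤ r l → ω l = ω' l) : M.eout r near A j ω = M.eout r near A j ω' := by
  classical
  have h1 : M.free r near j ω ↔ M.free r near j ω' := by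
    unfold free
    refine forall_congr' fun l => forall_congr' fun _ => forall_congr' fun hl => ?_
    rw [h l hl.le]
  unfold eout
  by_cases h2 : M.free r near j ω
  · rw [if_pos h2, if_pos (h1.1 h2)]
    refine sum_congr rfl fun l hl => ?_
    rw [h j le_rfl, h l (M.mem_lf.1 (mem_sdiff.1 hl).1).2.le]
  · rw [if_neg h2, if_neg fun h3 => h2 (h1.2 h3)]

/-- The main one-cell estimate. -/
theorem one_cell [Countable C] {r : Γ → ℕ} (near : Γ → Finset Γ)
    (hnear : ∀ j, M.nb j ⊆ near j) (hnear2 : ∀ j, ∀ i ∈ M.nb j, M.nb i ⊆ insert j (near j))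
    {m : ℕ} (hm : ∀ j, (near j).card ≤ m) {j : Γ} {A B : Finset Γ} (hjA : j ∈ A)
    (hB : ∀ i, i ∈ B ↔ r i < r j) (hr : Function.Injective r)
    {X : (Γ → E) → ENNReal} (hX : Measurable X) (hXc : M.Coarse X) (hXm : ∀ i, M.MonoAt X i)
    (ω : Γ → E) :
    ∫⁻ x, (∏ l ∈ M.lf r j, M.g j l x (ω l)) * ex (M.eout r near A j (Function.update ω j x)) *
      lmarginal (fun _ : Γ => M.π) (B ∩ A) (fun ω => X ω * M.wt (M.pr r A B) ω)
        (Function.update ω j x) ∂M.π ≤
      (if M.nb j ⊆ A then 1 else (1 + M.η) ^ m * M.K ^ (4 * m + 2)) *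
      ∫⁻ x, (∏ l ∈ M.lf r j ∩ A, M.g j l x (ω l)) *
      lmarginal (fun _ : Γ => M.π) (B ∩ A) (fun ω => X ω * M.wt (M.pr r A B) ω)
        (Function.update ω j x) ∂M.π := by
  classical
  have hjB : j ∉ B := fun h => lt_irrefl _ ((hB j).1 h)
  set Z : E → ENNReal := fun x => lmarginal (fun _ : Γ => M.π) (B ∩ A)
    (fun ω => X ω * M.wt (M.pr r A B) ω) (Function.update ω j x) with hZ
  have hprod : ∀ x, ∏ l ∈ M.lf r j, M.g j l x (ω l) ≤ ∏ l ∈ M.lf r j ∩ A, M.g j l x (ω l) :=
    fun x => prod_le_prod_of_subset_of_le_one' inter_subset_left fun _ _ _ => M.g_le _ _ _ _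
  have hK : 1 ≤ M.K := M.one_le_K
  have hk1 : (1 : ENNReal) ≤ (1 + M.η) ^ m * M.K ^ (4 * m + 2) :=
    one_le_mul (one_le_pow₀ (by simp)) (one_le_pow₀ hK)
  by_cases hA : M.nb j ⊆ A
  · rw [if_pos hA, one_mul]
    refine lintegral_mono fun x => ?_
    show (∏ l ∈ M.lf r j, M.g j l x (ω l)) * ex (M.eout r near A j (Function.update ω j x)) *
      Z x ≤ _
    rw [M.eout_of_subset hA, ex_zero, mul_one]
    exact mul_le_mul_left (hprod x) _
  rw [if_neg hA]
  by_cases hfree : M.free r near j ω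
  swap
  · refine le_trans ?_ (mul_le_mul_left hk1 _)
    rw [one_mul]
    refine lintegral_mono fun x => ?_
    show (∏ l ∈ M.lf r j, M.g j l x (ω l)) * ex (M.eout r near A j (Function.update ω j x)) *
      Z x ≤ _
    have h1 : M.eout r near A j (Function.update ω j x) = 0 := by
      unfold eout
      rw [if_neg]
      intro h2
      refine hfree fun l hl hjl => ?_
      have h3 := h2 l hl hjl
      rwa [Function.update_of_ne] at h3
      rintro rfl
      exact lt_irrefl _ hjl
    rw [h1, ex_zero, mul_one]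
    exact mul_le_mul_left (hprod x) _
  have hfree' : ∀ x, M.free r near j (Function.update ω j x) := by
    intro x l hl hjl
    rw [Function.update_of_ne]
    · exact hfree l hl hjl
    · rintro rfl
      exact lt_irrefl _ hjl
  have heout : ∀ x, M.eout r near A j (Function.update ω j x) =
      ∑ l ∈ M.lf r j \ (M.lf r j ∩ A), M.Φ j l (M.cc x) (M.cc (ω l)) := by
    intro x
    unfold eout
    rw [if_pos (hfree' x), sdiff_inter_self_left]
    refine sum_congr rfl fun l hl => ?_
    rw [Function.update_self, Function.update_of_ne]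
    rintro rfl
    exact lt_irrefl _ (M.mem_lf.1 (mem_sdiff.1 hl).1).2
  simp only [heout]
  have hwX : Measurable fun ω => X ω * M.wt (M.pr r A B) ω := hX.mul (M.measurable_wt _)
  have hZm : Measurable Z := (hwX.lmarginal _).comp (measurable_update ω)
  refine M.lintegral_le_cc fun o => ?_
  rcases o with _ | c
  · refine le_trans ?_ (mul_le_mul_left hk1 _)
    rw [one_mul]
    refine setLIntegral_mono' (M.measurable_cc _) fun x hx => ?_
    have hx' : M.cc x = none := hx
    rw [hx']
    have h1 : ∑ l ∈ M.lf r j \ (M.lf r j ∩ A), M.Φ j l none (M.cc (ω l)) = 0 :=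
      sum_eq_zero fun l _ => M.Φ_none _ _ _
    rw [h1, ex_zero, mul_one]
    exact mul_le_mul_left (hprod x) _
  · -- the comparison
    set P := M.pr r A B with hP
    set N : Finset Γ := (B ∩ A).filter fun i => j ∈ oth P i with hN
    have hNA : N ⊆ B ∩ A := filter_subset _ _
    have hjBA : j ∉ B ∩ A := fun h => hjB (mem_inter.1 h).1
    have hNnb : ∀ i ∈ N, i ∈ M.nb j := by
      intro i hi
      rcases mem_oth.1 (mem_filter.1 hi).2 with h | h
      · exact M.nb_symm _ _ (M.mem_lf.1 (M.mem_pr.1 h).2.2).1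
      · exact (M.mem_lf.1 (M.mem_pr.1 h).2.2).1
    have hothj : oth P j ⊆ N := by
      intro i hi
      rcases mem_oth.1 hi with h | h
      · exact (hjB (M.mem_pr.1 h).1.2).elim
      · have h1 := M.mem_pr.1 h
        exact mem_filter.2 ⟨mem_inter.2 ⟨h1.1.2, h1.1.1⟩, mem_oth.2 (Or.inl h)⟩
    have hhull : hull P N ⊆ insert j (near j) := by
      intro l hl
      rcases mem_union.1 hl with h | h
      · exact mem_insert_of_mem (hnear j (hNnb l h))
      · obtain ⟨i, hi, hl⟩ := mem_biUnion.1 h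
        refine hnear2 j i (hNnb i hi) ?_
        rcases mem_oth.1 hl with h | h
        · exact (M.mem_lf.1 (M.mem_pr.1 h).2.2).1
        · exact M.nb_symm _ _ (M.mem_lf.1 (M.mem_pr.1 h).2.2).1
    have hhullA : ∀ l ∈ hull P N, l ∈ A := by
      intro l hl
      rcases mem_union.1 hl with h | h
      · exact (mem_inter.1 (hNA h)).2
      · obtain ⟨i, hi, hl⟩ := mem_biUnion.1 h
        rcases mem_oth.1 hl with h | h
        · exact (M.mem_pr.1 h).2.1
        · exact (M.mem_pr.1 h).1.1
    have hNm : N.card ≤ m := (card_le_card fun i hi => hnear j (hNnb i hi)).trans (hm j)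
    have hNm2 : (hull P N ∩ (B ∩ A)).card ≤ m := by
      refine (card_le_card fun i hi => ?_).trans (hm j)
      rw [mem_inter] at hi
      rcases mem_insert.1 (hhull hi.1) with rfl | h
      · exact (hjBA hi.2).elim
      · exact h
    have hcmp : ∀ x, M.cc x = some c → _ := fun x hx =>
      M.compare (M.inc_pr r A B) (fun p hp => (M.mem_lf.1 (M.mem_pr.1 hp).2.2).1) hX hXc hXm hjBA
        hNA (fun i hi => (mem_filter.1 hi).2) (ω := Function.update ω j x) (m := m)
        (by
          intro l hl hlA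
          by_cases hlj : l = j
          · subst hlj
            rw [Function.update_self, hx]
            exact Option.some_ne_none c
          · rw [Function.update_of_ne hlj]
            have h1 : l ∈ near j := by
              rcases mem_insert.1 (hhull hl) with h | h
              · exact (hlj h).elim
              · exact h
            refine hfree l h1 ?_
            have h2 : l ∉ B := fun h => hlA (mem_inter.2 ⟨h, hhullA l hl⟩)
            rw [hB] at h2
            have h3 : r l ≠ r j := fun h => hlj (hr h)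
            omega) hNm hNm2
    have hYm : Measurable fun ω => (∏ i ∈ hull P N, M.un i ω) * X ω :=
      (Finset.measurable_prod _ fun i _ => M.measurable_un i).mul hX
    have hYc : M.Coarse fun ω => (∏ i ∈ hull P N, M.un i ω) * X ω := by
      intro ω ω' h
      show (∏ i ∈ hull P N, M.un i ω) * X ω = (∏ i ∈ hull P N, M.un i ω') * X ω'
      rw [hXc ω ω' h]
      congr 1
      refine prod_congr rfl fun i _ => ?_
      unfold un
      rw [h i]
    have hres := M.step_class j c (S := M.lf r j) (S' := M.lf r j ∩ A) (filter_subset _ _)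
      inter_subset_left (y := ω) (Z := Z) (Q := fun x => lmarginal (fun _ : Γ => M.π) (B ∩ A)
        (M.tel (fun ω => (∏ i ∈ hull P N, M.un i ω) * X ω) P j N) (Function.update ω j x))
      (k1 := (1 + M.η) ^ m * M.K ^ (2 * m)) (k2 := M.K ^ (2 * m))
      (by
        intro l hl
        exact hfree l (hnear j (M.mem_lf.1 hl).1) (M.mem_lf.1 hl).2) hZm
      (((M.measurable_tel hYm _ _ _).lmarginal _).comp (measurable_update ω))
      (fun x x' h => M.tel_coarse hYc hYm hjBA hNA hothj h ω)
      (fun x hx => (hcmp x hx).1) (fun x hx => (hcmp x hx).2)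
    refine hres.trans (le_of_eq ?_)
    congr 1
    ring

/-- The constant of a bad pair. -/
noncomputable def kap (m : ℕ) : ENNReal := (1 + M.η) ^ m * M.K ^ (4 * m + 2)

/-- Total energy between the cells of `B` and the cells of larger rank, averaged over the sets. -/
noncomputable def gain {ι : Type} (s : Finset ι) (A : ι → Finset Γ) (p : ι → ℝ) (r : Γ → ℕ)
    (near : Γ → Finset Γ) (B : Finset Γ) (ω : Γ → E) : ℝ :=
  ∑ j ∈ B, ∑ t ∈ s.filter (fun t => j ∈ A t), p t * M.eout r near (A t) j ω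

theorem measurable_free [Countable C] (r : Γ → ℕ) (near : Γ → Finset Γ) (j : Γ) :
    MeasurableSet {ω : Γ → E | M.free r near j ω} := by
  have h : {ω : Γ → E | M.free r near j ω} =
      ⋂ l ∈ (near j).filter (fun l => r j < r l), (fun ω : Γ → E => ω l) ⁻¹' (M.cc ⁻¹' {none})ᶜ := by
    ext ω
    simp only [free, Set.mem_ofPred_eq, Set.mem_iInter, mem_filter, Set.mem_preimage,
      Set.mem_compl_iff, Set.mem_singleton_iff]
    constructor
    · rintro h l ⟨h1, h2⟩
      exact h l h1 h2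
    · intro h l h1 h2
      exact h l ⟨h1, h2⟩
  rw [h]
  exact Finset.measurableSet_biInter _ fun l _ =>
    (measurable_pi_apply l) (M.measurable_cc none).compl

theorem measurable_Φ' [Countable C] (i j : Γ) :
    Measurable fun ω : Γ → E => M.Φ i j (M.cc (ω i)) (M.cc (ω j)) := by
  have h := M.measurable_Φ i j
  have h1 : (fun ω : Γ → E => M.Φ i j (M.cc (ω i)) (M.cc (ω j))) =
      fun ω => -Real.log (ex (-M.Φ i j (M.cc (ω i)) (M.cc (ω j)))).toReal := by
    funext ω
    rw [ex_toReal, Real.log_exp, neg_neg]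
  rw [h1]
  exact (Real.measurable_log.comp h.ennreal_toReal).neg

theorem measurable_eout [Countable C] (r : Γ → ℕ) (near : Γ → Finset Γ) (A : Finset Γ) (j : Γ) :
    Measurable (M.eout r near A j) := by
  classical
  unfold eout
  refine Measurable.ite (M.measurable_free r near j) ?_ measurable_const
  exact Finset.measurable_sum _ fun l _ => M.measurable_Φ' j l

theorem measurable_gain [Countable C] {ι : Type} (s : Finset ι) (A : ι → Finset Γ) (p : ι → ℝ)
    (r : Γ → ℕ) (near : Γ → Finset Γ) (B : Finset Γ) : Measurable (M.gain s A p r near B) := by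
  unfold gain
  exact Finset.measurable_sum _ fun j _ => Finset.measurable_sum _ fun t _ =>
    (M.measurable_eout r near (A t) j).const_mul _

theorem prod_rpow_one {ι : Type} (s : Finset ι) (p : ι → ℝ) (hp : ∀ t ∈ s, 0 ≤ p t)
    (h : ∑ t ∈ s, p t = 1) (x : ENNReal) : ∏ t ∈ s, x ^ p t = x := by
  classical
  have h1 : ∀ s' : Finset ι, s' ⊆ s → ∏ t ∈ s', x ^ p t = x ^ (∑ t ∈ s', p t) := by
    intro s' hs'
    induction s' using Finset.induction_on with
    | empty => simp
    | insert a s' ha ih =>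
      rw [prod_insert ha, sum_insert ha, ih ((subset_insert _ _).trans hs'),
        ENNReal.rpow_add_of_nonneg _ _ (hp a (hs' (mem_insert_self _ _)))
          (sum_nonneg fun t ht => hp t (hs' (mem_insert_of_mem ht)))]
  rw [h1 s subset_rfl, h, ENNReal.rpow_one]

/-- Finner's inequality for the sets `A t` with exponents `p t`: the energy between `A t` and its
complement is gained, up to a constant for each pair `(t, j)` such that `j` is close to the
complement of `A t`. -/
theorem fplus_aux [Fintype Γ] [Countable C] {ι : Type} {r : Γ → ℕ} (hr : Function.Injective r)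
    (near : Γ → Finset Γ) (hnear : ∀ j, M.nb j ⊆ near j)
    (hnear2 : ∀ j, ∀ i ∈ M.nb j, M.nb i ⊆ insert j (near j)) {m : ℕ}
    (hm : ∀ j, (near j).card ≤ m) (s : Finset ι) (A : ι → Finset Γ) (p : ι → ℝ)
    (hp : ∀ t ∈ s, 0 ≤ p t) (hcov : ∀ j : Γ, ∑ t ∈ s.filter (fun t => j ∈ A t), p t = 1)
    (X : ι → (Γ → E) → ENNReal) (hX : ∀ t ∈ s, Measurable (X t)) (hXc : ∀ t ∈ s, M.Coarse (X t))
    (hXm : ∀ t ∈ s, ∀ i, M.MonoAt (X t) i)
    (hdep : ∀ t ∈ s, ∀ ω ω' : Γ → E, (∀ j ∈ A t, ω j = ω' j) → X t ω = X t ω') (n : ℕ)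
    (ω : Γ → E) :
    lmarginal (fun _ : Γ => M.π) (univ.filter fun i => r i < n)
      (fun ω => M.wt (M.pr r univ (univ.filter fun i => r i < n)) ω *
        ex (M.gain s A p r near (univ.filter fun i => r i < n) ω) * ∏ t ∈ s, X t ω ^ p t) ω ≤
      (∏ j ∈ univ.filter (fun i => r i < n), ∏ t ∈ s.filter (fun t => j ∈ A t),
        (if M.nb j ⊆ A t then 1 else M.kap m) ^ p t) *
      ∏ t ∈ s, (lmarginal (fun _ : Γ => M.π) ((univ.filter fun i => r i < n) ∩ A t)
        (fun ω => X t ω * M.wt (M.pr r (A t) (univ.filter fun i => r i < n)) ω) ω) ^ p t := by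
  classical
  induction n generalizing ω with
  | zero =>
    have h0 : (univ.filter fun i => r i < 0) = (∅ : Finset Γ) := by
      rw [filter_eq_empty_iff]
      intro i _
      omega
    have h1 : ∀ A : Finset Γ, M.wt (M.pr r A ∅) ω = 1 := by
      intro A
      rw [M.wt_pr, inter_empty, prod_empty]
    simp only [h0, empty_inter, lmarginal_empty, h1, gain, sum_empty, ex_zero, prod_empty,
      one_mul, mul_one]
    exact le_rfl
  | succ n ih =>
    by_cases hj : ∃ j, r j = n
    swap
    · have h0 : (univ.filter fun i => r i < n + 1) = univ.filter fun i => r i < n := by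
        ext i
        simp only [mem_filter, mem_univ, true_and]
        constructor
        · intro h
          rcases Nat.lt_succ_iff_lt_or_eq.1 h with h | h
          · exact h
          · exact (hj ⟨i, h⟩).elim
        · intro h
          omega
      rw [h0]
      exact ih ω
    obtain ⟨j, hj⟩ := hj
    set B : Finset Γ := univ.filter fun i => r i < n with hBdef
    have hB : ∀ i, i ∈ B ↔ r i < r j := by
      intro i
      rw [hBdef, mem_filter, hj]
      simp
    have h0 : (univ.filter fun i => r i < n + 1) = insert j B := by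
      ext i
      rw [mem_insert, hB, mem_filter, hj]
      constructor
      · rintro ⟨-, h⟩
        rcases Nat.lt_succ_iff_lt_or_eq.1 h with h | h
        · exact Or.inr h
        · exact Or.inl (hr (h.trans hj.symm))
      · rintro (rfl | h)
        · exact ⟨mem_univ _, by omega⟩
        · exact ⟨mem_univ _, by omega⟩
    have hjB : j ∉ B := fun h => lt_irrefl _ ((hB j).1 h)
    rw [h0]
    -- the factor of the cell `j`
    set bk : (Γ → E) → ENNReal := fun ω => (∏ l ∈ M.lf r j, M.g j l (ω j) (ω l)) *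
      ex (∑ t ∈ s.filter (fun t => j ∈ A t), p t * M.eout r near (A t) j ω) with hbk
    set F : (Γ → E) → ENNReal := fun ω => M.wt (M.pr r univ B) ω *
        ex (M.gain s A p r near B ω) * ∏ t ∈ s, X t ω ^ p t with hF
    have hFm : Measurable F := by
      refine ((M.measurable_wt _).mul ?_).mul (Finset.measurable_prod _ fun t ht =>
        (hX t ht).pow_const _)
      exact (Real.measurable_exp.comp (M.measurable_gain s A p r near B)).ennreal_ofReal
    have hbkm : Measurable bk := by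
      refine (Finset.measurable_prod _ fun l _ => ?_).mul ?_
      · have h1 : Measurable fun ω : Γ → E => (ω j, ω l) :=
          (measurable_pi_apply j).prodMk (measurable_pi_apply l)
        exact (M.measurable_g j l).comp h1
      · exact (Real.measurable_exp.comp (Finset.measurable_sum _ fun t _ =>
          (M.measurable_eout r near (A t) j).const_mul _)).ennreal_ofReal
    have hsplit : (fun ω => M.wt (M.pr r univ (insert j B)) ω *
        ex (M.gain s A p r near (insert j B) ω) * ∏ t ∈ s, X t ω ^ p t) =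
        fun ω => bk ω * F ω := by
      funext ω
      rw [M.wt_pr_insert (mem_univ j) hjB, inter_univ, gain, sum_insert hjB, ex_add, hbk, hF]
      simp only [gain]
      ring
    have hbF : Measurable fun ω => bk ω * F ω := hbkm.mul hFm
    rw [hsplit, lmarginal_insert _ hbF hjB]
    have hext : ∀ ω ω' : Γ → E, (∀ i, i ∉ B → ω' i = ω i) → bk ω' = bk ω := by
      intro ω ω' h
      have h1 : ∀ l, r j ≤ r l → ω' l = ω l := by
        intro l hl
        refine h l fun h2 => ?_
        have := (hB l).1 h2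
        omega
      rw [hbk]
      simp only
      congr 1
      · refine prod_congr rfl fun l hl => ?_
        rw [h1 j le_rfl, h1 l (M.mem_lf.1 hl).2.le]
      · congr 1
        refine sum_congr rfl fun t _ => ?_
        rw [M.eout_congr h1]
    have hstep1 : ∀ x, lmarginal (fun _ : Γ => M.π) B (fun ω => bk ω * F ω)
        (Function.update ω j x) ≤ bk (Function.update ω j x) *
        ((∏ j ∈ B, ∏ t ∈ s.filter (fun t => j ∈ A t),
          (if M.nb j ⊆ A t then 1 else M.kap m) ^ p t) *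
        ∏ t ∈ s, (lmarginal (fun _ : Γ => M.π) (B ∩ A t)
          (fun ω => X t ω * M.wt (M.pr r (A t) B) ω) (Function.update ω j x)) ^ p t) := by
      intro x
      rw [lm_mul_ext M.π hFm (hext _)]
      exact mul_le_mul_right (ih _) _
    refine (lintegral_mono hstep1).trans ?_
    -- the two kinds of sets
    set W : ι → (Γ → E) → ENNReal := fun t => lmarginal (fun _ : Γ => M.π) (B ∩ A t)
      (fun ω => X t ω * M.wt (M.pr r (A t) B) ω) with hW
    have hwm : ∀ t ∈ s, Measurable fun ω => X t ω * M.wt (M.pr r (A t) B) ω := fun t ht =>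
      (hX t ht).mul (M.measurable_wt _)
    have hWm : ∀ t ∈ s, Measurable (W t) := fun t ht => (hwm t ht).lmarginal _
    have hWout : ∀ t ∈ s, j ∉ A t → ∀ x, W t (Function.update ω j x) = W t ω := by
      intro t ht hjt x
      refine Finn.marginal_update M.π (hwm t ht) (A := A t) ?_ hjt
        (fun h => hjt (mem_inter.1 h).2) ω x
      intro ω ω' h
      show X t ω * M.wt (M.pr r (A t) B) ω = X t ω' * M.wt (M.pr r (A t) B) ω'
      rw [hdep t ht ω ω' h, M.wt_pr_congr h]
    have hWnew : ∀ t ∈ s, j ∉ A t → lmarginal (fun _ : Γ => M.π) (insert j B ∩ A t)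
        (fun ω => X t ω * M.wt (M.pr r (A t) (insert j B)) ω) ω = W t ω := by
      intro t _ hjt
      rw [insert_inter_of_notMem hjt]
      simp only [M.wt_pr_insert_of_notMem hjt]
      rfl
    have hWin : ∀ t ∈ s, j ∈ A t → lmarginal (fun _ : Γ => M.π) (insert j B ∩ A t)
        (fun ω => X t ω * M.wt (M.pr r (A t) (insert j B)) ω) ω =
        ∫⁻ x, (∏ l ∈ M.lf r j ∩ A t, M.g j l x (ω l)) * W t (Function.update ω j x) ∂M.π := by
      intro t ht hjt
      have hjBA : j ∉ B ∩ A t := fun h => hjB (mem_inter.1 h).1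
      have hm1 : Measurable fun ω => X t ω * M.wt (M.pr r (A t) (insert j B)) ω :=
        (hX t ht).mul (M.measurable_wt _)
      rw [insert_inter_of_mem hjt, lmarginal_insert _ hm1 hjBA]
      refine lintegral_congr fun x => ?_
      have h1 : (fun ω => X t ω * M.wt (M.pr r (A t) (insert j B)) ω) =
          fun ω => (∏ l ∈ M.lf r j ∩ A t, M.g j l (ω j) (ω l)) *
            (X t ω * M.wt (M.pr r (A t) B) ω) := by
        funext ω
        rw [M.wt_pr_insert hjt hjB]
        ring
      rw [h1]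
      have h2 : ∀ l ∈ M.lf r j ∩ A t, l ≠ j := by
        rintro l hl rfl
        exact lt_irrefl _ (M.mem_lf.1 (mem_inter.1 hl).1).2
      rw [lm_mul_ext M.π (b := fun ω => ∏ l ∈ M.lf r j ∩ A t, M.g j l (ω j) (ω l)) (hwm t ht)]
      · congr 1
        refine prod_congr rfl fun l hl => ?_
        rw [Function.update_self, Function.update_of_ne (h2 l hl)]
      · intro ω' h
        refine prod_congr rfl fun l hl => ?_
        rw [h j hjBA, h l fun h3 => ?_]
        have h4 := (hB l).1 (mem_inter.1 h3).1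
        have h5 := (M.mem_lf.1 (mem_inter.1 hl).1).2
        omega
    -- Hoelder
    set H : ι → E → ENNReal := fun t x => (∏ l ∈ M.lf r j, M.g j l x (ω l)) *
      ex (M.eout r near (A t) j (Function.update ω j x)) * W t (Function.update ω j x) with hH
    have hHm : ∀ t ∈ s, Measurable (H t) := fun t ht =>
      ((M.measurable_prodg j _ ω).mul ((Real.measurable_exp.comp
        ((M.measurable_eout r near (A t) j).comp (measurable_update ω))).ennreal_ofReal)).mul
        ((hWm t ht).comp (measurable_update ω))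
    have hint : ∀ x, bk (Function.update ω j x) *
        ((∏ j ∈ B, ∏ t ∈ s.filter (fun t => j ∈ A t),
          (if M.nb j ⊆ A t then 1 else M.kap m) ^ p t) *
        ∏ t ∈ s, (W t (Function.update ω j x)) ^ p t) =
        ((∏ j ∈ B, ∏ t ∈ s.filter (fun t => j ∈ A t),
          (if M.nb j ⊆ A t then 1 else M.kap m) ^ p t) *
        ∏ t ∈ s.filter (fun t => j ∉ A t), (W t ω) ^ p t) *
        ∏ t ∈ s.filter (fun t => j ∈ A t), H t x ^ p t := by
      intro x
      have h1 : bk (Function.update ω j x) = ∏ t ∈ s.filter (fun t => j ∈ A t),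
          ((∏ l ∈ M.lf r j, M.g j l x (ω l)) *
            ex (M.eout r near (A t) j (Function.update ω j x))) ^ p t := by
        have h2 : ∀ t ∈ s.filter (fun t => j ∈ A t), 0 ≤ p t := fun t ht =>
          hp t (mem_filter.1 ht).1
        have h3 : ∀ t ∈ s.filter (fun t => j ∈ A t), ((∏ l ∈ M.lf r j, M.g j l x (ω l)) *
            ex (M.eout r near (A t) j (Function.update ω j x))) ^ p t =
            (∏ l ∈ M.lf r j, M.g j l x (ω l)) ^ p t *
            ex (p t * M.eout r near (A t) j (Function.update ω j x)) := by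
          intro t ht
          rw [ENNReal.mul_rpow_of_nonneg _ _ (h2 t ht), ex_rpow, mul_comm (M.eout _ _ _ _ _)]
        rw [prod_congr rfl h3, prod_mul_distrib, prod_rpow_one _ p h2 (hcov j), prod_ex, hbk]
        simp only
        congr 1
        refine prod_congr rfl fun l hl => ?_
        rw [Function.update_self, Function.update_of_ne]
        rintro rfl
        exact lt_irrefl _ (M.mem_lf.1 hl).2
      rw [h1, ← prod_filter_mul_prod_filter_not s (fun t => j ∈ A t)
        (fun t => (W t (Function.update ω j x)) ^ p t)]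
      have h4 : ∏ t ∈ s.filter (fun t => j ∉ A t), (W t (Function.update ω j x)) ^ p t =
          ∏ t ∈ s.filter (fun t => j ∉ A t), (W t ω) ^ p t := by
        refine prod_congr rfl fun t ht => ?_
        rw [hWout t (mem_filter.1 ht).1 (mem_filter.1 ht).2]
      have h5 : ∏ t ∈ s.filter (fun t => j ∈ A t), H t x ^ p t =
          (∏ t ∈ s.filter (fun t => j ∈ A t), ((∏ l ∈ M.lf r j, M.g j l x (ω l)) *
            ex (M.eout r near (A t) j (Function.update ω j x))) ^ p t) *
          ∏ t ∈ s.filter (fun t => j ∈ A t), (W t (Function.update ω j x)) ^ p t := by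
        rw [← prod_mul_distrib]
        refine prod_congr rfl fun t ht => ?_
        rw [← ENNReal.mul_rpow_of_nonneg _ _ (hp t (mem_filter.1 ht).1)]
      rw [h4, h5]
      ring
    have hhold : ∫⁻ x, ∏ t ∈ s.filter (fun t => j ∈ A t), H t x ^ p t ∂M.π ≤
        ∏ t ∈ s.filter (fun t => j ∈ A t), (∫⁻ x, H t x ∂M.π) ^ p t :=
      ENNReal.lintegral_prod_norm_pow_le _
        (fun t ht => (hHm t (mem_filter.1 ht).1).aemeasurable) (hcov j)
        (fun t ht => hp t (mem_filter.1 ht).1)
    calc ∫⁻ x, bk (Function.update ω j x) *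
        ((∏ j ∈ B, ∏ t ∈ s.filter (fun t => j ∈ A t),
          (if M.nb j ⊆ A t then 1 else M.kap m) ^ p t) *
        ∏ t ∈ s, (W t (Function.update ω j x)) ^ p t) ∂M.π
        = ((∏ j ∈ B, ∏ t ∈ s.filter (fun t => j ∈ A t),
          (if M.nb j ⊆ A t then 1 else M.kap m) ^ p t) *
        ∏ t ∈ s.filter (fun t => j ∉ A t), (W t ω) ^ p t) *
        ∫⁻ x, ∏ t ∈ s.filter (fun t => j ∈ A t), H t x ^ p t ∂M.π := by
          rw [lintegral_congr hint, lintegral_const_mul _ (Finset.measurable_prod _ fun t ht =>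
            (hHm t (mem_filter.1 ht).1).pow_const _)]
      _ ≤ ((∏ j ∈ B, ∏ t ∈ s.filter (fun t => j ∈ A t),
          (if M.nb j ⊆ A t then 1 else M.kap m) ^ p t) *
        ∏ t ∈ s.filter (fun t => j ∉ A t), (W t ω) ^ p t) *
        ∏ t ∈ s.filter (fun t => j ∈ A t), ((if M.nb j ⊆ A t then 1 else M.kap m) *
          ∫⁻ x, (∏ l ∈ M.lf r j ∩ A t, M.g j l x (ω l)) *
            W t (Function.update ω j x) ∂M.π) ^ p t := by
          refine mul_le_mul_right (hhold.trans (prod_le_prod' fun t ht => ?_)) _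
          have ht' := mem_filter.1 ht
          refine ENNReal.rpow_le_rpow ?_ (hp t ht'.1)
          exact M.one_cell near hnear hnear2 hm ht'.2 hB hr (hX t ht'.1) (hXc t ht'.1)
            (hXm t ht'.1) ω
      _ = _ := by
          rw [prod_insert hjB, ← prod_filter_mul_prod_filter_not s (fun t => j ∈ A t)
            (fun t => (lmarginal (fun _ : Γ => M.π) (insert j B ∩ A t)
              (fun ω => X t ω * M.wt (M.pr r (A t) (insert j B)) ω) ω) ^ p t)]
          have h6 : ∏ t ∈ s.filter (fun t => j ∈ A t), ((if M.nb j ⊆ A t then 1 else M.kap m) *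
              ∫⁻ x, (∏ l ∈ M.lf r j ∩ A t, M.g j l x (ω l)) *
                W t (Function.update ω j x) ∂M.π) ^ p t =
              (∏ t ∈ s.filter (fun t => j ∈ A t),
                (if M.nb j ⊆ A t then 1 else M.kap m) ^ p t) *
              ∏ t ∈ s.filter (fun t => j ∈ A t),
                (lmarginal (fun _ : Γ => M.π) (insert j B ∩ A t)
                (fun ω => X t ω * M.wt (M.pr r (A t) (insert j B)) ω) ω) ^ p t := by
            rw [← prod_mul_distrib]
            refine prod_congr rfl fun t ht => ?_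
            have ht' := mem_filter.1 ht
            rw [hWin t ht'.1 ht'.2, ENNReal.mul_rpow_of_nonneg _ _ (hp t ht'.1)]
          have h7 : ∏ t ∈ s.filter (fun t => j ∉ A t), (W t ω) ^ p t =
              ∏ t ∈ s.filter (fun t => j ∉ A t),
                (lmarginal (fun _ : Γ => M.π) (insert j B ∩ A t)
                (fun ω => X t ω * M.wt (M.pr r (A t) (insert j B)) ω) ω) ^ p t := by
            refine prod_congr rfl fun t ht => ?_
            rw [hWnew t (mem_filter.1 ht).1 (mem_filter.1 ht).2]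
          rw [h6, h7]
          ring

theorem fplus [Fintype Γ] [Countable C] {ι : Type} {r : Γ → ℕ} (hr : Function.Injective r)
    (near : Γ → Finset Γ) (hnear : ∀ j, M.nb j ⊆ near j)
    (hnear2 : ∀ j, ∀ i ∈ M.nb j, M.nb i ⊆ insert j (near j)) {m : ℕ}
    (hm : ∀ j, (near j).card ≤ m) (s : Finset ι) (A : ι → Finset Γ) (p : ι → ℝ)
    (hp : ∀ t ∈ s, 0 ≤ p t) (hcov : ∀ j : Γ, ∑ t ∈ s.filter (fun t => j ∈ A t), p t = 1)
    (X : ι → (Γ → E) → ENNReal) (hX : ∀ t ∈ s, Measurable (X t)) (hXc : ∀ t ∈ s, M.Coarse (X t))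
    (hXm : ∀ t ∈ s, ∀ i, M.MonoAt (X t) i)
    (hdep : ∀ t ∈ s, ∀ ω ω' : Γ → E, (∀ j ∈ A t, ω j = ω' j) → X t ω = X t ω')
    (ω0 : Γ → E) :
    ∫⁻ ω, M.wt (M.pr r univ univ) ω * ex (M.gain s A p r near univ ω) * ∏ t ∈ s, X t ω ^ p t
        ∂(Measure.pi fun _ => M.π) ≤
      (∏ j, ∏ t ∈ s.filter (fun t => j ∈ A t),
        (if M.nb j ⊆ A t then 1 else M.kap m) ^ p t) *
      ∏ t ∈ s, (lmarginal (fun _ : Γ => M.π) (A t)
        (fun ω => X t ω * M.wt (M.pr r (A t) univ) ω) ω0) ^ p t := by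
  obtain ⟨n, hn⟩ : ∃ n : ℕ, (univ.filter fun i => r i < n) = (univ : Finset Γ) := by
    obtain ⟨n, hn⟩ := (univ.image r : Finset ℕ).bddAbove
    refine ⟨n + 1, ?_⟩
    ext i
    rw [mem_filter]
    refine ⟨fun _ => mem_univ _, fun _ => ⟨mem_univ _, ?_⟩⟩
    have := hn (mem_coe.2 (mem_image_of_mem r (mem_univ i)))
    omega
  have h := M.fplus_aux hr near hnear hnear2 hm s A p hp hcov X hX hXc hXm hdep n ω0
  rw [hn] at h
  simp only [lmarginal_univ, univ_inter] at h
  exact h

end Fr

end Pool.Agent.Rg
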