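import Pool.Agent.Lib.MP_09cbbd_rg.Mid
import Pool.Agent.Lib.MP_09cbbd_rg.DLoc

/-!
# The gap and the two classes

Regime `Reg`: masses at most `5 L` are fluid, masses between `5 L` and `R / 10` have at most half
of the optimal value, masses above with a value above one half live on one arc of `b` bins.
-/

set_option autoImplicit false

namespace Pool.Agent.Rg

open Finset Real

variable {B : ℕ} [NeZero B]

theorem mass_nonneg {M : ZMod B → ℝ} (hM : ∀ j, 0 ≤ M j) : 0 ≤ mass M :=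
  sum_nonneg fun j _ => hM j

omit [NeZero B] in
theorem win_nonneg (b : ℕ) {M : ZMod B → ℝ} (hM : ∀ j, 0 ≤ M j) (t : ZMod B) :
    0 ≤ win b M t := sum_nonneg fun _ _ => hM _

theorem win_le_mass {b : ℕ} (h2 : b ≤ B) {M : ZMod B → ℝ} (hM : ∀ j, 0 ≤ M j) (t : ZMod B) :
    win b M t ≤ mass M := by
  rw [win_arc h2]
  exact sum_le_sum_of_subset_of_nonneg (subset_univ _) fun j _ _ => hM j

theorem res_arc (b : ℕ) (M : ZMod B → ℝ) (t : ZMod B) :
    res (arc b t) M = arcP t (fun k => M (t + (k : ZMod B))) b := by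
  funext j
  unfold res arcP
  have h1 : t + ((j - t).val : ZMod B) = j := by rw [ZMod.natCast_zmod_val]; ring
  by_cases h : (j - t).val < b
  · rw [if_pos (mem_arc.2 h), if_pos h]
    exact congrArg M h1.symm
  · rw [if_neg (fun hh => h (mem_arc.1 hh)), if_neg h]

theorem P_res {b : ℕ} (hb : 0 < b) (hB : 2 * b ≤ B) (ζ : ℝ) (M : ZMod B → ℝ) (t : ZMod B) :
    P b ζ (res (arc b t) M) = valL ζ b (fun k => M (t + (k : ZMod B))) b := by
  rw [res_arc, P_arcP hb le_rfl hB]

theorem sum_arc_compl {b : ℕ} (h2 : b ≤ B) (M : ZMod B → ℝ) (t : ZMod B) :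
    ∑ j ∈ (arc b t)ᶜ, M j = mass M - Sm (fun k => M (t + (k : ZMod B))) b := by
  have h1 : Sm (fun k => M (t + (k : ZMod B))) b = ∑ j ∈ arc b t, M j := by
    rw [← win_arc h2]; rfl
  rw [h1]
  unfold mass
  rw [← sum_add_sum_compl (arc b t)]
  ring

/-- the error of the localisation -/
noncomputable def er (L s A : ℝ) : ℝ := L * exp (s * L) * exp (-(A / 16))

/-- heavy profiles in terms of the line functional -/
theorem heavy_line {n b : ℕ} {ζ L s A K : ℝ} (h : Par n b ζ L s A K) (hB : B = n * b) (hA : 0 < A)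
    {M : ZMod B → ℝ} (hM : ∀ j, 0 ≤ M j) {t0 : ZMod B} (ht0 : A < win b M t0) :
    ∃ t : ZMod B, P b ζ M ≤ valL ζ b (fun k => M (t + (k : ZMod B))) b + er L s A -
      A / 16 * (mass M - Sm (fun k => M (t + (k : ZMod B))) b) := by
  obtain ⟨t, ht⟩ := heavy h hB hA hM ht0
  have h2 : 2 * b ≤ B := by rw [hB]; exact Nat.mul_le_mul_right b (by have := h.hn; omega)
  refine ⟨t, ?_⟩
  rw [P_res h.hb h2, sum_arc_compl (by omega)] at ht
  exact ht

/-- the line functional by the mass alone -/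
theorem valL_le {ζ b : ℝ} {m : ℕ → ℝ} {n : ℕ} (hz : 0 < ζ) (hb : 0 < b) (hm : ∀ k, 0 ≤ m k) :
    valL ζ b m n ≤ 2 * sg (√(b * ζ)) (Sm m n) + Sm m n ^ 2 / b := by
  have h1 := line_le (n := n) hz hb hm
  have hkl0 : 0 ≤ klL b m n :=
    sum_nonneg fun k hk => mul_nonneg (bt_nonneg hb hm (mem_range.1 hk).le)
      (ph_nonneg (div_nonneg (hm k) (bt_nonneg hb hm (mem_range.1 hk).le)))
  have h5 : 0 < √(b * ζ) := Real.sqrt_pos.2 (mul_pos hb hz)
  have h6 := sg_eq h5 (Sm_nonneg hm n)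
  rw [h6]
  linarith

/-- shrinking a heavy profile -/
theorem P_shrink {b : ℕ} {ζ t v : ℝ} (hζ : 0 < ζ) (ht : 0 < t) (ht1 : t ≤ 1) {M : ZMod B → ℝ}
    (hM : ∀ j, 0 ≤ M j) (hv : P b ζ (fun j => t * M j) ≤ v) (hvN : v ≤ t * mass M) :
    P b ζ M ≤ v := by
  have hN := mass_nonneg hM
  have hE := En_nonneg b hM
  rw [P_smul hζ ht hM] at hv
  have h1 : t * P b ζ M ≤ v + t * log t * mass M := by
    unfold P
    have h2 : t ^ 2 * (En b M / 2) ≤ t * (En b M / 2) := by
      have : t ^ 2 ≤ t := by nlinarith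
      exact mul_le_mul_of_nonneg_right this (by linarith)
    linarith
  have h3 : log t ≤ t - 1 := Real.log_le_sub_one_of_pos ht
  have h4 : t * log t * mass M ≤ (t - 1) * (t * mass M) := by
    have h5 : 0 ≤ t * mass M := mul_nonneg ht.le hN
    nlinarith
  have h6 : (t - 1) * (t * mass M) ≤ (t - 1) * v := by
    apply mul_le_mul_of_nonpos_left hvN; linarith
  have h7 : t * P b ζ M ≤ t * v := by linarith
  exact le_of_mul_le_mul_left h7 ht

/-- the regime -/
structure Reg (n b : ℕ) (ζ L s A K R : ℝ) : Prop extends Par n b ζ L s A K where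
  hR : R = √(b * ζ)
  hL20 : 20 ≤ L
  hKL4 : K ≤ L / 4
  hA5 : 5 * L ≤ A
  hR1 : L ^ 2 / 24 ≤ R
  hζ1 : ζ ≤ 1 / 100
  her : er L s A ≤ 1 / 100

namespace Reg

variable {n b : ℕ} {ζ L s A K R : ℝ}

theorem A_pos (h : Reg n b ζ L s A K R) : 0 < A := by
  have := h.hA5; have := h.hL20; linarith

theorem R_pos (h : Reg n b ζ L s A K R) : 0 < R := by
  have h1 := h.hR1; have h2 := h.hL20; nlinarith

theorem R_sq (h : Reg n b ζ L s A K R) : R ^ 2 = b * ζ := by
  rw [h.hR]; exact Real.sq_sqrt (mul_pos h.b_pos h.ζ_pos).le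

theorem er_nonneg (h : Reg n b ζ L s A K R) : 0 ≤ er L s A := by
  unfold er; have := h.hL; positivity

theorem sq_le (h : Reg n b ζ L s A K R) {N c : ℝ} (hN : 0 ≤ N) (hc : N ≤ c * R) :
    N ^ 2 / b ≤ c ^ 2 * ζ := by
  rw [div_le_iff₀ h.b_pos]
  have h1 : N ^ 2 ≤ (c * R) ^ 2 := pow_le_pow_left₀ hN hc 2
  rw [mul_pow, h.R_sq] at h1
  linarith

theorem Pf_ge (h : Reg n b ζ L s A K R) : L + 5 / 12 * L ^ 2 ≤ Pf L s := by
  unfold Pf
  have h1 := h.s_ge
  have h2 : 5 / 6 * L ^ 2 ≤ s * L ^ 2 := mul_le_mul_of_nonneg_right h1 (sq_nonneg L)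
  linarith

omit [NeZero B] in
theorem two_b (h : Reg n b ζ L s A K R) (hB : B = n * b) : 2 * b ≤ B := by
  rw [hB]; exact Nat.mul_le_mul_right b (by have := h.hn; omega)

/-- the light masses have light windows -/
theorem light (h : Reg n b ζ L s A K R) (hB : B = n * b) {M : ZMod B → ℝ} (hM : ∀ j, 0 ≤ M j)
    (hN : mass M ≤ 5 * L) (t : ZMod B) : win b M t ≤ A := by
  have h2 := h.two_b hB
  have h1 := win_le_mass (by omega : b ≤ B) hM t
  have := h.hA5
  linarith

/-- the value of a light profile -/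
theorem light_le (h : Reg n b ζ L s A K R) (hB : B = n * b) {M : ZMod B → ℝ} (hM : ∀ j, 0 ≤ M j)
    (hN : mass M ≤ 5 * L) : P b ζ M ≤ Pf L s := by
  obtain ⟨g, hg0, hg1, hg⟩ := fluid_class h.toPar hB hM (h.light hB hM hN)
  have hN0 := mass_nonneg hM
  have hL : 0 < L := by have := h.hL20; linarith
  have hB' : (0 : ℝ) < B := by exact_mod_cast NeZero.pos B
  have h1 := kl_nonneg hN0 hL
  have h2 : 0 ≤ s * (mass M - L) ^ 2 / 2 := by have := h.s_ge; positivity
  have h3 : 0 ≤ ∑ j, kl (M j) (mass M / B) := by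
    rcases hN0.eq_or_lt with h0 | hpos
    · have h1 : ∀ j, M j = 0 := fun j =>
        (sum_eq_zero_iff_of_nonneg fun j _ => hM j).1 (by unfold mass at h0; exact h0.symm) j
          (mem_univ j)
      rw [← h0]
      refine sum_nonneg fun j _ => ?_
      rw [h1]; simp [kl, sg]
    · exact sum_nonneg fun j _ => kl_nonneg (hM j) (div_pos hpos hB')
  have h4 : 0 ≤ (1 - g) * (L / 32) := mul_nonneg (by linarith) (by positivity)
  have h5 : 0 ≤ g * (kl (mass M) L + s * (mass M - L) ^ 2 / 2 +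
    (∑ j, kl (M j) (mass M / B)) / 2) := mul_nonneg hg0 (by linarith)
  linarith

/-- masses above the fluid: light windows or the line -/
theorem dich (h : Reg n b ζ L s A K R) (hB : B = n * b) {M : ZMod B → ℝ} (hM : ∀ j, 0 ≤ M j)
    (hN : 5 * L ≤ mass M) : P b ζ M ≤ L ^ 2 / 8 + L ∨ ∃ t : ZMod B,
      P b ζ M ≤ valL ζ b (fun k => M (t + (k : ZMod B))) b + er L s A -
      A / 16 * (mass M - Sm (fun k => M (t + (k : ZMod B))) b) := by
  by_cases hA : ∀ t, win b M t ≤ A
  · exact Or.inl (light_mid h.toPar hB h.hKL4 hM hA hN)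
  · push Not at hA
    obtain ⟨t0, ht0⟩ := hA
    exact Or.inr (heavy_line h.toPar hB h.A_pos hM ht0)

theorem Sm_le_mass (b : ℕ) (h2 : b ≤ B) {M : ZMod B → ℝ} (hM : ∀ j, 0 ≤ M j) (t : ZMod B) :
    Sm (fun k => M (t + (k : ZMod B))) b ≤ mass M := by
  have h1 : 0 ≤ ∑ j ∈ (arc b t)ᶜ, M j := sum_nonneg fun j _ => hM j
  rw [sum_arc_compl h2] at h1
  linarith

/-- THE GAP -/
theorem gap (h : Reg n b ζ L s A K R) (hB : B = n * b) {M : ZMod B → ℝ} (hM : ∀ j, 0 ≤ M j)
    (hN : 5 * L ≤ mass M) (hNR : mass M ≤ R / 10) :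
    P b ζ M ≤ max (Pf L s) (2 * R) / 2 := by
  have hL20 := h.hL20
  rcases h.dich hB hM hN with h1 | ⟨t, h1⟩
  · have h2 := h.Pf_ge
    have h3 := le_max_left (Pf L s) (2 * R)
    nlinarith
  · have h2 := h.two_b hB
    set m : ℕ → ℝ := fun k => M (t + (k : ZMod B)) with hm
    have hm0 : ∀ k, 0 ≤ m k := fun k => hM _
    have h3 : Sm m b ≤ mass M := Sm_le_mass b (by omega) hM t
    have h4 := valL_le (n := b) h.ζ_pos h.b_pos hm0
    rw [← h.hR] at h4
    have hR := h.R_pos
    have hS0 := Sm_nonneg hm0 b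
    have h5 := sg_le (mul_pos hR (exp_pos (-2))) hS0
    rw [sg_mul hR (exp_pos _) hS0, Real.log_exp] at h5
    have h6 := h.sq_le hS0 (c := 1 / 10) (by linarith)
    have h7 : exp (-2) ≤ 1 / 7 := by
      have h8 : exp (-2) = exp (-1) * exp (-1) := by rw [← exp_add]; norm_num
      have h9 : exp (-1) < 0.3678794412 := Real.exp_neg_one_lt_d9
      have h10 := exp_pos (-1 : ℝ)
      rw [h8]; nlinarith
    have h8 : R * exp (-2) ≤ R * (1 / 7) := mul_le_mul_of_nonneg_left h7 hR.le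
    have h9 : 0 ≤ A / 16 * (mass M - Sm m b) :=
      mul_nonneg (by have := h.A_pos; positivity) (by linarith)
    have h10 := le_max_right (Pf L s) (2 * R)
    have h11 := h.hζ1
    have h12 := h.her
    have h13 : 2 ≤ R := by have := h.hR1; nlinarith
    nlinarith

/-- upper bound of the functional -/
theorem upper (h : Reg n b ζ L s A K R) (hB : B = n * b) {M : ZMod B → ℝ} (hM : ∀ j, 0 ≤ M j) :
    P b ζ M ≤ max (Pf L s) (2 * R + 36 * ζ + er L s A) := by
  have hL20 := h.hL20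
  have hR := h.R_pos
  have h2 := h.two_b hB
  -- masses between `5 L` and `6 R`
  have key : ∀ M : ZMod B → ℝ, (∀ j, 0 ≤ M j) → 5 * L ≤ mass M → mass M ≤ 6 * R →
      P b ζ M ≤ max (L ^ 2 / 8 + L) (2 * R + 36 * ζ + er L s A) := by
    intro M hM hN hN6
    rcases h.dich hB hM hN with h1 | ⟨t, h1⟩
    · exact h1.trans (le_max_left _ _)
    · refine le_max_of_le_right ?_
      set m : ℕ → ℝ := fun k => M (t + (k : ZMod B)) with hm
      have hm0 : ∀ k, 0 ≤ m k := fun k => hM _
      have h3 : Sm m b ≤ mass M := Sm_le_mass b (by omega) hM t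
      have h4 := valL_le (n := b) h.ζ_pos h.b_pos hm0
      rw [← h.hR] at h4
      have hS0 := Sm_nonneg hm0 b
      have h5 := sg_le hR hS0
      have h6 := h.sq_le hS0 (c := 6) (by linarith)
      have h9 : 0 ≤ A / 16 * (mass M - Sm m b) :=
        mul_nonneg (by have := h.A_pos; positivity) (by linarith)
      linarith
  have hPf : L ^ 2 / 8 + L ≤ Pf L s := by
    have := h.Pf_ge; nlinarith
  rcases le_or_gt (mass M) (5 * L) with hN | hN
  · exact (h.light_le hB hM hN).trans (le_max_left _ _)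
  · rcases le_or_gt (mass M) (6 * R) with hN6 | hN6
    · exact (key M hM hN.le hN6).trans (max_le_max hPf le_rfl)
    · have hNpos : 0 < mass M := by linarith
      set t : ℝ := 6 * R / mass M with ht
      have ht0 : 0 < t := by positivity
      have ht1 : t ≤ 1 := by rw [ht, div_le_one hNpos]; exact hN6.le
      have htN : t * mass M = 6 * R := by rw [ht]; field_simp
      have hmt : mass (fun j => t * M j) = 6 * R := by
        rw [← htN]; unfold mass; rw [mul_sum]
      have hR1 := h.hR1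
      have h5L : 5 * L ≤ 6 * R := by
        by_contra hcon
        push Not at hcon
        nlinarith
      have h6R : L ^ 2 / 8 + L ≤ 6 * R := by nlinarith
      have h1 := key (fun j => t * M j) (fun j => mul_nonneg ht0.le (hM j))
        (by rw [hmt]; exact h5L) (by rw [hmt])
      have h3 : max (L ^ 2 / 8 + L) (2 * R + 36 * ζ + er L s A) ≤ 6 * R := by
        refine max_le h6R ?_
        have h11 := h.hζ1
        have h12 := h.her
        have h13 : 2 ≤ R := by nlinarith
        linarith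
      exact (P_shrink h.ζ_pos ht0 ht1 hM h1 (by rw [htN]; exact h3)).trans
        (max_le_max hPf le_rfl)

/-- near maximisers above the fluid: the mass -/
theorem mass_le (h : Reg n b ζ L s A K R) (hB : B = n * b) {M : ZMod B → ℝ} (hM : ∀ j, 0 ≤ M j)
    (hp : Pf L s ≤ 5 / 2 * R) (hP : 5 / 4 * R ≤ P b ζ M) : mass M ≤ 6 * R := by
  have h1 := crude (b := b) (p := 5 / 2 * R) h.ζ_pos (fun M' hM' => (h.upper hB hM').trans
    (max_le hp (by
      have h11 := h.hζ1
      have h12 := h.her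
      have h13 : 2 ≤ R := by have := h.hR1; have := h.hL20; nlinarith
      linarith))) hM
  have h2 : exp 1 < 2.7182818286 := Real.exp_one_lt_d9
  have hR := h.R_pos
  nlinarith

/-- near maximisers above the fluid live on one arc -/
theorem d_arc (h : Reg n b ζ L s A K R) (hB : B = n * b) {M : ZMod B → ℝ} (hM : ∀ j, 0 ≤ M j)
    (hN : 5 * L ≤ mass M) (hN6 : mass M ≤ 6 * R) {δ : ℝ}
    (hδ : L ^ 2 / 8 + L < 2 * R - δ) (hP : 2 * R - δ ≤ P b ζ M) :
    ∃ t : ZMod B,
      mass M - Sm (fun k => M (t + (k : ZMod B))) b ≤ 16 / A * (δ + 36 * ζ + er L s A) ∧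
      2 * R - (δ + er L s A) ≤ valL ζ b (fun k => M (t + (k : ZMod B))) b := by
  have hR := h.R_pos
  have h2 := h.two_b hB
  have hA := h.A_pos
  rcases h.dich hB hM hN with h1 | ⟨t, h1⟩
  · linarith
  · refine ⟨t, ?_, ?_⟩
    all_goals
      set m : ℕ → ℝ := fun k => M (t + (k : ZMod B)) with hm
      have hm0 : ∀ k, 0 ≤ m k := fun k => hM _
      have h3 : Sm m b ≤ mass M := Sm_le_mass b (by omega) hM t
      have h9 : 0 ≤ A / 16 * (mass M - Sm m b) := mul_nonneg (by positivity) (by linarith)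
    · have h4 := valL_le (n := b) h.ζ_pos h.b_pos hm0
      rw [← h.hR] at h4
      have hS0 := Sm_nonneg hm0 b
      have h5 := sg_le hR hS0
      have h6 := h.sq_le hS0 (c := 6) (by linarith)
      have h7 : A / 16 * (mass M - Sm m b) ≤ δ + 36 * ζ + er L s A := by linarith
      calc mass M - Sm m b = 16 / A * (A / 16 * (mass M - Sm m b)) := by field_simp
        _ ≤ _ := mul_le_mul_of_nonneg_left h7 (by positivity)
    · linarith

end Reg

end Pool.Agent.Rg
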