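import Mathlib

/-!
# Random sets of grains: bounded differences and existence
-/

set_option autoImplicit false

namespace Pool.Agent.Rg.Grain

open Finset

variable {ι : Type} [DecidableEq ι]

/-- Expectation of `f G` for a random subset `G` of `I` with independent indicators, where
`u ∉ G` has probability `q u`. -/
noncomputable def ev (q : ι → ℝ) (I : Finset ι) (f : Finset ι → ℝ) : ℝ :=
  ∑ G ∈ I.powerset, ((∏ u ∈ G, (1 - q u)) * ∏ u ∈ I \ G, q u) * f G

theorem ev_empty (q : ι → ℝ) (f : Finset ι → ℝ) : ev q ∅ f = f ∅ := by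
  simp [ev]

theorem ev_insert (q : ι → ℝ) {I : Finset ι} {i : ι} (hi : i ∉ I) (f : Finset ι → ℝ) :
    ev q (insert i I) f = q i * ev q I f + (1 - q i) * ev q I (fun G => f (insert i G)) := by
  unfold ev
  rw [sum_powerset_insert hi, mul_sum, mul_sum]
  congr 1
  · refine sum_congr rfl fun G hG => ?_
    have hiG : i ∉ G := fun h => hi (mem_powerset.1 hG h)
    rw [insert_sdiff_of_notMem _ hiG, prod_insert (fun h => hi (mem_sdiff.1 h).1)]
    ring
  · refine sum_congr rfl fun G hG => ?_
    have hiG : i ∉ G := fun h => hi (mem_powerset.1 hG h)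
    have h1 : insert i I \ insert i G = I \ G := by
      ext u
      simp only [mem_sdiff, mem_insert]
      constructor
      · rintro ⟨h2, h3⟩
        exact ⟨h2.resolve_left fun h => h3 (Or.inl h), fun h => h3 (Or.inr h)⟩
      · rintro ⟨h2, h3⟩
        refine ⟨Or.inr h2, ?_⟩
        rintro (rfl | h)
        · exact hi h2
        · exact h3 h
    rw [prod_insert hiG, h1]
    ring

theorem ev_add (q : ι → ℝ) (I : Finset ι) (f g : Finset ι → ℝ) :
    ev q I (fun G => f G + g G) = ev q I f + ev q I g := by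
  unfold ev
  rw [← sum_add_distrib]
  exact sum_congr rfl fun G _ => by ring

theorem ev_const_mul (q : ι → ℝ) (I : Finset ι) (c : ℝ) (f : Finset ι → ℝ) :
    ev q I (fun G => c * f G) = c * ev q I f := by
  unfold ev
  rw [mul_sum]
  exact sum_congr rfl fun G _ => by ring

theorem ev_sum {κ : Type} (q : ι → ℝ) (I : Finset ι) (s : Finset κ) (f : κ → Finset ι → ℝ) :
    ev q I (fun G => ∑ k ∈ s, f k G) = ∑ k ∈ s, ev q I (f k) := by
  unfold ev
  rw [sum_comm]
  exact sum_congr rfl fun G _ => by rw [mul_sum]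

theorem ev_const (q : ι → ℝ) (I : Finset ι) (c : ℝ) : ev q I (fun _ => c) = c := by
  induction I using Finset.induction_on with
  | empty => exact ev_empty q _
  | insert i I hi ih =>
    rw [ev_insert q hi, ih]
    ring

theorem ev_mono {q : ι → ℝ} (hq : ∀ u, 0 ≤ q u) (hq1 : ∀ u, q u ≤ 1) (I : Finset ι)
    {f g : Finset ι → ℝ} (h : ∀ G ⊆ I, f G ≤ g G) : ev q I f ≤ ev q I g := by
  unfold ev
  refine sum_le_sum fun G hG => mul_le_mul_of_nonneg_left (h G (mem_powerset.1 hG)) ?_
  exact mul_nonneg (prod_nonneg fun u _ => by linarith [hq1 u]) (prod_nonneg fun u _ => hq u)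

/-- Some value is at most the expectation. -/
theorem exists_lt {q : ι → ℝ} (hq : ∀ u, 0 ≤ q u) (hq1 : ∀ u, q u ≤ 1) {I : Finset ι}
    {f : Finset ι → ℝ} {c : ℝ} (h : ev q I f < c) : ∃ G ⊆ I, f G < c := by
  by_contra h1
  push Not at h1
  have h2 := ev_mono hq hq1 I (f := fun _ => c) (g := f) h1
  rw [ev_const] at h2
  linarith

/-- The exponential moment of a two point variable. -/
theorem two_point {a x y c t : ℝ} (ha : 0 ≤ a) (ha1 : a ≤ 1) (hc : |x - y| ≤ c) :
    a * Real.exp (t * (x - (a * x + (1 - a) * y))) +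
      (1 - a) * Real.exp (t * (y - (a * x + (1 - a) * y))) ≤ Real.exp (t ^ 2 * c ^ 2 / 2) := by
  set D := x - y with hD
  have h1 : t * (x - (a * x + (1 - a) * y)) = t * ((1 - a) * D) := by
    rw [hD]
    ring
  have h2 : t * (y - (a * x + (1 - a) * y)) = t * (-(a * D)) := by
    rw [hD]
    ring
  rw [h1, h2]
  -- convexity of `exp` on `[-|tD|, |tD|]`
  have key : ∀ s : ℝ, |s| ≤ 1 → Real.exp (t * D * s) ≤
      (1 + s) / 2 * Real.exp (t * D) + (1 - s) / 2 * Real.exp (-(t * D)) := by
    intro s hs
    have h3 := abs_le.1 hs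
    have h4 := convexOn_exp.2 (Set.mem_univ (t * D)) (Set.mem_univ (-(t * D)))
      (show 0 ≤ (1 + s) / 2 by linarith) (show 0 ≤ (1 - s) / 2 by linarith) (by ring)
    simp only [smul_eq_mul] at h4
    have h5 : (1 + s) / 2 * (t * D) + (1 - s) / 2 * (-(t * D)) = t * D * s := by ring
    rw [h5] at h4
    exact h4
  have h3 := key (1 - a) (by rw [abs_le]; constructor <;> linarith)
  have h4 := key (-a) (by rw [abs_le]; constructor <;> linarith)
  have h5 : t * ((1 - a) * D) = t * D * (1 - a) := by ring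
  have h6 : t * (-(a * D)) = t * D * (-a) := by ring
  rw [h5, h6]
  have h7 : a * Real.exp (t * D * (1 - a)) + (1 - a) * Real.exp (t * D * (-a)) ≤
      Real.cosh (t * D) := by
    rw [Real.cosh_eq]
    have h8 := mul_le_mul_of_nonneg_left h3 ha
    have h9 := mul_le_mul_of_nonneg_left h4 (show 0 ≤ 1 - a by linarith)
    nlinarith [h8, h9]
  refine h7.trans ((Real.cosh_le_exp_half_sq _).trans (Real.exp_le_exp.2 ?_))
  have h8 : D ^ 2 ≤ c ^ 2 := by
    rw [← sq_abs D]
    exact pow_le_pow_left₀ (abs_nonneg _) hc 2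
  nlinarith [mul_le_mul_of_nonneg_left h8 (sq_nonneg t)]

/-- Bounded differences. -/
theorem bdd_diff {q : ι → ℝ} (hq : ∀ u, 0 ≤ q u) (hq1 : ∀ u, q u ≤ 1) (t : ℝ) (c : ι → ℝ)
    (I : Finset ι) (f : Finset ι → ℝ)
    (hf : ∀ G ⊆ I, ∀ u ∈ I, |f (insert u G) - f (G.erase u)| ≤ c u) :
    ev q I (fun G => Real.exp (t * (f G - ev q I f))) ≤
      Real.exp (t ^ 2 * (∑ u ∈ I, c u ^ 2) / 2) := by
  induction I using Finset.induction_on generalizing f with
  | empty => simp [ev_empty]
  | insert i I hi ih =>
    set g : Finset ι → ℝ := fun G => f (insert i G) with hg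
    have hE : ev q (insert i I) f = q i * ev q I f + (1 - q i) * ev q I g := ev_insert q hi f
    have h0 := ih f (by
      intro G hG u hu
      exact hf G (hG.trans (subset_insert _ _)) u (mem_insert_of_mem hu))
    have h1 := ih g (by
      intro G hG u hu
      have hui : u ≠ i := by
        rintro rfl
        exact hi hu
      have h2 := hf (insert i G) (insert_subset_insert _ hG) u (mem_insert_of_mem hu)
      rw [hg]
      simp only
      rw [insert_comm, ← erase_insert_of_ne hui.symm]
      exact h2)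
    rw [ev_insert q hi]
    -- bound of the difference of the two conditional expectations
    have h2 : |ev q I f - ev q I g| ≤ c i := by
      have h3 : ev q I f - ev q I g = ev q I (fun G => f G + (-1) * g G) := by
        rw [ev_add, ev_const_mul]
        ring
      have h4 : ∀ G ⊆ I, |f G + (-1) * g G| ≤ c i := by
        intro G hG
        have hiG : i ∉ G := fun h => hi (hG h)
        have h5 := hf G (hG.trans (subset_insert _ _)) i (mem_insert_self _ _)
        rw [erase_eq_of_notMem hiG, abs_sub_comm] at h5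
        rw [hg]
        simp only
        rw [neg_one_mul, ← sub_eq_add_neg]
        exact h5
      rw [h3, abs_le]
      constructor
      · have h5 := ev_mono hq hq1 I (f := fun _ => -c i) (g := fun G => f G + (-1) * g G)
          fun G hG => (abs_le.1 (h4 G hG)).1
        rwa [ev_const] at h5
      · have h5 := ev_mono hq hq1 I (f := fun G => f G + (-1) * g G) (g := fun _ => c i)
          fun G hG => (abs_le.1 (h4 G hG)).2
        rwa [ev_const] at h5
    have h3 := two_point (t := t) (hq i) (hq1 i) h2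
    rw [← hE] at h3
    have h4 : ∀ f' : Finset ι → ℝ, ev q I (fun G => Real.exp (t * (f' G - ev q (insert i I) f))) =
        Real.exp (t * (ev q I f' - ev q (insert i I) f)) *
          ev q I (fun G => Real.exp (t * (f' G - ev q I f'))) := by
      intro f'
      rw [← ev_const_mul]
      congr 1
      funext G
      rw [← Real.exp_add]
      congr 1
      ring
    rw [h4 f]
    have h5 : ev q I (fun G => Real.exp (t * (f (insert i G) - ev q (insert i I) f))) =
        Real.exp (t * (ev q I g - ev q (insert i I) f)) *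
          ev q I (fun G => Real.exp (t * (g G - ev q I g))) := h4 g
    rw [h5, sum_insert hi]
    set S := ∑ u ∈ I, c u ^ 2 with hS
    have h6 : Real.exp (t ^ 2 * (c i ^ 2 + S) / 2) =
        Real.exp (t ^ 2 * c i ^ 2 / 2) * Real.exp (t ^ 2 * S / 2) := by
      rw [← Real.exp_add]
      congr 1
      ring
    rw [h6]
    set X := Real.exp (t * (ev q I f - ev q (insert i I) f)) with hX
    set Y := Real.exp (t * (ev q I g - ev q (insert i I) f)) with hY
    have hX0 : 0 ≤ X := (Real.exp_pos _).le
    have hY0 : 0 ≤ Y := (Real.exp_pos _).le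
    have hq2 : 0 ≤ 1 - q i := by linarith [hq1 i]
    calc q i * (X * ev q I fun G => Real.exp (t * (f G - ev q I f))) +
          (1 - q i) * (Y * ev q I fun G => Real.exp (t * (g G - ev q I g)))
        ≤ q i * (X * Real.exp (t ^ 2 * S / 2)) + (1 - q i) * (Y * Real.exp (t ^ 2 * S / 2)) := by
          refine add_le_add ?_ ?_
          · exact mul_le_mul_of_nonneg_left (mul_le_mul_of_nonneg_left h0 hX0) (hq i)
          · exact mul_le_mul_of_nonneg_left (mul_le_mul_of_nonneg_left h1 hY0) hq2
      _ = (q i * X + (1 - q i) * Y) * Real.exp (t ^ 2 * S / 2) := by ring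
      _ ≤ _ := mul_le_mul_of_nonneg_right h3 (Real.exp_pos _).le

/-- Existence of a set for which finitely many functions with bounded differences are all close to
their expectations. -/
theorem exists_close {κ : Type} {q : ι → ℝ} (hq : ∀ u, 0 ≤ q u) (hq1 : ∀ u, q u ≤ 1)
    (I : Finset ι) (J : Finset κ) (f : κ → Finset ι → ℝ) (c : ι → ℝ)
    (hf : ∀ k ∈ J, ∀ G ⊆ I, ∀ u ∈ I, |f k (insert u G) - f k (G.erase u)| ≤ c u)
    {S s : ℝ} (hS : ∑ u ∈ I, c u ^ 2 ≤ S) (hS0 : 0 < S) (hs : 0 < s)
    (hJ : 2 * (J.card : ℝ) * Real.exp (-(s ^ 2 / (2 * S))) < 1) :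
    ∃ G ⊆ I, ∀ k ∈ J, |f k G - ev q I (f k)| < s := by
  set t := s / S with ht
  have ht0 : 0 < t := div_pos hs hS0
  have h1 : ∀ t' : ℝ, t' ^ 2 = t ^ 2 → ∀ k ∈ J,
      ev q I (fun G => Real.exp (t' * (f k G - ev q I (f k)))) ≤ Real.exp (t ^ 2 * S / 2) := by
    intro t' ht' k hk
    refine (bdd_diff hq hq1 t' c I (f k) (hf k hk)).trans (Real.exp_le_exp.2 ?_)
    rw [ht']
    nlinarith [mul_le_mul_of_nonneg_left hS (sq_nonneg t)]
  have h2 : ev q I (fun G => ∑ k ∈ J, (Real.exp (t * (f k G - ev q I (f k))) +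
      Real.exp (-t * (f k G - ev q I (f k))))) < Real.exp (t * s) := by
    rw [ev_sum]
    have h3 : ∀ k ∈ J, ev q I (fun G => Real.exp (t * (f k G - ev q I (f k))) +
        Real.exp (-t * (f k G - ev q I (f k)))) ≤ 2 * Real.exp (t ^ 2 * S / 2) := by
      intro k hk
      rw [ev_add]
      have h4 := h1 t rfl k hk
      have h5 := h1 (-t) (by ring) k hk
      linarith
    refine (sum_le_sum h3).trans_lt ?_
    rw [sum_const, nsmul_eq_mul]
    have h4 : Real.exp (t ^ 2 * S / 2) = Real.exp (-(s ^ 2 / (2 * S))) * Real.exp (t * s) := by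
      rw [← Real.exp_add]
      congr 1
      rw [ht]
      field_simp
      ring
    rw [h4]
    calc (J.card : ℝ) * (2 * (Real.exp (-(s ^ 2 / (2 * S))) * Real.exp (t * s)))
        = (2 * (J.card : ℝ) * Real.exp (-(s ^ 2 / (2 * S)))) * Real.exp (t * s) := by ring
      _ < 1 * Real.exp (t * s) := mul_lt_mul_of_pos_right hJ (Real.exp_pos _)
      _ = _ := one_mul _
  obtain ⟨G, hG, h3⟩ := exists_lt hq hq1 h2
  refine ⟨G, hG, fun k hk => ?_⟩
  have h4 : Real.exp (t * (f k G - ev q I (f k))) + Real.exp (-t * (f k G - ev q I (f k))) <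
      Real.exp (t * s) := by
    refine lt_of_le_of_lt ?_ h3
    exact single_le_sum (f := fun k => Real.exp (t * (f k G - ev q I (f k))) +
      Real.exp (-t * (f k G - ev q I (f k)))) (fun k _ => by positivity) hk
  have h5 : Real.exp (t * (f k G - ev q I (f k))) < Real.exp (t * s) := by
    have := Real.exp_pos (-t * (f k G - ev q I (f k)))
    linarith
  have h6 : Real.exp (-t * (f k G - ev q I (f k))) < Real.exp (t * s) := by
    have := Real.exp_pos (t * (f k G - ev q I (f k)))
    linarith
  rw [Real.exp_lt_exp] at h5 h6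
  rw [abs_lt]
  constructor
  · have h7 : t * (-(f k G - ev q I (f k))) < t * s := by linarith
    have h8 := lt_of_mul_lt_mul_left h7 ht0.le
    linarith
  · exact lt_of_mul_lt_mul_left h5 ht0.le

end Pool.Agent.Rg.Grain
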