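import Mathlib

set_option autoImplicit false

/-!
Isoperimetry in a box of `Z^d` by lattice paths (one coordinate after the other).
`isoBox`: the box; `crs`: the interface edges of a predicate in the box.
-/

namespace Pool.Agent.Rg

open Finset Function

variable {d : ℕ}

/-- The box `a + [0,n)^d`. -/
noncomputable def isoBox (a : Fin d → ℤ) (n : ℕ) : Finset (Fin d → ℤ) :=
  Fintype.piFinset (fun i => Finset.Ico (a i) (a i + n))

theorem mem_isoBox {a : Fin d → ℤ} {n : ℕ} {x : Fin d → ℤ} :
    x ∈ isoBox a n ↔ ∀ i, a i ≤ x i ∧ x i < a i + n := by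
  simp [isoBox, Fintype.mem_piFinset]

theorem card_isoBox (a : Fin d → ℤ) (n : ℕ) : (isoBox a n).card = n ^ d := by
  simp [isoBox, Fintype.card_piFinset]

/-- Edges `(x, x + e_i)` inside the box at which `P` changes. -/
noncomputable def crs (P : (Fin d → ℤ) → Prop) (a : Fin d → ℤ) (n : ℕ) :
    Finset ((Fin d → ℤ) × Fin d) := by
  classical
  exact (isoBox a n ×ˢ univ).filter
    (fun q => q.1 q.2 + 1 < a q.2 + n ∧ ¬ (P q.1 ↔ P (update q.1 q.2 (q.1 q.2 + 1))))

theorem mem_crs {P : (Fin d → ℤ) → Prop} {a : Fin d → ℤ} {n : ℕ} {q : (Fin d → ℤ) × Fin d} :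
    q ∈ crs P a n ↔ q.1 ∈ isoBox a n ∧ q.1 q.2 + 1 < a q.2 + n ∧
      ¬ (P q.1 ↔ P (update q.1 q.2 (q.1 q.2 + 1))) := by
  classical
  simp [crs]

/-- Discrete intermediate value: a change between `s` and `t`. -/
theorem line_cross (g : ℤ → Prop) (s : ℤ) (k : ℕ) (h : ¬ (g s ↔ g (s + k))) :
    ∃ t, s ≤ t ∧ t < s + k ∧ ¬ (g t ↔ g (t + 1)) := by
  induction k with
  | zero => simp at h
  | succ k ih =>
    by_cases h1 : (g s ↔ g (s + k))
    · refine ⟨s + k, by omega, by push_cast; omega, ?_⟩
      intro h2
      apply h
      rw [h1, h2]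
      push_cast
      rw [add_assoc]
    · obtain ⟨t, h2, h3, h4⟩ := ih h1
      exact ⟨t, h2, by push_cast; omega, h4⟩

/-- A change between two integers, in any order. -/
theorem line_cross' (g : ℤ → Prop) (s t : ℤ) (h : ¬ (g s ↔ g t)) :
    ∃ u, min s t ≤ u ∧ u < max s t ∧ ¬ (g u ↔ g (u + 1)) := by
  rcases le_total s t with h1 | h1
  · obtain ⟨k, hk⟩ := Int.eq_ofNat_of_zero_le (sub_nonneg.2 h1)
    have h2 : t = s + k := by omega
    subst h2
    obtain ⟨u, h3, h4, h5⟩ := line_cross g s k h
    exact ⟨u, by omega, by omega, h5⟩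
  · obtain ⟨k, hk⟩ := Int.eq_ofNat_of_zero_le (sub_nonneg.2 h1)
    have h2 : s = t + k := by omega
    subst h2
    obtain ⟨u, h3, h4, h5⟩ := line_cross g t k (fun hh => h hh.symm)
    exact ⟨u, by omega, by omega, h5⟩

/-- Hybrid: the first `i` coordinates from `y`, the others from `x`. -/
def hyb (x y : Fin d → ℤ) (i : ℕ) : Fin d → ℤ := fun j => if (j : ℕ) < i then y j else x j

theorem hyb_zero (x y : Fin d → ℤ) : hyb x y 0 = x := by
  funext j; simp [hyb]

theorem hyb_last (x y : Fin d → ℤ) : hyb x y d = y := by
  funext j; simp [hyb]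

theorem hyb_succ (x y : Fin d → ℤ) (i : Fin d) :
    hyb x y (i + 1) = update (hyb x y i) i (y i) := by
  funext j
  by_cases h : j = i
  · subst h; simp [hyb]
  · rw [update_of_ne h]
    have h1 : (j : ℕ) ≠ i := fun hh => h (Fin.ext hh)
    unfold hyb
    by_cases h2 : (j : ℕ) < i
    · rw [if_pos h2, if_pos (by omega)]
    · rw [if_neg h2, if_neg (by omega)]

theorem hyb_self (x y : Fin d → ℤ) (i : Fin d) : hyb x y i i = x i := by
  simp [hyb]

theorem hyb_step (P : (Fin d → ℤ) → Prop) (x y : Fin d → ℤ) (hx : P x) (hy : ¬ P y) :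
    ∃ i : Fin d, P (hyb x y i) ∧ ¬ P (hyb x y (i + 1)) := by
  by_contra hcon
  push Not at hcon
  have key : ∀ i : ℕ, i ≤ d → P (hyb x y i) := by
    intro i
    induction i with
    | zero => intro _; rw [hyb_zero]; exact hx
    | succ i ih =>
      intro h
      exact hcon ⟨i, by omega⟩ (ih (by omega))
  apply hy
  have := key d le_rfl
  rwa [hyb_last] at this

/-- Every pair of points of different type has an interface edge on its lattice path. -/
theorem path_cross (P : (Fin d → ℤ) → Prop) (a : Fin d → ℤ) (n : ℕ) (x y : Fin d → ℤ)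
    (hx : x ∈ isoBox a n) (hy : y ∈ isoBox a n) (hPx : P x) (hPy : ¬ P y) :
    ∃ (i : Fin d) (t : ℤ), (update (hyb x y i) i t, i) ∈ crs P a n := by
  obtain ⟨i, h1, h2⟩ := hyb_step P x y hPx hPy
  rw [hyb_succ] at h2
  have h1' : P (update (hyb x y i) i (x i)) := by
    rw [← hyb_self x y i, update_eq_self]; exact h1
  obtain ⟨u, h3, h4, h5⟩ := line_cross' (fun t => P (update (hyb x y i) i t)) (x i) (y i)
    (fun hh => h2 (hh.1 h1'))
  rw [mem_isoBox] at hx hy
  refine ⟨i, u, ?_⟩
  rw [mem_crs]
  refine ⟨?_, ?_, ?_⟩
  · rw [mem_isoBox]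
    intro j
    by_cases hj : j = i
    · subst hj
      simp only [update_self]
      have := hx j; have := hy j
      omega
    · show a j ≤ update (hyb x y i) i u j ∧ update (hyb x y i) i u j < a j + n
      rw [update_of_ne hj]
      unfold hyb
      split_ifs
      · exact hy j
      · exact hx j
  · simp only [update_self]
    have := hx i; have := hy i
    omega
  · simpa using h5

/-- (I1) product form: `#A * #A^c <= #interface * n^(d+1)`. -/
theorem iso_prod (P : (Fin d → ℤ) → Prop) [DecidablePred P] (a : Fin d → ℤ) (n : ℕ) :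
    ((isoBox a n).filter P).card * ((isoBox a n).filter (fun x => ¬ P x)).card
      ≤ (crs P a n).card * (n ^ d * n) := by
  classical
  have h1 : (((isoBox a n).filter P) ×ˢ ((isoBox a n).filter (fun x => ¬ P x))).card
      ≤ (crs P a n ×ˢ (isoBox a n ×ˢ range n)).card := by
    refine Finset.card_le_card_of_forall_subsingleton
      (fun (q : (Fin d → ℤ) × (Fin d → ℤ)) (b : ((Fin d → ℤ) × Fin d) × ((Fin d → ℤ) × ℕ)) =>
        b.1.1 = update (hyb q.1 q.2 b.1.2) b.1.2 (b.1.1 b.1.2) ∧ b.2.1 = hyb q.2 q.1 b.1.2 ∧
          (b.2.2 : ℤ) = q.1 b.1.2 - a b.1.2) ?_ ?_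
    · rintro ⟨x, y⟩ hq
      rw [mem_product, mem_filter, mem_filter] at hq
      obtain ⟨⟨hx, hPx⟩, ⟨hy, hPy⟩⟩ := hq
      obtain ⟨i, t, h5⟩ := path_cross P a n x y hx hy hPx hPy
      refine ⟨((update (hyb x y i) i t, i), (hyb y x i, (x i - a i).toNat)), ?_, ?_, rfl, ?_⟩
      · rw [mem_product, mem_product]
        refine ⟨h5, ?_, ?_⟩
        · rw [mem_isoBox] at hx hy ⊢
          intro j
          show a j ≤ hyb y x i j ∧ hyb y x i j < a j + n
          unfold hyb
          split_ifs
          · exact hx j
          · exact hy j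
        · rw [mem_isoBox] at hx
          have h6 : a i ≤ x i ∧ x i < a i + n := hx i
          rw [mem_range]
          show (x i - a i).toNat < n
          omega
      · simp
      · rw [mem_isoBox] at hx
        have h6 : a i ≤ x i ∧ x i < a i + n := hx i
        show (((x i - a i).toNat : ℕ) : ℤ) = x i - a i
        omega
    · rintro ⟨⟨p, i⟩, ⟨w, s⟩⟩ _ ⟨x, y⟩ hq ⟨x', y'⟩ hq'
      obtain ⟨_, e1, e2, e3⟩ := hq
      obtain ⟨_, f1, f2, f3⟩ := hq'
      simp only at e1 e2 e3 f1 f2 f3
      have hxx : x = x' := by
        funext j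
        rcases lt_trichotomy (j : ℕ) i with hj | hj | hj
        · have g1 := congrFun e2 j
          have g2 := congrFun f2 j
          simp only [hyb, if_pos hj] at g1 g2
          rw [← g1, ← g2]
        · have hji : j = i := Fin.ext hj
          subst hji
          omega
        · have hji : j ≠ i := fun hh => by subst hh; omega
          have g1 := congrFun e1 j
          have g2 := congrFun f1 j
          rw [update_of_ne hji] at g1 g2
          simp only [hyb, if_neg (not_lt.2 hj.le)] at g1 g2
          rw [← g1, ← g2]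
      have hyy : y = y' := by
        funext j
        by_cases hj : (j : ℕ) < i
        · have hji : j ≠ i := fun hh => by subst hh; omega
          have g1 := congrFun e1 j
          have g2 := congrFun f1 j
          rw [update_of_ne hji] at g1 g2
          simp only [hyb, if_pos hj] at g1 g2
          rw [← g1, ← g2]
        · have g1 := congrFun e2 j
          have g2 := congrFun f2 j
          simp only [hyb, if_neg hj] at g1 g2
          rw [← g1, ← g2]
      rw [hxx, hyy]
  rwa [card_product, card_product, card_product, card_isoBox, card_range] at h1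

/-- (I1): the minority has at most `2 n #interface` points. -/
theorem iso_min (P : (Fin d → ℤ) → Prop) [DecidablePred P] (a : Fin d → ℤ) (n : ℕ) :
    min ((isoBox a n).filter P).card ((isoBox a n).filter (fun x => ¬ P x)).card
      ≤ 2 * n * (crs P a n).card := by
  classical
  have h1 := iso_prod P a n
  have h2 : ((isoBox a n).filter P).card + ((isoBox a n).filter (fun x => ¬ P x)).card
      = n ^ d := by
    rw [Finset.card_filter_add_card_filter_not, card_isoBox]
  set A := ((isoBox a n).filter P).card
  set B := ((isoBox a n).filter (fun x => ¬ P x)).card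
  set c := (crs P a n).card
  by_contra hcon
  push Not at hcon
  rw [lt_min_iff] at hcon
  obtain ⟨h3, h4⟩ := hcon
  have hpos : 0 < n ^ d := by omega
  rcases le_total A B with h6 | h6
  · have h7 : n ^ d ≤ 2 * B := by omega
    have h8 : (2 * n * c) * n ^ d < A * (2 * B) :=
      lt_of_lt_of_le (Nat.mul_lt_mul_of_pos_right h3 hpos) (Nat.mul_le_mul_left _ h7)
    nlinarith
  · have h7 : n ^ d ≤ 2 * A := by omega
    have h8 : (2 * n * c) * n ^ d < B * (2 * A) :=
      lt_of_lt_of_le (Nat.mul_lt_mul_of_pos_right h4 hpos) (Nat.mul_le_mul_left _ h7)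
    nlinarith

/-- Corner of the subbox with index `c` (side `m`). -/
def subc (a : Fin d → ℤ) (m : ℕ) (c : Fin d → ℤ) : Fin d → ℤ := fun i => a i + m * c i

/-- Index of the subbox of a point. -/
def idx (a : Fin d → ℤ) (m : ℕ) (x : Fin d → ℤ) : Fin d → ℤ := fun i => (x i - a i) / m

theorem idx_mem {a : Fin d → ℤ} {m k : ℕ} (hm : 0 < m) {x : Fin d → ℤ}
    (hx : x ∈ isoBox a (m * k)) : idx a m x ∈ isoBox (0 : Fin d → ℤ) k := by
  rw [mem_isoBox] at hx ⊢
  intro i
  have h1 := hx i
  have hm' : (0 : ℤ) < m := by exact_mod_cast hm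
  have h2 : 0 ≤ x i - a i := by omega
  have h3 : x i - a i < m * k := by push_cast at h1; omega
  show (0 : ℤ) ≤ (x i - a i) / m ∧ (x i - a i) / m < 0 + k
  refine ⟨Int.ediv_nonneg h2 hm'.le, ?_⟩
  rw [zero_add]
  exact Int.ediv_lt_of_lt_mul hm' (by rw [mul_comm]; exact h3)

theorem mem_sub_iff {a : Fin d → ℤ} {m : ℕ} (hm : 0 < m) {x c : Fin d → ℤ} :
    x ∈ isoBox (subc a m c) m ↔ idx a m x = c := by
  have hm' : (0 : ℤ) < m := by exact_mod_cast hm
  rw [mem_isoBox]
  constructor
  · intro h
    funext i
    have h1 := h i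
    show (x i - a i) / m = c i
    unfold subc at h1
    rw [Int.ediv_eq_iff_of_pos hm']
    have g1 : c i * m = m * c i := mul_comm _ _
    have g2 : (c i + 1) * m = m * c i + m := by ring
    constructor <;> omega
  · intro h i
    have h1 : (x i - a i) / m = c i := congrFun h i
    rw [Int.ediv_eq_iff_of_pos hm'] at h1
    obtain ⟨h2, h3⟩ := h1
    unfold subc
    have : c i * m = m * c i := mul_comm _ _
    have : (c i + 1) * m = m * c i + m := by ring
    constructor <;> omega

theorem sub_subset {a : Fin d → ℤ} {m k : ℕ} (hm : 0 < m) {c : Fin d → ℤ}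
    (hc : c ∈ isoBox (0 : Fin d → ℤ) k) :
    isoBox (subc a m c) m ⊆ isoBox a (m * k) := by
  intro x hx
  rw [mem_isoBox] at hx hc ⊢
  intro i
  have h1 := hx i
  have h2 := hc i
  unfold subc at h1
  simp only [Pi.zero_apply, zero_add] at h2
  have h3 : (m : ℤ) * c i ≤ m * (k - 1) := by
    apply mul_le_mul_of_nonneg_left _ (by positivity)
    omega
  have h4 : (0 : ℤ) ≤ m * c i := mul_nonneg (by positivity) h2.1
  push_cast
  constructor
  · omega
  · have : (m : ℤ) * (k - 1) = m * k - m := by ring
    omega

/-- Points of the big box with property `R`, counted in the subboxes. -/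
theorem card_sub_sum (R : (Fin d → ℤ) → Prop) [DecidablePred R] (a : Fin d → ℤ) {m : ℕ} (k : ℕ)
    (hm : 0 < m) : ((isoBox a (m * k)).filter R).card
      = ∑ c ∈ isoBox (0 : Fin d → ℤ) k, ((isoBox (subc a m c) m).filter R).card := by
  classical
  rw [Finset.card_eq_sum_card_fiberwise (f := idx a m) (t := isoBox (0 : Fin d → ℤ) k)]
  · apply Finset.sum_congr rfl
    intro c hc
    congr 1
    ext x
    rw [mem_filter, mem_filter, mem_filter, mem_sub_iff hm]
    constructor
    · rintro ⟨⟨h1, h2⟩, h3⟩
      exact ⟨h3, h2⟩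
    · rintro ⟨h1, h2⟩
      exact ⟨⟨sub_subset hm hc ((mem_sub_iff hm).2 h1), h2⟩, h1⟩
  · intro x hx
    rw [coe_filter, Set.mem_ofPred_eq] at hx
    exact idx_mem hm hx.1

/-- The interfaces of the subboxes together are part of the interface of the box. -/
theorem crs_sub_sum (P : (Fin d → ℤ) → Prop) (a : Fin d → ℤ) {m : ℕ} (k : ℕ) (hm : 0 < m) :
    ∑ c ∈ isoBox (0 : Fin d → ℤ) k, (crs P (subc a m c) m).card ≤ (crs P a (m * k)).card := by
  classical
  rw [← Finset.card_biUnion]
  · apply Finset.card_le_card
    intro q hq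
    rw [mem_biUnion] at hq
    obtain ⟨c, hc, hq⟩ := hq
    rw [mem_crs] at hq ⊢
    refine ⟨sub_subset hm hc hq.1, ?_, hq.2.2⟩
    have h1 := hq.2.1
    rw [mem_isoBox] at hc
    have h2 := hc q.2
    unfold subc at h1
    simp only [Pi.zero_apply, zero_add] at h2
    have h3 : (m : ℤ) * c q.2 ≤ m * (k - 1) := by
      apply mul_le_mul_of_nonneg_left _ (by positivity)
      omega
    have : (m : ℤ) * (k - 1) = m * k - m := by ring
    push_cast
    omega
  · intro c _ c' _ hne
    rw [Function.onFun, Finset.disjoint_left]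
    intro q hq hq'
    rw [mem_crs, mem_sub_iff hm] at hq hq'
    exact hne (hq.1.symm.trans hq'.1)

theorem crs_sub_le (P : (Fin d → ℤ) → Prop) (a : Fin d → ℤ) {m : ℕ} (k : ℕ) (hm : 0 < m)
    {c : Fin d → ℤ} (hc : c ∈ isoBox (0 : Fin d → ℤ) k) :
    (crs P (subc a m c) m).card ≤ (crs P a (m * k)).card :=
  le_trans (Finset.single_le_sum (f := fun c => (crs P (subc a m c) m).card)
    (fun _ _ => Nat.zero_le _) hc) (crs_sub_sum P a k hm)

/-- Two neighbouring subboxes: the points `x` with `P x` and not `P (x + m e_i)` are at most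
`m` times the interface. -/
theorem shift_count (P : (Fin d → ℤ) → Prop) (a : Fin d → ℤ) {m : ℕ} (k : ℕ)
    (hm : 0 < m) (c : Fin d → ℤ) (i : Fin d) (hc : c ∈ isoBox (0 : Fin d → ℤ) k)
    (hc' : c i + 1 < k) (T : Finset (Fin d → ℤ)) (hT : T ⊆ isoBox (subc a m c) m)
    (hT2 : ∀ x ∈ T, ¬ (P x ↔ P (update x i (x i + m)))) :
    T.card ≤ (crs P a (m * k)).card * m := by
  classical
  have h1 : T.card ≤ (crs P a (m * k) ×ˢ range m).card := by
    refine Finset.card_le_card_of_forall_subsingleton
      (fun (x : Fin d → ℤ) (b : ((Fin d → ℤ) × Fin d) × ℕ) =>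
        b.1.2 = i ∧ x = update b.1.1 i (b.1.1 i - b.2)) ?_ ?_
    · intro x hx
      have hxs := hT hx
      have hxb := sub_subset hm hc hxs
      obtain ⟨t, h2, h3, h4⟩ := line_cross (fun t => P (update x i t)) (x i) m (by
        rw [update_eq_self]; exact hT2 x hx)
      refine ⟨((update x i t, i), (t - x i).toNat), ?_, rfl, ?_⟩
      · rw [mem_product, mem_crs, mem_range]
        rw [mem_isoBox] at hxs hxb hc
        have g1 := hxs i
        have g2 := hc i
        unfold subc at g1
        simp only [Pi.zero_apply, zero_add] at g2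
        have h5 : (m : ℤ) * c i ≤ m * (k - 2) := by
          apply mul_le_mul_of_nonneg_left _ (by positivity)
          omega
        have h6 : (m : ℤ) * (k - 2) = m * k - 2 * m := by ring
        have h7 : t + 1 < a i + ((m * k : ℕ) : ℤ) := by push_cast; omega
        refine ⟨⟨?_, ?_, ?_⟩, ?_⟩
        · show update x i t ∈ _
          rw [mem_isoBox]
          intro j
          by_cases hj : j = i
          · subst hj
            rw [update_self]
            have := hxb j
            omega
          · rw [update_of_ne hj]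
            exact hxb j
        · show update x i t i + 1 < _
          rw [update_self]
          exact h7
        · simpa using h4
        · show (t - x i).toNat < m
          omega
      · show x = update (update x i t) i (update x i t i - ((t - x i).toNat : ℕ))
        rw [update_self, update_idem]
        have : t - ((t - x i).toNat : ℤ) = x i := by omega
        rw [this, update_eq_self]
    · rintro ⟨⟨p, j⟩, s⟩ _ x hx y hy
      exact hx.2.2.trans hy.2.2.symm
  rwa [card_product, card_range] at h1

/-- (I2) two scales: if `16 m #interface < m^d` then the minority is at most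
`2 m #interface` (box of side `m k`). -/
theorem iso_scale (P : (Fin d → ℤ) → Prop) [DecidablePred P] (a : Fin d → ℤ) {m : ℕ} (k : ℕ)
    (hm : 0 < m) (h16 : 16 * m * (crs P a (m * k)).card < m ^ d) :
    min ((isoBox a (m * k)).filter P).card ((isoBox a (m * k)).filter (fun x => ¬ P x)).card
      ≤ 2 * m * (crs P a (m * k)).card := by
  classical
  set D := (crs P a (m * k)).card with hD
  set Q : (Fin d → ℤ) → Prop := fun c =>
    m ^ d < 2 * ((isoBox (subc a m c) m).filter P).card with hQ
  have hsum : ∀ c, ((isoBox (subc a m c) m).filter P).card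
      + ((isoBox (subc a m c) m).filter (fun x => ¬ P x)).card = m ^ d := by
    intro c
    rw [Finset.card_filter_add_card_filter_not, card_isoBox]
  have hQ1 : ∀ c, Q c → ((isoBox (subc a m c) m).filter (fun x => ¬ P x)).card
      ≤ 2 * m * (crs P (subc a m c) m).card := by
    intro c hc
    have h1 := iso_min P (subc a m c) m
    have h2 := hsum c
    have hc2 : m ^ d < 2 * ((isoBox (subc a m c) m).filter P).card := hc
    rcases min_le_iff.1 h1 with h3 | h3
    · omega
    · exact h3
  have hQ2 : ∀ c, ¬ Q c → ((isoBox (subc a m c) m).filter P).card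
      ≤ 2 * m * (crs P (subc a m c) m).card := by
    intro c hc
    have h1 := iso_min P (subc a m c) m
    have h2 := hsum c
    have hc2 : ¬ (m ^ d < 2 * ((isoBox (subc a m c) m).filter P).card) := hc
    rcases min_le_iff.1 h1 with h3 | h3
    · exact h3
    · omega
  have hbd : ∀ c ∈ isoBox (0 : Fin d → ℤ) k, 8 * (2 * m * (crs P (subc a m c) m).card) < m ^ d := by
    intro c hc
    have h1 : 2 * m * (crs P (subc a m c) m).card ≤ 2 * m * D :=
      Nat.mul_le_mul_left _ (crs_sub_le P a k hm hc)
    have h2 : 16 * m * D = 8 * (2 * m * D) := by ring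
    omega
  -- neighbouring subboxes have the same majority
  have hadj : ∀ (c : Fin d → ℤ) (i : Fin d), c ∈ isoBox (0 : Fin d → ℤ) k →
      c i + 1 < k → update c i (c i + 1) ∈ isoBox (0 : Fin d → ℤ) k →
      (Q c ↔ Q (update c i (c i + 1))) := by
    intro c i hc hci hc'
    set c' := update c i (c i + 1) with hc'd
    set sh : (Fin d → ℤ) → (Fin d → ℤ) := fun x => update x i (x i + m) with hsh
    have hinj : Function.Injective sh := by
      intro x y hxy
      funext j
      have h1 := congrFun hxy j
      rw [hsh] at h1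
      simp only at h1
      by_cases hj : j = i
      · subst hj
        rw [update_self, update_self] at h1
        omega
      · rwa [update_of_ne hj, update_of_ne hj] at h1
    have himg : ∀ x, x ∈ isoBox (subc a m c) m → sh x ∈ isoBox (subc a m c') m := by
      intro x hx
      rw [mem_isoBox] at hx ⊢
      intro j
      have h1 := hx j
      unfold subc at h1 ⊢
      by_cases hj : j = i
      · subst hj
        rw [hsh, hc'd]
        simp only [update_self]
        have : (m : ℤ) * (c j + 1) = m * c j + m := by ring
        omega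
      · rw [hsh, hc'd]
        simp only [update_of_ne hj]
        exact h1
    have himg2 : ∀ y, y ∈ isoBox (subc a m c') m → ∃ x ∈ isoBox (subc a m c) m, sh x = y := by
      intro y hy
      refine ⟨update y i (y i - m), ?_, ?_⟩
      · rw [mem_isoBox] at hy ⊢
        intro j
        have h1 := hy j
        unfold subc at h1 ⊢
        by_cases hj : j = i
        · subst hj
          rw [hc'd] at h1
          simp only [update_self] at h1 ⊢
          have : (m : ℤ) * (c j + 1) = m * c j + m := by ring
          omega
        · rw [hc'd] at h1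
          rw [update_of_ne hj] at h1 ⊢
          exact h1
      · rw [hsh]
        simp only [update_self, update_idem]
        have : y i - m + m = y i := by ring
        rw [this, update_eq_self]
    by_contra hne
    -- the set of points where `P` changes after the shift
    set T := (isoBox (subc a m c) m).filter (fun x => ¬ (P x ↔ P (sh x))) with hT
    have hTle := shift_count P a k hm c i hc hci T (Finset.filter_subset _ _) (by
      intro x hx
      rw [hT, mem_filter] at hx
      exact hx.2)
    rw [← hD] at hTle
    have hcard' : ∀ (R : (Fin d → ℤ) → Prop) [DecidablePred R],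
        ((isoBox (subc a m c') m).filter R).card
          = ((isoBox (subc a m c) m).filter (fun x => R (sh x))).card := by
      intro R _
      rw [← Finset.card_image_of_injective ((isoBox (subc a m c) m).filter
        (fun x => R (sh x))) hinj]
      congr 1
      ext y
      rw [mem_image, mem_filter]
      constructor
      · rintro ⟨h1, h2⟩
        obtain ⟨x, hx, rfl⟩ := himg2 y h1
        exact ⟨x, mem_filter.2 ⟨hx, h2⟩, rfl⟩
      · rintro ⟨x, hx, rfl⟩
        rw [mem_filter] at hx
        exact ⟨himg x hx.1, hx.2⟩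
    have h8c := hbd c hc
    have h8c' := hbd c' hc'
    have hDm : 16 * (D * m) < m ^ d := by
      have : 16 * m * D = 16 * (D * m) := by ring
      omega
    by_cases hq : Q c
    · have hq' : ¬ Q c' := fun hh => hne ⟨fun _ => hh, fun _ => hq⟩
      have g1 := hQ1 c hq
      have g2 := hQ2 c' hq'
      rw [hcard' P] at g2
      -- all points: not P x, or P (sh x), or in T
      have g3 : m ^ d ≤ ((isoBox (subc a m c) m).filter (fun x => ¬ P x)).card
          + ((isoBox (subc a m c) m).filter (fun x => P (sh x))).card + T.card := by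
        rw [← card_isoBox (subc a m c) m]
        calc (isoBox (subc a m c) m).card
            ≤ ((((isoBox (subc a m c) m).filter (fun x => ¬ P x)) ∪
              ((isoBox (subc a m c) m).filter (fun x => P (sh x)))) ∪ T).card := by
              apply Finset.card_le_card
              intro x hx
              rw [mem_union, mem_union, mem_filter, mem_filter, hT, mem_filter]
              by_cases p1 : P x
              · by_cases p2 : P (sh x)
                · exact Or.inl (Or.inr ⟨hx, p2⟩)
                · exact Or.inr ⟨hx, fun hh => p2 (hh.1 p1)⟩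
              · exact Or.inl (Or.inl ⟨hx, p1⟩)
          _ ≤ _ := (Finset.card_union_le _ _).trans
              (Nat.add_le_add_right (Finset.card_union_le _ _) _)
      omega
    · have hq' : Q c' := by
        by_contra hh
        exact hne ⟨fun h => absurd h hq, fun h => absurd h hh⟩
      have g1 := hQ2 c hq
      have g2 := hQ1 c' hq'
      rw [hcard' (fun x => ¬ P x)] at g2
      have g3 : m ^ d ≤ ((isoBox (subc a m c) m).filter P).card
          + ((isoBox (subc a m c) m).filter (fun x => ¬ P (sh x))).card + T.card := by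
        rw [← card_isoBox (subc a m c) m]
        calc (isoBox (subc a m c) m).card
            ≤ ((((isoBox (subc a m c) m).filter P) ∪
              ((isoBox (subc a m c) m).filter (fun x => ¬ P (sh x)))) ∪ T).card := by
              apply Finset.card_le_card
              intro x hx
              rw [mem_union, mem_union, mem_filter, mem_filter, hT, mem_filter]
              by_cases p1 : P x
              · exact Or.inl (Or.inl ⟨hx, p1⟩)
              · by_cases p2 : P (sh x)
                · exact Or.inr ⟨hx, fun hh => p1 (hh.2 p2)⟩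
                · exact Or.inl (Or.inr ⟨hx, p2⟩)
          _ ≤ _ := (Finset.card_union_le _ _).trans
              (Nat.add_le_add_right (Finset.card_union_le _ _) _)
      omega
  -- the majority is constant
  have hconst : (∀ c ∈ isoBox (0 : Fin d → ℤ) k, Q c) ∨
      (∀ c ∈ isoBox (0 : Fin d → ℤ) k, ¬ Q c) := by
    by_contra hcon
    push Not at hcon
    obtain ⟨⟨c, hc, hqc⟩, ⟨c', hc', hqc'⟩⟩ := hcon
    obtain ⟨i, t, hq⟩ := path_cross Q 0 k c' c hc' hc hqc' hqc
    rw [mem_crs] at hq
    obtain ⟨h1, h2, h3⟩ := hq
    simp only at h1 h2 h3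
    simp only [Pi.zero_apply, zero_add] at h2
    apply h3
    apply hadj _ i h1 h2
    rw [mem_isoBox] at h1 ⊢
    intro j
    have g1 := h1 j
    by_cases hj : j = i
    · subst hj
      rw [update_self]
      simp only [Pi.zero_apply, zero_add] at g1 ⊢
      omega
    · rw [update_of_ne hj]
      exact g1
  have hfin : ∀ (R : (Fin d → ℤ) → Prop) [DecidablePred R],
      (∀ c ∈ isoBox (0 : Fin d → ℤ) k, ((isoBox (subc a m c) m).filter R).card
        ≤ 2 * m * (crs P (subc a m c) m).card) →
      ((isoBox a (m * k)).filter R).card ≤ 2 * m * D := by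
    intro R _ hR
    rw [card_sub_sum R a k hm]
    calc _ ≤ ∑ c ∈ isoBox (0 : Fin d → ℤ) k, 2 * m * (crs P (subc a m c) m).card :=
          Finset.sum_le_sum hR
      _ = 2 * m * ∑ c ∈ isoBox (0 : Fin d → ℤ) k, (crs P (subc a m c) m).card := by
          rw [Finset.mul_sum]
      _ ≤ 2 * m * D := Nat.mul_le_mul_left _ (crs_sub_sum P a k hm)
  rcases hconst with h | h
  · exact (min_le_right _ _).trans (hfin _ (fun c hc => hQ1 c (h c hc)))
  · exact (min_le_left _ _).trans (hfin _ (fun c hc => hQ2 c (h c hc)))

end Pool.Agent.Rg
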