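import Pool.Agent.Lib.MP_09cbbd_rg.Ph

/-!
# The line functional

A profile `m 0, .., m (n - 1)` on bins of activity `z`, the pairs at a distance of `j` bins have
the energy `j / b`.  With the cumulated masses `F k = m 0 + .. + m (k - 1)` and `N = F n` the
energy is `(1 / b) ∑ F k * (N - F k)`.  The value of the profile is at most `2 √(b z) + N ^ 2 / b`
minus two relative entropies.
-/

set_option autoImplicit false

namespace Pool.Agent.Rg

open Finset Real

/-- The value of a profile on the line. -/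
noncomputable def valL (z b : ℝ) (m : ℕ → ℝ) (n : ℕ) : ℝ :=
  ∑ k ∈ range n, sg z (m k) - 1 / b * ∑ k ∈ range n, Sm m k * (Sm m n - Sm m k)

/-- The reference masses. -/
noncomputable def bt (b : ℝ) (m : ℕ → ℝ) (n k : ℕ) : ℝ := Sm m (k + 1) * (Sm m n - Sm m k) / b

/-- The relative entropy with respect to the reference masses. -/
noncomputable def klL (b : ℝ) (m : ℕ → ℝ) (n : ℕ) : ℝ :=
  ∑ k ∈ range n, bt b m n k * ph (m k / bt b m n k)

variable {z b : ℝ} {m : ℕ → ℝ} {n : ℕ}

theorem sub_Sm_nonneg (hm : ∀ k, 0 ≤ m k) {k : ℕ} (hk : k ≤ n) : 0 ≤ Sm m n - Sm m k := by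
  linarith [Sm_mono hm hk]

theorem bt_nonneg (hb : 0 < b) (hm : ∀ k, 0 ≤ m k) {k : ℕ} (hk : k ≤ n) : 0 ≤ bt b m n k :=
  div_nonneg (mul_nonneg (Sm_nonneg hm _) (sub_Sm_nonneg hm hk)) hb.le

theorem bt_le (hb : 0 < b) (hm : ∀ k, 0 ≤ m k) {k : ℕ} (hk : k < n) :
    bt b m n k ≤ Sm m n ^ 2 / b := by
  unfold bt
  refine div_le_div_of_nonneg_right ?_ hb.le
  have h1 := Sm_nonneg hm k
  have h2 := Sm_mono hm (show k + 1 ≤ n by omega)
  have h3 := Sm_nonneg hm (k + 1)
  have h4 := sub_Sm_nonneg hm hk.le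
  nlinarith

/-- The identity per bin. -/
theorem sg_eq_bt (hz : 0 < z) (hb : 0 < b) (hm : ∀ k, 0 ≤ m k) {k : ℕ} (hk : k < n) :
    sg z (m k) = m k * (log z + log b) - m k * log (Sm m (k + 1)) -
      m k * log (Sm m n - Sm m k) + bt b m n k - bt b m n k * ph (m k / bt b m n k) := by
  rcases (hm k).eq_or_lt with h | h
  · rw [← h]
    simp [sg_zero]
  · have h1 : 0 < Sm m (k + 1) := by
      rw [Sm_succ]
      linarith [Sm_nonneg hm k]
    have h2 : 0 < Sm m n - Sm m k := by
      have := Sm_mono hm (show k + 1 ≤ n by omega)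
      rw [Sm_succ] at this
      linarith
    have h3 : 0 < bt b m n k := div_pos (mul_pos h1 h2) hb
    have h4 := sg_eq h3 h.le
    have h5 : sg (bt b m n k) (m k) = sg z (m k) - m k * (log z + log b) +
        m k * log (Sm m (k + 1)) + m k * log (Sm m n - Sm m k) := by
      unfold sg
      rw [log_div h3.ne' h.ne', log_div hz.ne' h.ne']
      unfold bt
      rw [log_div (mul_pos h1 h2).ne' hb.ne', log_mul h1.ne' h2.ne']
      ring
    linarith

theorem sum_log_left (hm : ∀ k, 0 ≤ m k) (n : ℕ) :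
    Hx (Sm m n) ≤ ∑ k ∈ range n, m k * log (Sm m (k + 1)) := by
  induction n with
  | zero => simp
  | succ n ih =>
    rw [sum_range_succ]
    have h := Hx_sub_le (Sm_nonneg hm n) (Sm_mono hm (Nat.le_succ n))
    have h2 : Sm m (n + 1) - Sm m n = m n := by rw [Sm_succ]; ring
    rw [Nat.succ_eq_add_one, h2] at h
    linarith

theorem sum_log_right (hm : ∀ k, 0 ≤ m k) {N : ℝ} {n : ℕ} (hn : Sm m n ≤ N) :
    Hx N - Hx (N - Sm m n) ≤ ∑ k ∈ range n, m k * log (N - Sm m k) := by
  induction n with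
  | zero => simp
  | succ n ih =>
    rw [sum_range_succ]
    have h0 := Sm_mono hm (Nat.le_succ n)
    rw [Nat.succ_eq_add_one] at h0
    have h := Hx_sub_le (show 0 ≤ N - Sm m (n + 1) by linarith)
      (show N - Sm m (n + 1) ≤ N - Sm m n by linarith)
    have h2 : N - Sm m n - (N - Sm m (n + 1)) = m n := by rw [Sm_succ]; ring
    rw [h2] at h
    have := ih (h0.trans hn)
    linarith

theorem sum_bt (hb : 0 < b) (hm : ∀ k, 0 ≤ m k) :
    ∑ k ∈ range n, bt b m n k ≤
      1 / b * ∑ k ∈ range n, Sm m k * (Sm m n - Sm m k) + Sm m n ^ 2 / b := by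
  have h1 : ∀ k ∈ range n, bt b m n k ≤
      1 / b * (Sm m k * (Sm m n - Sm m k)) + m k * (Sm m n / b) := by
    intro k hk
    have h2 : bt b m n k = 1 / b * (Sm m k * (Sm m n - Sm m k)) +
        m k * ((Sm m n - Sm m k) / b) := by
      unfold bt
      rw [Sm_succ]
      ring
    have h3 : (Sm m n - Sm m k) / b ≤ Sm m n / b :=
      div_le_div_of_nonneg_right (by linarith [Sm_nonneg hm k]) hb.le
    have h4 := mul_le_mul_of_nonneg_left h3 (hm k)
    linarith
  have h5 := sum_le_sum h1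
  rw [sum_add_distrib, ← mul_sum, ← sum_mul] at h5
  have h6 : (∑ k ∈ range n, m k) * (Sm m n / b) = Sm m n ^ 2 / b := by
    rw [← Sm]
    ring
  linarith

/-- **The line functional.** -/
theorem line_le (hz : 0 < z) (hb : 0 < b) (hm : ∀ k, 0 ≤ m k) :
    valL z b m n + klL b m n + 2 * √(b * z) * ph (Sm m n / √(b * z)) ≤
      2 * √(b * z) + Sm m n ^ 2 / b := by
  have h1 : ∑ k ∈ range n, sg z (m k) = Sm m n * (log z + log b) -
      ∑ k ∈ range n, m k * log (Sm m (k + 1)) - ∑ k ∈ range n, m k * log (Sm m n - Sm m k) +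
        ∑ k ∈ range n, bt b m n k - klL b m n := by
    rw [klL, Sm, sum_mul, ← sum_sub_distrib, ← sum_sub_distrib, ← sum_add_distrib,
      ← sum_sub_distrib]
    exact sum_congr rfl fun k hk => sg_eq_bt hz hb hm (mem_range.1 hk)
  have h2 := sum_log_left hm n
  have h3 := sum_log_right hm (le_refl (Sm m n))
  rw [sub_self, Hx_zero, sub_zero] at h3
  have h4 := sum_bt (n := n) hb hm
  have h5 : 0 < √(b * z) := Real.sqrt_pos.2 (mul_pos hb hz)
  have h6 := sg_eq h5 (Sm_nonneg hm n)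
  have h7 : 2 * sg (√(b * z)) (Sm m n) = Sm m n * (log z + log b) - 2 * Hx (Sm m n) := by
    rcases (Sm_nonneg hm n).eq_or_lt with h | h
    · rw [← h]
      simp [sg_zero]
    · unfold sg Hx
      rw [log_div h5.ne' h.ne', Real.log_sqrt (mul_pos hb hz).le, log_mul hb.ne' hz.ne']
      ring
  unfold valL
  rw [h1]
  linarith

end Pool.Agent.Rg
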