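import Pool.Agent.Lib.MP_09cbbd_rg.Fluid

/-!
# Localisation of the heavy profiles

If some window is heavier than `A`, then outside one arc of `b` bins every bin feels a repulsion at
least `A / 4`.
-/

set_option autoImplicit false

namespace Pool.Agent.Rg

open Finset Real

variable {B : ℕ} [NeZero B]

/-- the arc `{t, …, t + b - 1}` -/
def arc (b : ℕ) (t : ZMod B) : Finset (ZMod B) := univ.filter fun j => (j - t).val < b

theorem mem_arc {b : ℕ} {t j : ZMod B} : j ∈ arc b t ↔ (j - t).val < b := by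
  unfold arc; rw [mem_filter]; exact ⟨fun h => h.2, fun h => ⟨mem_univ _, h⟩⟩

/-- restriction of a profile to a set -/
noncomputable def res (R : Finset (ZMod B)) (M : ZMod B → ℝ) : ZMod B → ℝ :=
  fun j => if j ∈ R then M j else 0

/-- the repulsion felt at bin `j` -/
noncomputable def pot (b : ℕ) (M : ZMod B → ℝ) (j : ZMod B) : ℝ := ∑ k, U b (j - k) * M k

theorem win_arc {b : ℕ} (h2 : b ≤ B) (M : ZMod B → ℝ) (t : ZMod B) :
    win b M t = ∑ j ∈ arc b t, M j := by
  rw [win_eq h2, ← sum_filter]; rfl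

/-- splitting off a region -/
theorem P_split {b : ℕ} {ζ : ℝ} {M : ZMod B → ℝ} (hM : ∀ j, 0 ≤ M j) (R : Finset (ZMod B)) :
    P b ζ M ≤ P b ζ (res R M) + ∑ j ∈ Rᶜ, (sg ζ (M j) - pot b M j * M j / 2) := by
  classical
  unfold P
  have e1 : Sn ζ M = Sn ζ (res R M) + ∑ j ∈ Rᶜ, sg ζ (M j) := by
    unfold Sn res
    rw [← sum_add_sum_compl R, ← sum_add_sum_compl R (fun j => sg ζ (if j ∈ R then M j else 0))]
    have h1 : ∑ j ∈ R, sg ζ (if j ∈ R then M j else 0) = ∑ j ∈ R, sg ζ (M j) :=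
      sum_congr rfl fun j hj => by rw [if_pos hj]
    have h2 : ∑ j ∈ Rᶜ, sg ζ (if j ∈ R then M j else 0) = 0 :=
      sum_eq_zero fun j hj => by rw [if_neg (mem_compl.1 hj), sg_zero]
    rw [h1, h2]; ring
  have e2 : En b (res R M) = ∑ j ∈ R, ∑ k ∈ R, U b (j - k) * M j * M k := by
    unfold En res
    rw [← sum_add_sum_compl R (fun j => ∑ k, U b (j - k) * (if j ∈ R then M j else 0) *
      (if k ∈ R then M k else 0))]
    have h2 : ∑ j ∈ Rᶜ, ∑ k, U b (j - k) * (if j ∈ R then M j else 0) *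
        (if k ∈ R then M k else 0) = 0 :=
      sum_eq_zero fun j hj => by
        rw [if_neg (mem_compl.1 hj)]; exact sum_eq_zero fun k _ => by ring
    rw [h2, add_zero]
    refine sum_congr rfl fun j hj => ?_
    rw [if_pos hj, ← sum_add_sum_compl R (fun k => U b (j - k) * M j * (if k ∈ R then M k else 0))]
    have h3 : ∑ k ∈ Rᶜ, U b (j - k) * M j * (if k ∈ R then M k else 0) = 0 :=
      sum_eq_zero fun k hk => by rw [if_neg (mem_compl.1 hk)]; ring
    rw [h3, add_zero]
    exact sum_congr rfl fun k hk => by rw [if_pos hk]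
  have e3 : En b (res R M) + ∑ j ∈ Rᶜ, pot b M j * M j ≤ En b M := by
    rw [e2]
    unfold En pot
    rw [← sum_add_sum_compl R (fun j => ∑ k, U b (j - k) * M j * M k)]
    refine add_le_add ?_ ?_
    · refine sum_le_sum fun j _ => ?_
      exact sum_le_sum_of_subset_of_nonneg (subset_univ R) fun k _ _ =>
        mul_nonneg (mul_nonneg (U_nonneg _ _) (hM j)) (hM k)
    · refine sum_le_sum fun j _ => le_of_eq ?_
      rw [sum_mul]
      exact sum_congr rfl fun k _ => by ring
  have e4 : ∑ j ∈ Rᶜ, (sg ζ (M j) - pot b M j * M j / 2) =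
      ∑ j ∈ Rᶜ, sg ζ (M j) - (∑ j ∈ Rᶜ, pot b M j * M j) / 2 := by
    rw [sum_sub_distrib, sum_div]
  rw [e1, e4]
  linarith

/-- the repelled region has almost no mass and no value -/
theorem out_le {ζ κ : ℝ} (hζ : 0 < ζ) {M : ZMod B → ℝ} (hM : ∀ j, 0 ≤ M j)
    (R : Finset (ZMod B)) {b : ℕ} (hR : ∀ j ∈ Rᶜ, κ ≤ pot b M j) :
    ∑ j ∈ Rᶜ, (sg ζ (M j) - pot b M j * M j / 2) ≤
      B * ζ * exp (-(κ / 4)) - κ / 4 * ∑ j ∈ Rᶜ, M j := by
  have h1 : ∀ j ∈ Rᶜ, sg ζ (M j) - pot b M j * M j / 2 ≤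
      ζ * exp (-(κ / 4)) - κ / 4 * M j := by
    intro j hj
    have h2 := sg_le (mul_pos hζ (exp_pos (-(κ / 4)))) (hM j)
    rw [sg_mul hζ (exp_pos _) (hM j), Real.log_exp] at h2
    have h3 := mul_le_mul_of_nonneg_right (hR j hj) (hM j)
    linarith
  refine (sum_le_sum h1).trans ?_
  rw [sum_sub_distrib, sum_const, nsmul_eq_mul, mul_sum]
  have h2 : ((Rᶜ).card : ℝ) ≤ B := by
    have := card_le_univ Rᶜ
    rw [ZMod.card] at this
    exact_mod_cast this
  have h3 : ((Rᶜ).card : ℝ) * (ζ * exp (-(κ / 4))) ≤ B * (ζ * exp (-(κ / 4))) :=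
    mul_le_mul_of_nonneg_right h2 (by positivity)
  linarith

omit [NeZero B] in
theorem cab_cast {p q : ℕ} (hp : p < B) (hq : q ≤ p) :
    cab ((p : ZMod B) - (q : ZMod B)) = min (p - q) (B - (p - q)) := by
  unfold cab
  rw [← Nat.cast_sub hq, ZMod.val_cast_of_lt (by omega)]

omit [NeZero B] in
theorem U_half {b p q : ℕ} (hb : 0 < b) (hp : p < B) (hq : q ≤ p) (h1 : b ≤ 2 * (p - q))
    (h2 : b ≤ 2 * (B - (p - q))) : 1 / 2 ≤ U b ((p : ZMod B) - (q : ZMod B)) := by
  have hb' : (0 : ℝ) < b := by exact_mod_cast hb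
  unfold U
  rw [cab_cast hp hq]
  refine le_min (by norm_num) ?_
  rw [le_div_iff₀ hb']
  have h3 : b ≤ 2 * min (p - q) (B - (p - q)) := by omega
  have h4 : (b : ℝ) ≤ 2 * (min (p - q) (B - (p - q)) : ℕ) := by exact_mod_cast h3
  linarith

omit [NeZero B] in
theorem U_one {b p q : ℕ} (hb : 0 < b) (hp : p < B) (hq : q ≤ p) (h1 : b ≤ p - q)
    (h2 : b ≤ B - (p - q)) : U b ((p : ZMod B) - (q : ZMod B)) = 1 := by
  have hb' : (0 : ℝ) < b := by exact_mod_cast hb
  unfold U
  rw [cab_cast hp hq]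
  refine min_eq_left ?_
  rw [le_div_iff₀ hb', one_mul]
  exact_mod_cast le_min h1 h2

theorem U_comm (b : ℕ) (j k : ZMod B) : U b (j - k) = U b (k - j) := by
  rw [← U_neg, neg_sub]

/-- LOCALISATION: a heavy window forces a strong repulsion outside one arc of `b` bins -/
theorem localise {b : ℕ} (hb : 0 < b) (h6 : 6 * b ≤ B) {A : ℝ} (hA : 0 < A) {M : ZMod B → ℝ}
    (hM : ∀ j, 0 ≤ M j) {t0 : ZMod B} (ht0 : A < win b M t0) :
    ∃ t : ZMod B, ∀ j ∈ (arc b t)ᶜ, A / 4 ≤ pot b M j := by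
  classical
  set o : ZMod B := t0 - (b : ZMod B) with ho
  set m : ℕ → ℝ := fun k => M (o + (k : ZMod B)) with hm
  have hm0 : ∀ k, 0 ≤ m k := fun k => hM _
  set N' := ∑ k ∈ range (3 * b), m k with hN'
  -- the window is inside the three cells
  have hwin : win b M t0 = ∑ k ∈ Ico b (2 * b), m k := by
    rw [sum_Ico_eq_sum_range, show 2 * b - b = b by omega]
    unfold win
    refine sum_congr rfl fun r _ => ?_
    rw [hm]
    congr 1
    rw [ho]; push_cast; ring
  have hN'A : A < N' := by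
    refine ht0.trans_le ?_
    rw [hwin, hN']
    refine sum_le_sum_of_subset_of_nonneg ?_ (fun k _ _ => hm0 k)
    intro k hk
    rw [mem_Ico] at hk
    rw [mem_range]; omega
  -- the median
  have hex : ∃ k, N' / 2 ≤ ∑ i ∈ range (k + 1), m i := by
    refine ⟨3 * b, ?_⟩
    rw [sum_range_succ]
    have := hm0 (3 * b)
    linarith
  set t1 := Nat.find hex with ht1
  have hspec : N' / 2 ≤ ∑ i ∈ range (t1 + 1), m i := Nat.find_spec hex
  have hlt : ∑ i ∈ range t1, m i < N' / 2 ∨ t1 = 0 := by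
    rcases Nat.eq_zero_or_pos t1 with h | h
    · exact Or.inr h
    · left
      have h1 := Nat.find_min hex (m := t1 - 1) (by omega)
      push Not at h1
      rwa [show t1 - 1 + 1 = t1 by omega] at h1
  have ht1b : t1 < 3 * b := by
    by_contra hcon
    push Not at hcon
    rcases hlt with h | h
    · have : N' ≤ ∑ i ∈ range t1, m i := by
        rw [hN']
        refine sum_le_sum_of_subset_of_nonneg ?_ (fun k _ _ => hm0 k)
        intro k hk
        rw [mem_range] at hk ⊢; omega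
      linarith
    · omega
  have hright : N' / 2 ≤ ∑ i ∈ Ico t1 (3 * b), m i := by
    have h1 : ∑ i ∈ range t1, m i + ∑ i ∈ Ico t1 (3 * b), m i = N' := by
      rw [hN', sum_range_add_sum_Ico _ (by omega)]
    rcases hlt with h | h
    · linarith
    · rw [h, range_zero, sum_empty, zero_add] at h1
      rw [h, h1]; linarith
  -- potentials by positions
  have hpot : ∀ p : ℕ, pot b M (o + (p : ZMod B)) =
      ∑ q ∈ range B, U b ((p : ZMod B) - (q : ZMod B)) * m q := by
    intro p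
    unfold pot
    rw [← sum_shift' (fun k => U b (o + (p : ZMod B) - k) * M k) o, sum_zmod]
    refine sum_congr rfl fun q _ => ?_
    congr 2
    ring
  have hsub : ∀ (p : ℕ) (S : Finset ℕ) (v : ℝ), 0 ≤ v → S ⊆ range B →
      (∀ q ∈ S, v ≤ U b ((p : ZMod B) - (q : ZMod B))) → v * ∑ q ∈ S, m q ≤
        pot b M (o + (p : ZMod B)) := by
    intro p S v _ hS hv
    rw [hpot, mul_sum]
    refine (sum_le_sum (g := fun q : ℕ => U b ((p : ZMod B) - (q : ZMod B)) * m q)
      fun q hq => ?_).trans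
      (sum_le_sum_of_subset_of_nonneg hS fun q _ _ => mul_nonneg (U_nonneg _ _) (hm0 q))
    exact mul_le_mul_of_nonneg_right (hv q hq) (hm0 q)
  refine ⟨o + (t1 : ZMod B) - ((b / 2 : ℕ) : ZMod B), fun j hj => ?_⟩
  rw [mem_compl, mem_arc] at hj
  set p := (j - o).val with hp
  have hpB : p < B := ZMod.val_lt _
  have hjp : j = o + (p : ZMod B) := by rw [hp, ZMod.natCast_zmod_val]; ring
  rw [hjp]
  rcases lt_or_ge p (3 * b) with h3 | h3
  · have hcase : p + b / 2 < t1 ∨ t1 + b ≤ p + b / 2 := by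
      by_contra hcon
      push Not at hcon
      apply hj
      have e1 : j - (o + (t1 : ZMod B) - ((b / 2 : ℕ) : ZMod B)) =
          ((p + b / 2 - t1 : ℕ) : ZMod B) := by
        rw [Nat.cast_sub hcon.1, hjp]; push_cast; ring
      rw [e1, ZMod.val_cast_of_lt (by omega)]
      omega
    rcases hcase with h | h
    · have h5 := hsub p (Ico t1 (3 * b)) (1 / 2) (by norm_num)
        (fun q hq => by rw [mem_Ico] at hq; rw [mem_range]; omega) (fun q hq => by
          rw [mem_Ico] at hq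
          rw [U_comm]
          exact U_half hb (by omega) (by omega) (by omega) (by omega))
      linarith
    · have h5 := hsub p (range (t1 + 1)) (1 / 2) (by norm_num)
        (fun q hq => by rw [mem_range] at hq ⊢; omega) (fun q hq => by
          rw [mem_range] at hq
          exact U_half hb hpB (by omega) (by omega) (by omega))
      linarith
  · have h5 := hsub p (Ico b (2 * b)) 1 (by norm_num)
      (fun q hq => by rw [mem_Ico] at hq; rw [mem_range]; omega) (fun q hq => by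
        rw [mem_Ico] at hq
        exact (U_one hb hpB (by omega) (by omega) (by omega)).ge)
    rw [← hwin] at h5
    linarith

/-- heavy profiles: the functional is the one of the restriction to an arc, up to `z e^{-A/16}` -/
theorem heavy {n b : ℕ} {ζ L s A K : ℝ} (h : Par n b ζ L s A K) (hB : B = n * b) (hA : 0 < A)
    {M : ZMod B → ℝ} (hM : ∀ j, 0 ≤ M j) {t0 : ZMod B} (ht0 : A < win b M t0) :
    ∃ t : ZMod B, P b ζ M ≤ P b ζ (res (arc b t) M) + L * exp (s * L) * exp (-(A / 16)) -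
      A / 16 * ∑ j ∈ (arc b t)ᶜ, M j := by
  have h6 : 6 * b ≤ B := by rw [hB]; exact Nat.mul_le_mul_right b h.hn
  obtain ⟨t, ht⟩ := localise h.hb h6 hA hM ht0
  refine ⟨t, ?_⟩
  have h1 := P_split (b := b) (ζ := ζ) hM (arc b t)
  have h2 := out_le h.ζ_pos hM (arc b t) ht
  have hz : (B : ℝ) * ζ = L * exp (s * L) := by rw [← h.hz, hB]; push_cast; ring
  rw [hz, show A / 4 / 4 = A / 16 by ring] at h2
  linarith

end Pool.Agent.Rg
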