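import Pool.Agent.Lib.MP_09cbbd_rg.Line

/-!
# Stability of the line functional

A profile with a small relative entropy `klL` is close to its reference masses, and two such
profiles with the same median bin are close to one another: the discrete logistic equation
contracts away from the median.
-/

set_option autoImplicit false

namespace Pool.Agent.Rg

open Finset Real

/-! ### Hellinger and Pinsker -/

theorem hell_ph {u : ℝ} (hu : 0 ≤ u) : (√u - 1) ^ 2 ≤ ph u := by
  rcases hu.eq_or_lt with rfl | h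
  · simp
  · have hs : 0 < √u := Real.sqrt_pos.2 h
    have h1 : 1 - 1 / √u ≤ log √u := by
      have := log_le_sub_one_of_pos (show 0 < 1 / √u by positivity)
      rw [one_div, log_inv] at this
      rw [one_div]
      linarith
    have h2 : log u = 2 * log √u := by
      rw [Real.log_sqrt h.le]
      ring
    have h3 : u = √u ^ 2 := (Real.sq_sqrt h.le).symm
    unfold ph
    rw [h2]
    set s := √u
    rw [h3]
    have h4 : s * (1 - 1 / s) = s - 1 := by field_simp
    have h5 := mul_le_mul_of_nonneg_left h1 hs.le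
    rw [h4] at h5
    nlinarith

theorem hell {c m : ℝ} (hc : 0 ≤ c) (hm : 0 ≤ m) (h0 : c = 0 → m = 0) :
    (√m - √c) ^ 2 ≤ c * ph (m / c) := by
  rcases hc.eq_or_lt with h | h
  · rw [h0 h.symm, ← h]
    simp
  · have h1 := mul_le_mul_of_nonneg_left (hell_ph (div_nonneg hm h.le)) h.le
    have hs : 0 < √c := Real.sqrt_pos.2 h
    have h2 : c * (√(m / c) - 1) ^ 2 = (√m - √c) ^ 2 := by
      rw [Real.sqrt_div hm]
      have h3 : c = √c ^ 2 := (Real.sq_sqrt h.le).symm
      have h4 : √m / √c - 1 = (√m - √c) / √c := by field_simp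
      rw [h4, div_pow]
      nth_rewrite 1 [h3]
      field_simp
    rw [h2] at h1
    exact h1

/-- The variation distance is bounded by the relative entropy. -/
theorem pinsker {ι : Type*} (s : Finset ι) (m c : ι → ℝ) (hm : ∀ i ∈ s, 0 ≤ m i)
    (hc : ∀ i ∈ s, 0 ≤ c i) (h0 : ∀ i ∈ s, c i = 0 → m i = 0) :
    (∑ i ∈ s, |m i - c i|) ^ 2 ≤ (∑ i ∈ s, c i * ph (m i / c i)) *
      (6 * ∑ i ∈ s, m i + 4 * ∑ i ∈ s, c i * ph (m i / c i)) := by
  have h1 : ∑ i ∈ s, |m i - c i| = ∑ i ∈ s, |√(m i) - √(c i)| * (√(m i) + √(c i)) := by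
    refine sum_congr rfl fun i hi => ?_
    have h2 : m i - c i = (√(m i) - √(c i)) * (√(m i) + √(c i)) := by
      have h3 := Real.mul_self_sqrt (hm i hi)
      have h4 := Real.mul_self_sqrt (hc i hi)
      nlinarith
    rw [h2, abs_mul, abs_of_nonneg (show 0 ≤ √(m i) + √(c i) by positivity)]
  have h2 := sum_mul_sq_le_sq_mul_sq s (fun i => |√(m i) - √(c i)|) fun i => √(m i) + √(c i)
  rw [← h1] at h2
  have h3 : ∑ i ∈ s, |√(m i) - √(c i)| ^ 2 ≤ ∑ i ∈ s, c i * ph (m i / c i) := by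
    refine sum_le_sum fun i hi => ?_
    rw [sq_abs]
    exact hell (hc i hi) (hm i hi) (h0 i hi)
  have h4 : ∑ i ∈ s, (√(m i) + √(c i)) ^ 2 ≤
      6 * ∑ i ∈ s, m i + 4 * ∑ i ∈ s, c i * ph (m i / c i) := by
    rw [mul_sum, mul_sum, ← sum_add_distrib]
    refine sum_le_sum fun i hi => ?_
    have h5 := hell (hc i hi) (hm i hi) (h0 i hi)
    have h6 := Real.sq_sqrt (hm i hi)
    have h7 := Real.sq_sqrt (hc i hi)
    nlinarith [sq_nonneg (√(m i) - √(c i)), sq_nonneg (√(c i) - 2 * √(m i)),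
      sq_nonneg (2 * √(m i) - √(c i))]
  have h5 : 0 ≤ ∑ i ∈ s, |√(m i) - √(c i)| ^ 2 := sum_nonneg fun i _ => sq_nonneg _
  have h6 : 0 ≤ ∑ i ∈ s, (√(m i) + √(c i)) ^ 2 := sum_nonneg fun i _ => sq_nonneg _
  calc _ ≤ _ := h2
    _ ≤ _ := mul_le_mul h3 h4 h6 (h5.trans h3)

variable {b : ℝ} {m m' : ℕ → ℝ} {n : ℕ}

theorem bt_eq_zero (hb : 0 < b) (hm : ∀ k, 0 ≤ m k) {k : ℕ} (hk : k < n)
    (h : bt b m n k = 0) : m k = 0 := by
  by_contra hne
  have h0 : 0 < m k := lt_of_le_of_ne (hm k) (Ne.symm hne)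
  have h1 : 0 < Sm m (k + 1) := by
    rw [Sm_succ]
    linarith [Sm_nonneg hm k]
  have h2 : 0 < Sm m n - Sm m k := by
    have := Sm_mono hm (show k + 1 ≤ n by omega)
    rw [Sm_succ] at this
    linarith
  have h3 : 0 < bt b m n k := div_pos (mul_pos h1 h2) hb
  exact h3.ne' h

/-- The distance to the reference masses. -/
noncomputable def eL (b : ℝ) (m : ℕ → ℝ) (n : ℕ) : ℝ := ∑ k ∈ range n, |m k - bt b m n k|

theorem eL_nonneg : 0 ≤ eL b m n := sum_nonneg fun _ _ => abs_nonneg _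

theorem eL_sq_le (hb : 0 < b) (hm : ∀ k, 0 ≤ m k) :
    eL b m n ^ 2 ≤ klL b m n * (6 * Sm m n + 4 * klL b m n) :=
  pinsker (range n) m (bt b m n) (fun k _ => hm k)
    (fun _ hk => bt_nonneg hb hm (mem_range.1 hk).le)
    fun _ hk => bt_eq_zero hb hm (mem_range.1 hk)

theorem m_le (hb : 0 < b) (hm : ∀ k, 0 ≤ m k) {k : ℕ} (hk : k < n) :
    m k ≤ Sm m n ^ 2 / b + eL b m n := by
  have h1 := bt_le hb hm hk
  have h2 : |m k - bt b m n k| ≤ eL b m n :=
    single_le_sum (f := fun k => |m k - bt b m n k|) (fun _ _ => abs_nonneg _) (mem_range.2 hk)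
  have h3 := le_abs_self (m k - bt b m n k)
  linarith

/-! ### Contraction -/

/-- The recursion of the difference. -/
theorem rec_diff (k : ℕ) :
    (1 - (Sm m n - Sm m k) / b) * (Sm m (k + 1) - Sm m' (k + 1)) =
      (1 - Sm m' (k + 1) / b) * (Sm m k - Sm m' k) + Sm m' (k + 1) * (Sm m n - Sm m' n) / b +
        (m k - bt b m n k) - (m' k - bt b m' n k) := by
  have h1 := Sm_succ m k
  have h2 := Sm_succ m' k
  unfold bt
  have h3 : m k = Sm m (k + 1) - Sm m k := by rw [h1]; ring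
  have h4 : m' k = Sm m' (k + 1) - Sm m' k := by rw [h2]; ring
  rw [h3, h4]
  ring

/-- One step of the contraction, in abstract form. -/
theorem step_contr {u v t f x y K : ℝ} (h : (1 - u) * y = (1 - v) * x + f) (hu : u ≤ 1 / 2)
    (hv : v ≤ 1) (huv : u ≤ v + t) (ht : 0 ≤ t) (hx : |x| ≤ K) :
    |y| ≤ |x| + 2 * (t * K + |f|) := by
  have h1 : (1 - u) * |y| ≤ (1 - v) * |x| + |f| := by
    have h2 : |(1 - u) * y| = (1 - u) * |y| := by
      rw [abs_mul, abs_of_nonneg (by linarith)]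
    have h3 : |(1 - v) * x + f| ≤ (1 - v) * |x| + |f| := by
      refine (abs_add_le _ _).trans ?_
      rw [abs_mul, abs_of_nonneg (show 0 ≤ 1 - v by linarith)]
    rw [← h2, h]
    exact h3
  have hx0 := abs_nonneg x
  have hf0 := abs_nonneg f
  have h4 : (1 - u) * |y| ≤ (1 - u) * |x| + (t * K + |f|) := by
    have : (1 - v) * |x| ≤ (1 - u) * |x| + t * K := by nlinarith
    linarith
  by_contra hcon
  push Not at hcon
  have h5 : 0 ≤ t * K + |f| := by
    have := mul_nonneg ht (hx0.trans hx)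
    linarith
  nlinarith

/-- The two profiles have the same median bin, with a slack `r`. -/
structure SameMed (r : ℝ) (m m' : ℕ → ℝ) (n k0 : ℕ) : Prop where
  lt : k0 < n
  r0 : 0 ≤ r
  l1 : Sm m k0 ≤ Sm m n / 2 + r
  l2 : Sm m n / 2 ≤ Sm m (k0 + 1) + r
  r1 : Sm m' k0 ≤ Sm m' n / 2 + r
  r2 : Sm m' n / 2 ≤ Sm m' (k0 + 1) + r

/-- The bound on the distance of the cumulated masses. -/
noncomputable def dB (r b : ℝ) (m m' : ℕ → ℝ) (n : ℕ) (K : ℝ) : ℝ :=
  6 * K * r + 4 * K * |Sm m n - Sm m' n| + 2 * K ^ 2 / b + 3 * (eL b m n + eL b m' n)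

theorem src_le (hb : 0 < b) (hm' : ∀ k, 0 ≤ m' k) {K : ℝ} (hK' : Sm m' n ≤ K)
    {k : ℕ} (hk : k < n) :
    |Sm m' (k + 1) * (Sm m n - Sm m' n) / b + (m k - bt b m n k) - (m' k - bt b m' n k)| ≤
      K * |Sm m n - Sm m' n| / b + |m k - bt b m n k| + |m' k - bt b m' n k| := by
  refine (abs_sub _ _).trans (add_le_add ((abs_add_le _ _).trans (add_le_add ?_ le_rfl)) le_rfl)
  rw [abs_div, abs_mul, abs_of_pos hb]
  refine div_le_div_of_nonneg_right ?_ hb.le
  refine mul_le_mul_of_nonneg_right ?_ (abs_nonneg _)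
  rw [abs_of_nonneg (Sm_nonneg hm' _)]
  exact (Sm_mono hm' (by omega)).trans hK'

/-- **Two profiles with the same median bin.** -/
theorem dist_cum (hb : 0 < b) (hm : ∀ k, 0 ≤ m k) (hm' : ∀ k, 0 ≤ m' k) {k0 : ℕ} {r : ℝ}
    (h : SameMed r m m' n k0) (hn : n ≤ b) {K : ℝ} (hK1 : 1 ≤ K) (hK : Sm m n ≤ K)
    (hK' : Sm m' n ≤ K) (hrK : r ≤ K) (hKb : 4 * K ≤ b) {k : ℕ} (hk : k ≤ n) :
    |Sm m k - Sm m' k| ≤ dB r b m m' n K := by
  have hr0 := h.r0
  set D := |Sm m n - Sm m' n| with hD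
  have hD0 : 0 ≤ D := abs_nonneg _
  have hbd : ∀ j ≤ n, |Sm m j - Sm m' j| ≤ K := by
    intro j hj
    rw [abs_le]
    have h1 := Sm_nonneg hm j
    have h2 := Sm_nonneg hm' j
    have h3 := Sm_mono hm hj
    have h4 := Sm_mono hm' hj
    constructor <;> linarith
  set e : ℕ → ℝ := fun j => |m j - bt b m n j| + |m' j - bt b m' n j| with he
  have he0 : ∀ j, 0 ≤ e j := fun j => add_nonneg (abs_nonneg _) (abs_nonneg _)
  have hesum : ∀ i j, j ≤ n → ∑ l ∈ Ico i j, e l ≤ eL b m n + eL b m' n := by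
    intro i j hj
    rw [eL, eL, ← sum_add_distrib]
    refine sum_le_sum_of_subset_of_nonneg ?_ fun l _ _ => he0 l
    intro l hl
    rw [mem_Ico] at hl
    exact mem_range.2 (by omega)
  -- one step to the right
  have stepR : ∀ j, k0 + 1 ≤ j → j < n →
      |Sm m (j + 1) - Sm m' (j + 1)| ≤ |Sm m j - Sm m' j| + (3 * K * D / b + 4 * K * r / b + 2 * e j) := by
    intro j h1 h2
    have h3 := rec_diff (b := b) (m := m) (m' := m') (n := n) j
    have h4 := h.l2.trans (add_le_add_left (Sm_mono hm h1) r)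
    have h5 := h.r2.trans (add_le_add_left (Sm_mono hm' (show k0 + 1 ≤ j + 1 by omega)) r)
    have h6 : Sm m' (j + 1) ≤ Sm m' n := Sm_mono hm' (by omega)
    have h7 : (Sm m n - Sm m j) / b ≤ 1 / 2 := by
      rw [div_le_iff₀ hb]
      linarith
    have h8 : Sm m' (j + 1) / b ≤ 1 := by
      rw [div_le_one hb]
      linarith
    have h9 : (Sm m n - Sm m j) / b ≤ Sm m' (j + 1) / b + (D + 4 * r) / (2 * b) := by
      have : (D + 4 * r) / (2 * b) = ((D + 4 * r) / 2) / b := by field_simp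
      rw [this, ← add_div]
      refine div_le_div_of_nonneg_right ?_ hb.le
      have := le_abs_self (Sm m n - Sm m' n)
      linarith
    have h10 := step_contr (t := (D + 4 * r) / (2 * b)) (K := K)
      (f := Sm m' (j + 1) * (Sm m n - Sm m' n) / b + (m j - bt b m n j) - (m' j - bt b m' n j))
      (x := Sm m j - Sm m' j) (by rw [h3]; ring) h7 h8 h9 (by positivity) (hbd j h2.le)
    refine h10.trans ?_
    have h11 := src_le (m := m) hb hm' hK' h2
    have h12 : 2 * ((D + 4 * r) / (2 * b) * K) = K * D / b + 4 * K * r / b := by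
      field_simp
      try ring
    have h13 : 3 * K * D / b = K * D / b + 2 * (K * D / b) := by ring
    rw [h13]
    simp only [he]
    linarith
  -- one step to the left
  have stepL : ∀ j, j + 1 ≤ k0 →
      |Sm m j - Sm m' j| ≤ |Sm m (j + 1) - Sm m' (j + 1)| + (3 * K * D / b + 4 * K * r / b + 2 * e j) := by
    intro j h1
    have h2 : j < n := by have := h.lt; omega
    have h3 := rec_diff (b := b) (m := m) (m' := m') (n := n) j
    have h4 := (Sm_mono hm (show j ≤ k0 by omega)).trans h.l1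
    have h5 := (Sm_mono hm' h1).trans h.r1
    have h6 : 0 ≤ Sm m j := Sm_nonneg hm j
    have h7 : Sm m' (j + 1) / b ≤ 1 / 2 := by
      rw [div_le_iff₀ hb]
      linarith
    have h8 : (Sm m n - Sm m j) / b ≤ 1 := by
      rw [div_le_one hb]
      linarith
    have h9 : Sm m' (j + 1) / b ≤ (Sm m n - Sm m j) / b + (D + 4 * r) / (2 * b) := by
      have : (D + 4 * r) / (2 * b) = ((D + 4 * r) / 2) / b := by field_simp
      rw [this, ← add_div]
      refine div_le_div_of_nonneg_right ?_ hb.le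
      have := neg_abs_le (Sm m n - Sm m' n)
      linarith
    have h10 := step_contr (t := (D + 4 * r) / (2 * b)) (K := K)
      (f := -(Sm m' (j + 1) * (Sm m n - Sm m' n) / b + (m j - bt b m n j) -
        (m' j - bt b m' n j)))
      (x := Sm m (j + 1) - Sm m' (j + 1)) (y := Sm m j - Sm m' j)
      (by rw [h3]; ring) h7 h8 h9 (by positivity) (hbd _ (by omega))
    refine h10.trans ?_
    rw [abs_neg]
    have h11 := src_le (m := m) hb hm' hK' h2
    have h12 : 2 * ((D + 4 * r) / (2 * b) * K) = K * D / b + 4 * K * r / b := by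
      field_simp
      try ring
    have h13 : 3 * K * D / b = K * D / b + 2 * (K * D / b) := by ring
    rw [h13]
    simp only [he]
    linarith
  -- the start
  have hst : ∀ j, (j = k0 ∨ j = k0 + 1) → |Sm m j - Sm m' j| ≤
      D / 2 + 2 * r + 2 * K ^ 2 / b + (eL b m n + eL b m' n) := by
    intro j hj
    have h1 := m_le hb hm h.lt
    have h2 := m_le hb hm' h.lt
    have h3 : Sm m n ^ 2 / b ≤ K ^ 2 / b :=
      div_le_div_of_nonneg_right (pow_le_pow_left₀ (Sm_nonneg hm n) hK 2) hb.le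
    have h4 : Sm m' n ^ 2 / b ≤ K ^ 2 / b :=
      div_le_div_of_nonneg_right (pow_le_pow_left₀ (Sm_nonneg hm' n) hK' 2) hb.le
    have h5 : 2 * K ^ 2 / b = K ^ 2 / b + K ^ 2 / b := by ring
    have h6 := Sm_succ m k0
    have h7 := Sm_succ m' k0
    have h8 := h.l1
    have h9 := h.l2
    have h10 := h.r1
    have h11 := h.r2
    have h12 := le_abs_self (Sm m n - Sm m' n)
    have h13 := neg_abs_le (Sm m n - Sm m' n)
    rw [← hD] at h12 h13
    have hm1 := hm k0
    have hm2 := hm' k0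
    rw [h5, abs_le]
    rcases hj with rfl | rfl
    · constructor <;> linarith
    · constructor <;> linarith
  -- all steps to the right
  have goR : ∀ i, k0 + 1 + i ≤ n → |Sm m (k0 + 1 + i) - Sm m' (k0 + 1 + i)| ≤
      D / 2 + 2 * r + 2 * K ^ 2 / b + (eL b m n + eL b m' n) + (i * (3 * K * D / b + 4 * K * r / b) +
        2 * ∑ l ∈ Ico (k0 + 1) (k0 + 1 + i), e l) := by
    intro i
    induction i with
    | zero =>
      intro _
      have := hst (k0 + 1) (Or.inr rfl)
      simpa using this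
    | succ i ih =>
      intro hi
      have h1 := ih (by omega)
      have h2 := stepR (k0 + 1 + i) (by omega) (by omega)
      rw [← add_assoc, sum_Ico_succ_top (by omega)]
      push_cast
      linarith
  have goL : ∀ i, i ≤ k0 → |Sm m (k0 - i) - Sm m' (k0 - i)| ≤
      D / 2 + 2 * r + 2 * K ^ 2 / b + (eL b m n + eL b m' n) + (i * (3 * K * D / b + 4 * K * r / b) +
        2 * ∑ l ∈ Ico (k0 - i) k0, e l) := by
    intro i
    induction i with
    | zero =>
      intro _
      have := hst k0 (Or.inl rfl)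
      simpa using this
    | succ i ih =>
      intro hi
      have h1 := ih (by omega)
      have h2 := stepL (k0 - (i + 1)) (by omega)
      have h3 : k0 - (i + 1) + 1 = k0 - i := by omega
      rw [h3] at h2
      have h4 : ∑ l ∈ Ico (k0 - (i + 1)) k0, e l =
          e (k0 - (i + 1)) + ∑ l ∈ Ico (k0 - i) k0, e l := by
        rw [sum_eq_sum_Ico_succ_bot (by omega), h3]
      rw [h4]
      push_cast
      linarith
  have hfin : ∀ (i : ℕ) (S : ℝ), i ≤ n → S ≤ eL b m n + eL b m' n →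
      D / 2 + 2 * r + 2 * K ^ 2 / b + (eL b m n + eL b m' n) +
        (i * (3 * K * D / b + 4 * K * r / b) + 2 * S) ≤ dB r b m m' n K := by
    intro i S hi hS
    have h1 : (i : ℝ) * (3 * K * D / b + 4 * K * r / b) ≤ 3 * K * D + 4 * K * r := by
      have h2 : (i : ℝ) ≤ b := (Nat.cast_le.2 hi).trans hn
      have h3 : 0 ≤ 3 * K * D / b + 4 * K * r / b := by positivity
      calc (i : ℝ) * (3 * K * D / b + 4 * K * r / b) ≤ b * (3 * K * D / b + 4 * K * r / b) :=
            mul_le_mul_of_nonneg_right h2 h3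
        _ = _ := by field_simp
    have h2 : D ≤ K * D := by nlinarith
    have h3 : r ≤ K * r := by nlinarith
    unfold dB
    rw [← hD]
    linarith
  rcases le_or_gt k k0 with h1 | h1
  · have h2 := goL (k0 - k) (by omega)
    have h3 : k0 - (k0 - k) = k := by omega
    rw [h3] at h2
    exact h2.trans (hfin _ _ (by have := h.lt; omega) (hesum _ _ h.lt.le))
  · obtain ⟨i, rfl⟩ := Nat.exists_eq_add_of_le (show k0 + 1 ≤ k from h1)
    exact (goR i hk).trans (hfin _ _ (by omega) (hesum _ _ hk))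

/-- **Stability in variation.** -/
theorem dist_l1 (hb : 0 < b) (hm : ∀ k, 0 ≤ m k) (hm' : ∀ k, 0 ≤ m' k) {k0 : ℕ} {r : ℝ}
    (h : SameMed r m m' n k0) (hn : n ≤ b) {K : ℝ} (hK1 : 1 ≤ K) (hK : Sm m n ≤ K)
    (hK' : Sm m' n ≤ K) (hrK : r ≤ K) (hKb : 4 * K ≤ b) :
    ∑ k ∈ range n, |m k - m' k| ≤ 4 * K * dB r b m m' n K := by
  have hr0 := h.r0
  set D := |Sm m n - Sm m' n| with hD
  have hD0 : 0 ≤ D := abs_nonneg _
  have hdc := fun {k : ℕ} (hk : k ≤ n) => dist_cum hb hm hm' h hn hK1 hK hK' hrK hKb hk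
  set Δ := dB r b m m' n K with hΔ
  have hΔ0 : 0 ≤ Δ := (abs_nonneg _).trans (hdc (Nat.zero_le _))
  have h1 : ∀ k ∈ range n, |m k - m' k| ≤
      |m k - bt b m n k| + |m' k - bt b m' n k| + K * (2 * Δ + D) / b := by
    intro k hk
    rw [mem_range] at hk
    have h2 : |bt b m n k - bt b m' n k| ≤ K * (2 * Δ + D) / b := by
      have h3 : bt b m n k - bt b m' n k = ((Sm m (k + 1) - Sm m' (k + 1)) * (Sm m n - Sm m k) +
          Sm m' (k + 1) * ((Sm m n - Sm m' n) - (Sm m k - Sm m' k))) / b := by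
        unfold bt
        ring
      rw [h3, abs_div, abs_of_pos hb]
      refine div_le_div_of_nonneg_right ?_ hb.le
      refine (abs_add_le _ _).trans ?_
      rw [abs_mul, abs_mul]
      have h4 := hdc (show k + 1 ≤ n by omega)
      have h5 := hdc hk.le
      have h6 : |Sm m n - Sm m k| ≤ K := by
        rw [abs_of_nonneg (sub_Sm_nonneg hm hk.le)]
        linarith [Sm_nonneg hm k]
      have h7 : |Sm m' (k + 1)| ≤ K := by
        rw [abs_of_nonneg (Sm_nonneg hm' _)]
        exact (Sm_mono hm' (by omega)).trans hK'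
      have h8 : |Sm m n - Sm m' n - (Sm m k - Sm m' k)| ≤ D + Δ :=
        (abs_sub _ _).trans (add_le_add le_rfl h5)
      have hK0 : 0 ≤ K := by linarith
      calc _ ≤ Δ * K + K * (D + Δ) := add_le_add
            (mul_le_mul h4 h6 (abs_nonneg _) hΔ0) (mul_le_mul h7 h8 (abs_nonneg _) hK0)
        _ = _ := by ring
    have h3 : m k - m' k = (m k - bt b m n k) - (m' k - bt b m' n k) +
        (bt b m n k - bt b m' n k) := by ring
    rw [h3]
    exact (abs_add_le _ _).trans (add_le_add (abs_sub _ _) h2)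
  have h2 := sum_le_sum h1
  rw [sum_add_distrib, sum_add_distrib, sum_const, card_range, nsmul_eq_mul] at h2
  have h3 : (n : ℝ) * (K * (2 * Δ + D) / b) ≤ K * (2 * Δ + D) := by
    have h4 : 0 ≤ K * (2 * Δ + D) / b := by positivity
    calc (n : ℝ) * (K * (2 * Δ + D) / b) ≤ b * (K * (2 * Δ + D) / b) :=
          mul_le_mul_of_nonneg_right hn h4
      _ = _ := by field_simp
  have h4 : K * D ≤ Δ / 4 ∧ eL b m n + eL b m' n ≤ Δ / 3 := by
    have h5 : 0 ≤ 2 * K ^ 2 / b := by positivity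
    have h6 : 0 ≤ eL b m n := eL_nonneg
    have h7 : 0 ≤ eL b m' n := eL_nonneg
    have h8 : 0 ≤ K * D := by positivity
    have h10 : 0 ≤ 6 * K * r := by positivity
    have h9 : Δ = 6 * K * r + 4 * (K * D) + 2 * K ^ 2 / b + 3 * (eL b m n + eL b m' n) := by
      rw [hΔ, dB]
      ring
    constructor <;> linarith
  have h5 : eL b m n + eL b m' n = ∑ k ∈ range n, |m k - bt b m n k| +
      ∑ k ∈ range n, |m' k - bt b m' n k| := rfl
  rw [← h5] at h2
  nlinarith [h4.1, h4.2]

end Pool.Agent.Rg
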