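import Pool.Agent.Lib.MP_09cbbd_rg.Arc
import Pool.Agent.Lib.MP_09cbbd_rg.Stab

/-!
# Localisation around the median
-/

set_option autoImplicit false

namespace Pool.Agent.Rg

open Finset Real

/-- A far mass which sees the energy `A` is small. -/
theorem sg_sub_le {z x : ℝ} (hz : 0 < z) (hx : 0 ≤ x) (A s : ℝ) :
    sg z x - x * A ≤ z * exp (s - A) - s * x := by
  have h1 := sg_mul (r := exp (s - A)) hz (exp_pos _) hx
  have h2 := sg_le (mul_pos hz (exp_pos (s - A))) hx
  rw [h1, log_exp] at h2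
  linarith

/-- The part of a profile within `w` bins of `k0`. -/
noncomputable def nearP (m : ℕ → ℝ) (k0 w k : ℕ) : ℝ :=
  if k ≤ k0 + w ∧ k0 ≤ k + w then m k else 0

variable {m : ℕ → ℝ} {z b : ℝ} {n k0 w : ℕ}

theorem nearP_nonneg (hm : ∀ k, 0 ≤ m k) (k : ℕ) : 0 ≤ nearP m k0 w k := by
  unfold nearP
  split_ifs
  · exact hm k
  · exact le_rfl

theorem nearP_le (hm : ∀ k, 0 ≤ m k) (k : ℕ) : nearP m k0 w k ≤ m k := by
  unfold nearP
  split_ifs
  · exact le_rfl
  · exact hm k

theorem valL_eq (z b : ℝ) (m : ℕ → ℝ) (n : ℕ) : valL z b m n =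
    ∑ k ∈ range n, sg z (m k) -
      1 / (2 * b) * ∑ i ∈ range n, ∑ j ∈ range n, |(i : ℝ) - j| * m i * m j := by
  rw [sum_cuts, valL]
  congr 1
  rw [← mul_assoc]
  congr 1
  rw [one_div, one_div, mul_inv]
  ring

/-- The median bin. -/
theorem exists_median (hm : ∀ k, 0 ≤ m k) (hn : 0 < n) :
    ∃ k0 < n, Sm m k0 ≤ Sm m n / 2 ∧ Sm m n / 2 ≤ Sm m (k0 + 1) := by
  classical
  have hex : ∃ k, Sm m n / 2 ≤ Sm m (k + 1) := by
    refine ⟨n - 1, ?_⟩
    rw [Nat.sub_add_cancel hn]
    linarith [Sm_nonneg hm n]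
  refine ⟨Nat.find hex, ?_, ?_, Nat.find_spec hex⟩
  · have h1 : Nat.find hex ≤ n - 1 := Nat.find_min' hex (by
      rw [Nat.sub_add_cancel hn]
      linarith [Sm_nonneg hm n])
    omega
  · rcases Nat.eq_zero_or_pos (Nat.find hex) with h | h
    · rw [h]
      simp only [Sm_zero]
      linarith [Sm_nonneg hm n]
    · have h1 := Nat.find_min hex (Nat.sub_one_lt_of_lt h)
      rw [Nat.sub_add_cancel h] at h1
      linarith

/-- The mass at a distance of more than `w` bins of `k0`. -/
noncomputable def farM (m : ℕ → ℝ) (k0 w n : ℕ) : ℝ := Sm m n - Sm (nearP m k0 w) n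

theorem farM_nonneg (hm : ∀ k, 0 ≤ m k) : 0 ≤ farM m k0 w n := by
  unfold farM Sm
  linarith [sum_le_sum (s := range n) fun k _ => nearP_le (k0 := k0) (w := w) hm k]

/-- **Localisation around the median.** -/
theorem near_le (hz : 0 < z) (hb : 0 < b) (hm : ∀ k, 0 ≤ m k) (h0 : k0 < n)
    (h1 : Sm m k0 ≤ Sm m n / 2) (h2 : Sm m n / 2 ≤ Sm m (k0 + 1)) (hn : n ≤ b) :
    valL z b m n + 2 * farM m k0 w n ≤ valL z b (nearP m k0 w) n +
      b * z * exp (2 - w * Sm m n / (4 * b)) := by
  set y := nearP m k0 w with hy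
  set A := w * Sm m n / (4 * b) with hA
  have hw0 : (0 : ℝ) ≤ w := Nat.cast_nonneg w
  -- the energy
  have h3 : ∀ i ∈ range n, (∑ j ∈ range n, |(i : ℝ) - j| * y i * y j) + 4 * b * A / 2 *
      (m i - y i) ≤ ∑ j ∈ range n, |(i : ℝ) - j| * m i * m j := by
    intro i hi
    rw [mem_range] at hi
    by_cases hf : i ≤ k0 + w ∧ k0 ≤ i + w
    · have h4 : y i = m i := by rw [hy, nearP, if_pos hf]
      rw [h4, sub_self, mul_zero, add_zero]
      refine sum_le_sum fun j _ => ?_
      exact mul_le_mul_of_nonneg_left (nearP_le hm j)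
        (mul_nonneg (abs_nonneg _) (hm i))
    · have h4 : y i = 0 := by rw [hy, nearP, if_neg hf]
      rw [h4, sub_zero]
      simp only [mul_zero, zero_mul, sum_const_zero, zero_add]
      have h5 : 4 * b * A / 2 = w * (Sm m n / 2) := by
        rw [hA]
        field_simp
      rw [h5]
      have h6 : w * (Sm m n / 2) ≤ ∑ j ∈ range n, |(i : ℝ) - j| * m j := by
        rcases lt_or_ge (k0 + w) i with h7 | h7
        · -- far to the right
          have h8 : ∑ j ∈ range (k0 + 1), (w : ℝ) * m j ≤ ∑ j ∈ range n, |(i : ℝ) - j| * m j := by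
            refine (sum_le_sum (s := range (k0 + 1)) fun j hj => ?_).trans
              (sum_le_sum_of_subset_of_nonneg (range_subset_range.2 (show k0 + 1 ≤ n from h0))
                fun j _ _ => mul_nonneg (abs_nonneg _) (hm j))
            refine mul_le_mul_of_nonneg_right ?_ (hm j)
            rw [mem_range] at hj
            have h9 : ((w : ℕ) : ℝ) + j ≤ i := by exact_mod_cast (show w + j ≤ i by omega)
            exact le_trans (by linarith) (le_abs_self _)
          rw [← mul_sum] at h8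
          exact (mul_le_mul_of_nonneg_left h2 hw0).trans h8
        · -- far to the left
          have h7' : i + w < k0 := by
            by_contra hcon
            exact hf ⟨h7, by omega⟩
          have h8 : ∑ j ∈ Ico k0 n, (w : ℝ) * m j ≤ ∑ j ∈ range n, |(i : ℝ) - j| * m j := by
            refine (sum_le_sum (s := Ico k0 n) fun j hj => ?_).trans
              (sum_le_sum_of_subset_of_nonneg (fun j hj => mem_range.2 (mem_Ico.1 hj).2)
                fun j _ _ => mul_nonneg (abs_nonneg _) (hm j))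
            refine mul_le_mul_of_nonneg_right ?_ (hm j)
            rw [mem_Ico] at hj
            have h9 : ((i : ℕ) : ℝ) + w ≤ j := by exact_mod_cast (show i + w ≤ j by omega)
            have h10 := neg_le_abs ((i : ℝ) - j)
            linarith
          rw [← mul_sum] at h8
          have h9 : ∑ j ∈ Ico k0 n, m j = Sm m n - Sm m k0 := by
            rw [Sm, Sm, sum_Ico_eq_sub _ h0.le]
          rw [h9] at h8
          exact (mul_le_mul_of_nonneg_left (by linarith) hw0).trans h8
      have h7 : ∑ j ∈ range n, |(i : ℝ) - j| * m i * m j =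
          m i * ∑ j ∈ range n, |(i : ℝ) - j| * m j := by
        rw [mul_sum]
        exact sum_congr rfl fun j _ => by ring
      rw [h7, mul_comm]
      exact mul_le_mul_of_nonneg_left h6 (hm i)
  have h4 := sum_le_sum h3
  rw [sum_add_distrib, ← mul_sum, sum_sub_distrib] at h4
  -- the entropy
  have h5 : ∀ k ∈ range n, sg z (m k) - (m k - y k) * A ≤ sg z (y k) +
      (z * exp (2 - A) - 2 * (m k - y k)) := by
    intro k _
    by_cases hf : k ≤ k0 + w ∧ k0 ≤ k + w
    · have h6 : y k = m k := by rw [hy, nearP, if_pos hf]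
      rw [h6]
      have := mul_pos hz (exp_pos (2 - A))
      simp only [sub_self, zero_mul, mul_zero, sub_zero]
      linarith
    · have h6 : y k = 0 := by rw [hy, nearP, if_neg hf]
      rw [h6, sg_zero, sub_zero, zero_add]
      exact sg_sub_le hz (hm k) A 2
  have h6 := sum_le_sum h5
  rw [sum_sub_distrib, sum_add_distrib, sum_sub_distrib, sum_const, card_range, nsmul_eq_mul,
    ← sum_mul, ← mul_sum, sum_sub_distrib] at h6
  have h7 : ∑ k ∈ range n, m k - ∑ k ∈ range n, y k = farM m k0 w n := rfl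
  rw [h7] at h4 h6
  rw [valL_eq, valL_eq]
  have h8 : (n : ℝ) * (z * exp (2 - A)) ≤ b * z * exp (2 - A) := by
    rw [mul_assoc]
    exact mul_le_mul_of_nonneg_right hn (mul_pos hz (exp_pos _)).le
  have h9 : 1 / (2 * b) * (∑ i ∈ range n, ∑ j ∈ range n, |(i : ℝ) - j| * y i * y j +
      4 * b * A / 2 * farM m k0 w n) ≤
      1 / (2 * b) * ∑ i ∈ range n, ∑ j ∈ range n, |(i : ℝ) - j| * m i * m j :=
    mul_le_mul_of_nonneg_left h4 (by positivity)
  have h10 : 1 / (2 * b) * (4 * b * A / 2 * farM m k0 w n) = farM m k0 w n * A := by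
    field_simp
    try ring
  rw [mul_add, h10] at h9
  linarith

end Pool.Agent.Rg
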