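import Pool.Agent.Lib.MP_09cbbd_rg.Loc
import Mathlib.Analysis.Complex.ExponentialBounds

/-!
# Masses above the fluid mass, all windows light: the value is at most a quarter of the fluid value
-/

set_option autoImplicit false

namespace Pool.Agent.Rg

open Finset Real

variable {B : ℕ} [NeZero B]

/-- Potts value, no cell heavier than `A`, total mass at least `5 L` -/
theorem potts_mid {ι : Type*} [Fintype ι] [Nonempty ι] (a : ι → ℝ) {c L s A K : ℝ} (hL : 1 ≤ L)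
    (hs : s = 1 - 1 / Fintype.card ι) (hz : Fintype.card ι * c = L * exp (s * L))
    (hs5 : 5 / 6 ≤ s) (hs1 : s ≤ 1) (hK : K = 1 + log (4 * c)) (hKL : K ≤ L / 4)
    (hAK : A * K ≤ L ^ 2 / 16) (hK0 : 0 ≤ K)
    (ha : ∀ i, 0 ≤ a i) (haA : ∀ i, a i ≤ A) (hN : 5 * L ≤ ∑ i, a i) :
    ∑ i, (sg c (a i) + a i ^ 2 / 2) - (∑ i, a i) ^ 2 / 2 ≤ L ^ 2 / 8 + L := by
  classical
  have hn : (0 : ℝ) < Fintype.card ι := by exact_mod_cast Fintype.card_pos
  have hc : 0 < c := by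
    have : 0 < Fintype.card ι * c := by rw [hz]; positivity
    exact (mul_pos_iff_of_pos_left hn).1 this
  set T : Finset ι := univ.filter fun i => a i ≤ 1 / 4 with hT
  have hT4 : ∀ i ∈ T, a i ≤ 1 / 4 := fun i hi => (mem_filter.1 hi).2
  have hTc : ∀ i ∈ Tᶜ, 1 / 4 < a i := fun i hi => by
    rw [mem_compl, hT, mem_filter] at hi
    push Not at hi
    exact hi (mem_univ i)
  have h := potts_split a hc ha T hT4
  rw [hz, ← hs] at h
  have hNsum : ∑ i, a i = ∑ i ∈ T, a i + ∑ i ∈ Tᶜ, a i := (sum_add_sum_compl T _).symm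
  rw [hNsum] at hN
  set Q := ∑ i ∈ Tᶜ, a i with hQ
  set x := ∑ i ∈ T, a i with hx
  have hx0 : 0 ≤ x := sum_nonneg fun i _ => ha i
  have hQ0 : 0 ≤ Q := sum_nonneg fun i _ => ha i
  have hkl : 0 ≤ ∑ i ∈ T, kl (a i) (x / Fintype.card ι) := by
    rcases hx0.eq_or_lt with h0 | hpos
    · have h1 : ∀ i ∈ T, a i = 0 := by
        rw [hx] at h0; exact (sum_eq_zero_iff_of_nonneg fun i _ => ha i).1 h0.symm
      rw [← h0]
      refine sum_nonneg fun i hi => ?_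
      rw [h1 i hi]; simp [kl, sg]
    · exact sum_nonneg fun i _ => kl_nonneg (ha i) (div_pos hpos hn)
  have hsg : ∑ i ∈ Tᶜ, sg c (a i) ≤ Q * K := by
    rw [hQ, sum_mul]
    refine sum_le_sum fun i hi => ?_
    have h4 := hTc i hi
    have ha0 : 0 < a i := by linarith
    unfold sg
    have h5 : log (c / a i) ≤ log (4 * c) := by
      apply Real.log_le_log (div_pos hc ha0)
      rw [div_le_iff₀ ha0]
      nlinarith
    rw [hK]
    exact mul_le_mul_of_nonneg_left (by linarith) ha0.le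
  have hsq : ∑ i ∈ Tᶜ, a i ^ 2 ≤ Q ^ 2 := sum_sq_le_sq_sum_of_nonneg fun i _ => ha i
  have hsqA : ∑ i ∈ Tᶜ, a i ^ 2 ≤ A * Q := by
    rw [hQ, mul_sum]
    refine sum_le_sum fun i _ => ?_
    have := haA i; have := ha i
    nlinarith
  rcases le_or_gt L Q with hq | hq
  · have hF := fluid_Q' (s := s) (Q := Q) (x := x) (by linarith : 0 < L) (by linarith) hs1 hq hx0
    have e5 : ∑ i ∈ Tᶜ, sg c (a i) + (∑ i ∈ Tᶜ, a i ^ 2 - Q ^ 2) / 2 ≤ L ^ 2 / 8 := by
      rcases le_or_gt (2 * A) Q with hA | hA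
      · have e6 : ∑ i ∈ Tᶜ, a i ^ 2 ≤ Q ^ 2 / 2 := by nlinarith
        nlinarith [sq_nonneg (Q / 2 - K)]
      · have e7 : Q * K ≤ 2 * A * K := by gcongr
        nlinarith
    linarith
  · have hx4 : 4 * L ≤ x := by linarith
    have hF := fluid_eq (s := s) (L := L) (by linarith) hx0
    have hk := kl_nonneg hx0 (by linarith : 0 < L)
    have e1 : (3 * L) ^ 2 ≤ (x - L) ^ 2 := by
      apply pow_le_pow_left₀ (by linarith); linarith
    have e2 : Q * K ≤ L * (L / 4) := by gcongr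
    have e3 : 0 ≤ Q * x := mul_nonneg hQ0 hx0
    have e4 : s * (3 * L) ^ 2 ≤ s * (x - L) ^ 2 := by gcongr
    have e5 : 5 / 6 * L ^ 2 ≤ s * L ^ 2 := by gcongr
    nlinarith [sq_nonneg L]

/-- light windows, mass at least `5 L` -/
theorem light_mid {n b : ℕ} {ζ L s A K : ℝ} (h : Par n b ζ L s A K) (hB : B = n * b)
    (hKL : K ≤ L / 4) {M : ZMod B → ℝ} (hM : ∀ j, 0 ≤ M j) (hA : ∀ t, win b M t ≤ A)
    (hN : 5 * L ≤ mass M) : P b ζ M ≤ L ^ 2 / 8 + L := by
  have hn := h.hn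
  have : Nonempty (Fin n) := ⟨⟨0, by omega⟩⟩
  have hB' : (0 : ℝ) < B := by exact_mod_cast NeZero.pos B
  have hw0 : ∀ t, 0 ≤ win b M t := fun t => sum_nonneg fun r _ => hM _
  have h1 : ∀ t ∈ (univ : Finset (ZMod B)), Pt n b ζ M t ≤ L ^ 2 / 8 + L := by
    intro t _
    have h2 := potts_mid (fun i : Fin n => win b M (t + ((i : ℕ) * b : ℕ))) (c := b * ζ)
      (L := L) (s := s) (A := A) (K := K) h.hL (by rw [Fintype.card_fin]; exact h.hs)
      (by rw [Fintype.card_fin]; exact h.hz) h.s_ge h.s_le h.hK hKL h.hAK h.hK0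
      (fun i => hw0 _) (fun i => hA _) (by rw [sum_cells hB]; exact hN)
    rw [sum_cells hB] at h2
    have h4 : 0 ≤ ∑ i : Fin n, klw b ζ M (t + ((i : ℕ) * b : ℕ)) :=
      sum_nonneg fun i _ => klw_nonneg h.hb h.ζ_pos hM _
    unfold Pt
    linarith
  have hsum := P_avg h.hb (by omega : 2 ≤ n) hB ζ M
  have h5 : B * P b ζ M ≤ B * (L ^ 2 / 8 + L) := by
    rw [hsum]
    have h6 := sum_le_card_nsmul _ _ _ h1
    rwa [nsmul_eq_mul, card_univ, ZMod.card] at h6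
  exact le_of_mul_le_mul_left h5 hB'

/-- scaling of the mass -/
theorem P_smul {b : ℕ} {ζ t : ℝ} (hζ : 0 < ζ) (ht : 0 < t) {M : ZMod B → ℝ} (hM : ∀ j, 0 ≤ M j) :
    P b ζ (fun j => t * M j) = t * Sn ζ M - t * log t * mass M - t ^ 2 * (En b M / 2) := by
  unfold P
  have e1 : Sn ζ (fun j => t * M j) = t * Sn ζ M - t * log t * mass M := by
    unfold Sn mass
    rw [mul_sum, mul_sum, ← sum_sub_distrib]
    refine sum_congr rfl fun j _ => ?_
    rcases (hM j).eq_or_lt with h | h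
    · simp only [← h, mul_zero, sg_zero, sub_zero]
    · unfold sg
      rw [show ζ / (t * M j) = (ζ / M j) / t by field_simp, Real.log_div (div_pos hζ h).ne' ht.ne']
      ring
  have e2 : En b (fun j => t * M j) = t ^ 2 * En b M := by
    unfold En
    rw [mul_sum]
    refine sum_congr rfl fun j _ => ?_
    rw [mul_sum]
    refine sum_congr rfl fun k _ => ?_
    ring
  rw [e1, e2]; ring

omit [NeZero B] in
theorem En_nonneg [NeZero B] (b : ℕ) {M : ZMod B → ℝ} (hM : ∀ j, 0 ≤ M j) : 0 ≤ En b M :=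
  sum_nonneg fun _ _ => sum_nonneg fun _ _ =>
    mul_nonneg (mul_nonneg (U_nonneg _ _) (hM _)) (hM _)

/-- crude bounds from the supremum alone -/
theorem crude {b : ℕ} {ζ p : ℝ} (hζ : 0 < ζ)
    (hp : ∀ M : ZMod B → ℝ, (∀ j, 0 ≤ M j) → P b ζ M ≤ p) {M : ZMod B → ℝ} (hM : ∀ j, 0 ≤ M j) :
    P b ζ M ≤ exp 1 * p - mass M := by
  have hN : 0 ≤ mass M := sum_nonneg fun j _ => hM j
  have hE := En_nonneg b hM
  have h1 := hp (fun j => exp (-1) * M j) fun j => mul_nonneg (exp_pos _).le (hM j)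
  rw [P_smul hζ (exp_pos _) hM, Real.log_exp] at h1
  have h2 : exp 1 * exp (-1) = 1 := by rw [← exp_add]; simp
  have h3 : exp (-1) ^ 2 ≤ exp (-1) := by
    rw [sq]
    have : exp (-1) ≤ 1 := by rw [Real.exp_le_one_iff]; norm_num
    nlinarith [exp_pos (-1 : ℝ)]
  have h4 : exp 1 * (exp (-1) * Sn ζ M - exp (-1) * (-1) * mass M -
      exp (-1) ^ 2 * (En b M / 2)) ≤ exp 1 * p := by gcongr
  have h5 : exp 1 * exp (-1) ^ 2 = exp (-1) := by rw [sq, ← mul_assoc, h2, one_mul]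
  have h6 : exp (-1) * (En b M / 2) ≤ En b M / 2 := by
    have : exp (-1) ≤ 1 := by rw [Real.exp_le_one_iff]; norm_num
    nlinarith
  unfold P
  have h7 : exp 1 * (exp (-1) * Sn ζ M - exp (-1) * (-1) * mass M -
      exp (-1) ^ 2 * (En b M / 2)) = Sn ζ M + mass M - exp (-1) * (En b M / 2) := by
    calc _ = (exp 1 * exp (-1)) * Sn ζ M + (exp 1 * exp (-1)) * mass M -
          (exp 1 * exp (-1) ^ 2) * (En b M / 2) := by ring
      _ = _ := by rw [h2, h5]; ring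
  linarith

/-- (MF2), first half: nonnegative value bounds the mass -/
theorem crude_mass {b : ℕ} {ζ p : ℝ} (hζ : 0 < ζ)
    (hp : ∀ M : ZMod B → ℝ, (∀ j, 0 ≤ M j) → P b ζ M ≤ p) (hp0 : 0 ≤ p) {M : ZMod B → ℝ}
    (hM : ∀ j, 0 ≤ M j) (h0 : 0 ≤ P b ζ M) : mass M ≤ 3 * p := by
  have h1 := crude hζ hp hM
  have h2 : exp 1 ≤ 3 := by have := Real.exp_one_lt_d9; linarith
  nlinarith

/-- (MF2), second half: nonnegative value bounds the energy -/
theorem crude_En {b : ℕ} {ζ p : ℝ} (hζ : 0 < ζ)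
    (hp : ∀ M : ZMod B → ℝ, (∀ j, 0 ≤ M j) → P b ζ M ≤ p) {M : ZMod B → ℝ}
    (hM : ∀ j, 0 ≤ M j) (h0 : 0 ≤ P b ζ M) : En b M ≤ 8 * p := by
  have hN : 0 ≤ mass M := sum_nonneg fun j _ => hM j
  have h1 := hp (fun j => (1 / 2) * M j) fun j => mul_nonneg (by norm_num) (hM j)
  rw [P_smul hζ (by norm_num) hM] at h1
  have h2 : log (1 / 2) ≤ 0 := Real.log_nonpos (by norm_num) (by norm_num)
  have h3 : 1 / 2 * log (1 / 2) * mass M ≤ 0 :=
    mul_nonpos_of_nonpos_of_nonneg (by linarith) hN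
  unfold P at h0
  linarith

/-- (MF2), large masses -/
theorem crude_large {b : ℕ} {ζ p : ℝ} (hζ : 0 < ζ)
    (hp : ∀ M : ZMod B → ℝ, (∀ j, 0 ≤ M j) → P b ζ M ≤ p) {M : ZMod B → ℝ}
    (hM : ∀ j, 0 ≤ M j) (h6 : 6 * p ≤ mass M) : P b ζ M ≤ -(mass M / 3) := by
  have hN : 0 ≤ mass M := sum_nonneg fun j _ => hM j
  have h1 := crude hζ hp hM
  have h2 : exp 1 ≤ 3 := by have := Real.exp_one_lt_d9; linarith
  have h3 : exp 1 * p ≤ exp 1 * (mass M / 6) := by
    apply mul_le_mul_of_nonneg_left _ (exp_pos _).le; linarith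
  nlinarith

end Pool.Agent.Rg
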