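import Pool.Agent.Lib.MP_09cbbd_rg.Def

/-!
# Relative entropy, Young's inequality, partial sums
-/

set_option autoImplicit false

namespace Pool.Agent.Rg

open Finset Real

/-- The relative entropy function. -/
noncomputable def ph (u : ℝ) : ℝ := u * log u - u + 1

@[simp] theorem ph_zero : ph 0 = 1 := by simp [ph]

/-- Young's inequality. -/
theorem young {u : ℝ} (hu : 0 ≤ u) (s : ℝ) : u * s ≤ exp s - 1 + ph u := by
  rcases hu.eq_or_lt with rfl | h
  · simp only [zero_mul, ph_zero, sub_add_cancel]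
    exact (exp_pos s).le
  · have h1 := add_one_le_exp (s - log u)
    have h2 : exp (s - log u) * u = exp s := by
      rw [exp_sub, exp_log h]
      field_simp
    have h3 : (s - log u + 1) * u ≤ exp s := by
      rw [← h2]
      exact mul_le_mul_of_nonneg_right h1 h.le
    unfold ph
    nlinarith

theorem ph_nonneg {u : ℝ} (hu : 0 ≤ u) : 0 ≤ ph u := by
  have := young hu 0
  simpa using this

/-- Young's inequality with a reference mass. -/
theorem young' {c m : ℝ} (hc : 0 < c) (hm : 0 ≤ m) (s : ℝ) :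
    m * s ≤ c * (exp s - 1) + c * ph (m / c) := by
  have h := mul_le_mul_of_nonneg_left (young (div_nonneg hm hc.le) s) hc.le
  have h1 : c * (m / c * s) = m * s := by field_simp
  rw [h1, mul_add] at h
  exact h

theorem sg_eq {c m : ℝ} (hc : 0 < c) (hm : 0 ≤ m) : sg c m = c - c * ph (m / c) := by
  rcases hm.eq_or_lt with rfl | h
  · simp [sg]
  · have h1 : log (c / m) = -log (m / c) := by
      rw [← log_inv, inv_div]
    unfold sg ph
    rw [h1]
    field_simp
    ring

/-- Partial sums. -/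
noncomputable def Sm (a : ℕ → ℝ) (k : ℕ) : ℝ := ∑ j ∈ range k, a j

@[simp] theorem Sm_zero (a : ℕ → ℝ) : Sm a 0 = 0 := by simp [Sm]

theorem Sm_succ (a : ℕ → ℝ) (k : ℕ) : Sm a (k + 1) = Sm a k + a k := by
  simp [Sm, sum_range_succ]

theorem Sm_nonneg {a : ℕ → ℝ} (ha : ∀ k, 0 ≤ a k) (k : ℕ) : 0 ≤ Sm a k :=
  sum_nonneg fun j _ => ha j

theorem Sm_mono {a : ℕ → ℝ} (ha : ∀ k, 0 ≤ a k) : Monotone (Sm a) := by
  refine monotone_nat_of_le_succ fun k => ?_
  rw [Sm_succ]
  linarith [ha k]

/-- `x log x - x`. -/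
noncomputable def Hx (x : ℝ) : ℝ := x * log x - x

@[simp] theorem Hx_zero : Hx 0 = 0 := by simp [Hx]

theorem Hx_sub_le {x y : ℝ} (hx : 0 ≤ x) (hxy : x ≤ y) : Hx y - Hx x ≤ (y - x) * log y := by
  rcases hx.eq_or_lt with rfl | h
  · simp only [Hx_zero, sub_zero]
    unfold Hx
    linarith
  · have hy : 0 < y := h.trans_le hxy
    have h1 : log x ≥ log y + 1 - y / x := by
      have h2 := log_le_sub_one_of_pos (div_pos hy h)
      rw [log_div hy.ne' h.ne'] at h2
      linarith
    have h3 : x * (y / x) = y := by field_simp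
    unfold Hx
    nlinarith [mul_le_mul_of_nonneg_left h1 h.le]

theorem Hx_sub_ge {x y : ℝ} (hx : 0 ≤ x) (hxy : x ≤ y) (hy : 0 < y) :
    (y - x) * log y ≤ Hx y - Hx x + (y - x) ^ 2 / y := by
  rcases hx.eq_or_lt with rfl | h
  · simp only [Hx_zero, sub_zero]
    unfold Hx
    have : y ^ 2 / y = y := by field_simp
    rw [this]
    linarith
  · have h1 : log x ≤ log y + x / y - 1 := by
      have h2 := log_le_sub_one_of_pos (div_pos h hy)
      rw [log_div h.ne' hy.ne'] at h2
      linarith
    have h3 : (y - x) ^ 2 / y = y - 2 * x + x * (x / y) := by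
      field_simp
      ring
    rw [h3]
    unfold Hx
    nlinarith [mul_le_mul_of_nonneg_left h1 h.le]

end Pool.Agent.Rg
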