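import Pool.Agent.Lib.MP_09cbbd_rg.Def

/-!
# The mean field Potts functional

`n` cells of activity `c`, `a i` the mass of cell `i`, value `∑ (sg c (a i) + a i ^ 2 / 2) - N ^ 2 / 2`.
-/

set_option autoImplicit false

namespace Pool.Agent.Rg

open Finset Real

/-- generalised relative entropy -/
noncomputable def kl (x y : ℝ) : ℝ := y - sg y x

theorem sg_eq_kl (x y : ℝ) : sg y x = y - kl x y := by unfold kl; ring

theorem kl_hellinger {x y : ℝ} (hx : 0 ≤ x) (hy : 0 < y) : (√x - √y) ^ 2 ≤ kl x y := by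
  rcases hx.eq_or_lt with h | h
  · rw [← h]; unfold kl; rw [sg_zero]; simp [Real.sq_sqrt hy.le]
  · unfold kl sg
    have h1 := Real.log_le_sub_one_of_pos (x := √y / √x) (by positivity)
    have h2 : log (y / x) = 2 * log (√y / √x) := by
      rw [← Real.sqrt_div' _ h.le, Real.log_sqrt (div_pos hy h).le]; ring
    have h3 : x * (√y / √x) = √x * √y := by
      have : √x ≠ 0 := by positivity
      field_simp
      rw [Real.sq_sqrt h.le]
    rw [h2]
    have h4 : x * (1 + 2 * log (√y / √x)) ≤ x * (1 + 2 * (√y / √x - 1)) := by gcongr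
    have h5 : x * (1 + 2 * (√y / √x - 1)) = 2 * (√x * √y) - x := by rw [← h3]; ring
    have h6 : (√x - √y) ^ 2 = x + y - 2 * (√x * √y) := by
      rw [sub_sq, Real.sq_sqrt h.le, Real.sq_sqrt hy.le]; ring
    rw [h6]; linarith

theorem kl_nonneg {x y : ℝ} (hx : 0 ≤ x) (hy : 0 < y) : 0 ≤ kl x y :=
  (sq_nonneg _).trans (kl_hellinger hx hy)

theorem kl_sq {x y : ℝ} (hx : 0 ≤ x) (hy : 0 < y) (hx4 : x ≤ 1 / 4) (hy4 : y ≤ 1 / 4) :
    (x - y) ^ 2 ≤ kl x y := by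
  refine le_trans ?_ (kl_hellinger hx hy)
  have h1 : x - y = (√x - √y) * (√x + √y) := by
    have := Real.sq_sqrt hx; have := Real.sq_sqrt hy.le; nlinarith
  have h2 : √x ≤ 1 / 2 := by
    rw [show (1 / 2 : ℝ) = √(1 / 4) by rw [show (1 / 4 : ℝ) = (1 / 2) ^ 2 by norm_num]; simp]
    exact Real.sqrt_le_sqrt hx4
  have h3 : √y ≤ 1 / 2 := by
    rw [show (1 / 2 : ℝ) = √(1 / 4) by rw [show (1 / 4 : ℝ) = (1 / 2) ^ 2 by norm_num]; simp]
    exact Real.sqrt_le_sqrt hy4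
  have h4 : (√x + √y) ^ 2 ≤ 1 := by
    have := Real.sqrt_nonneg x; have := Real.sqrt_nonneg y
    nlinarith
  rw [h1, mul_pow]
  nlinarith [sq_nonneg (√x - √y)]

/-- exact second order form of the fluid functional -/
theorem fluid_eq {L s x : ℝ} (hL : 0 < L) (hx : 0 ≤ x) :
    sg (L * exp (s * L)) x - s * x ^ 2 / 2 =
      (L + s * L ^ 2 / 2) - kl x L - s * (x - L) ^ 2 / 2 := by
  rw [sg_mul hL (exp_pos _) hx, Real.log_exp, sg_eq_kl]; ring

/-- Legendre bound of the fluid functional against an extra repulsion `Q` -/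
theorem fluid_leg {z s Q x y : ℝ} (hz : 0 < z) (hs : 0 ≤ s) (hx : 0 ≤ x) :
    sg z x - s * x ^ 2 / 2 - Q * x ≤ z * exp (-(Q + s * y)) + s * y ^ 2 / 2 := by
  have h1 := sg_le (mul_pos hz (exp_pos (-(Q + s * y)))) hx
  rw [sg_mul hz (exp_pos _) hx, Real.log_exp] at h1
  nlinarith [mul_nonneg hs (sq_nonneg (x - y))]

theorem fluid_Q {L s Q x : ℝ} (hL : 0 < L) (hs : 0 ≤ s) (hs1 : s ≤ 1) (hQ : 0 ≤ Q)
    (hx : 0 ≤ x) :
    sg (L * exp (s * L)) x - s * x ^ 2 / 2 - Q * x ≤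
      (L + s * L ^ 2 / 2) - s * (L * Q - Q ^ 2 / 2) := by
  have h := fluid_leg (z := L * exp (s * L)) (Q := Q) (y := L - Q) (by positivity) hs hx
  have h1 : L * exp (s * L) * exp (-(Q + s * (L - Q))) ≤ L := by
    rw [mul_assoc, ← exp_add]
    have : exp (s * L + -(Q + s * (L - Q))) ≤ 1 := by
      rw [Real.exp_le_one_iff]; nlinarith
    nlinarith
  nlinarith

theorem fluid_Q' {L s Q x : ℝ} (hL : 0 < L) (hs : 0 ≤ s) (hs1 : s ≤ 1) (hQL : L ≤ Q)
    (hx : 0 ≤ x) :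
    sg (L * exp (s * L)) x - s * x ^ 2 / 2 - Q * x ≤ L := by
  have h := fluid_leg (z := L * exp (s * L)) (Q := Q) (y := 0) (by positivity) hs hx
  have h1 : L * exp (s * L) * exp (-(Q + s * 0)) ≤ L := by
    rw [mul_assoc, ← exp_add]
    have : exp (s * L + -(Q + s * 0)) ≤ 1 := by
      rw [Real.exp_le_one_iff]; nlinarith
    nlinarith
  nlinarith

/-- the cells with little mass -/
theorem small_cells {ι : Type*} [Fintype ι] (T : Finset ι) (a : ι → ℝ) {c : ℝ} (hc : 0 < c)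
    (ha : ∀ i ∈ T, 0 ≤ a i) (ha4 : ∀ i ∈ T, a i ≤ 1 / 4) :
    ∑ i ∈ T, (sg c (a i) + a i ^ 2 / 2) ≤
      sg (Fintype.card ι * c) (∑ i ∈ T, a i) + (∑ i ∈ T, a i) ^ 2 / (2 * Fintype.card ι)
        - (∑ i ∈ T, kl (a i) ((∑ i ∈ T, a i) / Fintype.card ι)) / 2 := by
  classical
  set x := ∑ i ∈ T, a i with hx
  set n : ℝ := (Fintype.card ι : ℝ) with hn
  have hx0 : 0 ≤ x := sum_nonneg ha
  have hcard : (T.card : ℝ) ≤ n := by rw [hn]; exact_mod_cast card_le_univ T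
  rcases hx0.eq_or_lt with h0 | hpos
  · have h1 : ∀ i ∈ T, a i = 0 := by
      rw [hx] at h0; exact (sum_eq_zero_iff_of_nonneg ha).1 h0.symm
    have e1 : ∑ i ∈ T, (sg c (a i) + a i ^ 2 / 2) = 0 :=
      sum_eq_zero fun i hi => by rw [h1 i hi, sg_zero]; simp
    have e2 : ∑ i ∈ T, kl (a i) (0 / n) = 0 :=
      sum_eq_zero fun i hi => by rw [h1 i hi]; simp [kl, sg]
    rw [← h0, e1, e2, sg_zero]; simp
  · have hT : T.Nonempty := by
      rcases T.eq_empty_or_nonempty with h | h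
      · rw [hx, h] at hpos; simp at hpos
      · exact h
    have hn0 : 0 < n := lt_of_lt_of_le (by exact_mod_cast hT.card_pos) hcard
    set y := x / n with hy
    have hy0 : 0 < y := div_pos hpos hn0
    have hxy : x = n * y := by rw [hy]; field_simp
    have hx4 : x ≤ T.card * (1 / 4) := by
      rw [hx, ← nsmul_eq_mul]; exact sum_le_card_nsmul _ _ _ ha4
    have hy4 : y ≤ 1 / 4 := by
      rw [hy, div_le_iff₀ hn0]; linarith
    have hterm : ∀ i ∈ T, sg c (a i) + a i ^ 2 / 2 ≤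
        y - kl (a i) y / 2 + a i * log (c / y) + a i * y - y ^ 2 / 2 := by
      intro i hi
      have h1 : sg c (a i) = y - kl (a i) y + a i * log (c / y) := by
        have h2 := sg_mul (ζ := y) (r := c / y) hy0 (div_pos hc hy0) (ha i hi)
        rw [show y * (c / y) = c by field_simp] at h2
        rw [h2, sg_eq_kl]
      have h3 := kl_sq (ha i hi) hy0 (ha4 i hi) hy4
      rw [h1]; nlinarith
    refine (sum_le_sum hterm).trans ?_
    have e1 : ∑ i ∈ T, (y - kl (a i) y / 2 + a i * log (c / y) + a i * y - y ^ 2 / 2) =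
        T.card * y - (∑ i ∈ T, kl (a i) y) / 2 + x * log (c / y) + x * y - T.card * (y ^ 2 / 2) := by
      have e0 : ∑ i ∈ T, kl (a i) y / 2 = (∑ i ∈ T, kl (a i) y) / 2 := by rw [sum_div]
      rw [sum_sub_distrib, sum_add_distrib, sum_add_distrib, sum_sub_distrib, ← sum_mul, ← sum_mul,
        e0, sum_const, sum_const, nsmul_eq_mul, nsmul_eq_mul, ← hx]
    rw [e1]
    have e2 : sg (n * c) x = x + x * log (c / y) := by
      unfold sg
      rw [show n * c / x = c / y by rw [hxy]; field_simp]; ring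
    rw [e2]
    have e3 : x ^ 2 / (2 * n) = n * y ^ 2 / 2 := by rw [hxy]; field_simp
    rw [e3]
    have e4 : 0 ≤ (n - T.card) * (y * (1 - y / 2)) :=
      mul_nonneg (by linarith) (mul_nonneg hy0.le (by linarith))
    nlinarith

/-- the value of a Potts configuration, cells with mass `> 1/4` split off -/
theorem potts_split {ι : Type*} [Fintype ι] (a : ι → ℝ) {c : ℝ} (hc : 0 < c)
    (ha : ∀ i, 0 ≤ a i) (T : Finset ι) [DecidableEq ι] (ha4 : ∀ i ∈ T, a i ≤ 1 / 4) :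
    ∑ i, (sg c (a i) + a i ^ 2 / 2) - (∑ i, a i) ^ 2 / 2 ≤
      (∑ i ∈ Tᶜ, sg c (a i)) + ((∑ i ∈ Tᶜ, a i ^ 2) - (∑ i ∈ Tᶜ, a i) ^ 2) / 2 +
      (sg (Fintype.card ι * c) (∑ i ∈ T, a i) - (1 - 1 / Fintype.card ι) * (∑ i ∈ T, a i) ^ 2 / 2 -
        (∑ i ∈ Tᶜ, a i) * (∑ i ∈ T, a i)) -
        (∑ i ∈ T, kl (a i) ((∑ i ∈ T, a i) / Fintype.card ι)) / 2 := by
  have h1 := small_cells T a hc (fun i _ => ha i) ha4
  have h2 : ∑ i, (sg c (a i) + a i ^ 2 / 2) =
      ∑ i ∈ T, (sg c (a i) + a i ^ 2 / 2) + ∑ i ∈ Tᶜ, (sg c (a i) + a i ^ 2 / 2) :=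
    (sum_add_sum_compl T _).symm
  have h3 : ∑ i, a i = ∑ i ∈ T, a i + ∑ i ∈ Tᶜ, a i := (sum_add_sum_compl T _).symm
  have h4 : ∑ i ∈ Tᶜ, (sg c (a i) + a i ^ 2 / 2) =
      ∑ i ∈ Tᶜ, sg c (a i) + (∑ i ∈ Tᶜ, a i ^ 2) / 2 := by
    rw [sum_add_distrib, sum_div]
  rw [h2, h3, h4]
  set x := ∑ i ∈ T, a i
  set Q := ∑ i ∈ Tᶜ, a i
  set n : ℝ := (Fintype.card ι : ℝ)
  have h5 : x ^ 2 / (2 * n) = (1 / n) * x ^ 2 / 2 := by ring
  rw [h5] at h1
  nlinarith

/-- all cells light: the fluid value minus an explicit deficit -/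
theorem potts_small {ι : Type*} [Fintype ι] [Nonempty ι] (a : ι → ℝ) {c L s : ℝ} (hL : 0 < L)
    (hs : s = 1 - 1 / Fintype.card ι) (hz : Fintype.card ι * c = L * exp (s * L))
    (ha : ∀ i, 0 ≤ a i) (ha4 : ∀ i, a i ≤ 1 / 4) :
    ∑ i, (sg c (a i) + a i ^ 2 / 2) - (∑ i, a i) ^ 2 / 2 ≤
      (L + s * L ^ 2 / 2) - kl (∑ i, a i) L - s * (∑ i, a i - L) ^ 2 / 2 -
        (∑ i, kl (a i) ((∑ i, a i) / Fintype.card ι)) / 2 := by
  classical
  have hn : (0 : ℝ) < Fintype.card ι := by exact_mod_cast Fintype.card_pos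
  have hc : 0 < c := by
    have : 0 < Fintype.card ι * c := by rw [hz]; positivity
    exact (mul_pos_iff_of_pos_left hn).1 this
  have h := potts_split a hc ha univ (fun i _ => ha4 i)
  rw [compl_univ, sum_empty, sum_empty, sum_empty, hz, ← hs] at h
  have h1 := fluid_eq (s := s) hL (sum_nonneg fun i (_ : i ∈ univ) => ha i)
  linarith

/-- some cell heavy, no cell heavier than `A`: a gap -/
theorem potts_gap {ι : Type*} [Fintype ι] [Nonempty ι] (a : ι → ℝ) {c L s A K : ℝ} (hL : 1 ≤ L)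
    (hs : s = 1 - 1 / Fintype.card ι) (hz : Fintype.card ι * c = L * exp (s * L))
    (hs5 : 5 / 6 ≤ s) (hs1 : s ≤ 1) (hK : K = 1 + log (4 * c)) (hKL : K ≤ L / 2)
    (hAK : A * K ≤ L ^ 2 / 8) (hK0 : 0 ≤ K)
    (ha : ∀ i, 0 ≤ a i) (haA : ∀ i, a i ≤ A) (hex : ∃ i, 1 / 4 < a i) :
    ∑ i, (sg c (a i) + a i ^ 2 / 2) - (∑ i, a i) ^ 2 / 2 ≤ (L + s * L ^ 2 / 2) - L / 32 := by
  classical
  have hn : (0 : ℝ) < Fintype.card ι := by exact_mod_cast Fintype.card_pos
  have hc : 0 < c := by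
    have : 0 < Fintype.card ι * c := by rw [hz]; positivity
    exact (mul_pos_iff_of_pos_left hn).1 this
  set T : Finset ι := univ.filter fun i => a i ≤ 1 / 4 with hT
  have hT4 : ∀ i ∈ T, a i ≤ 1 / 4 := fun i hi => (mem_filter.1 hi).2
  have hTc : ∀ i ∈ Tᶜ, 1 / 4 < a i := fun i hi => by
    rw [mem_compl, hT, mem_filter] at hi
    push Not at hi
    exact hi (mem_univ i)
  have h := potts_split a hc ha T hT4
  rw [hz, ← hs] at h
  set Q := ∑ i ∈ Tᶜ, a i with hQ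
  set x := ∑ i ∈ T, a i with hx
  have hx0 : 0 ≤ x := sum_nonneg fun i _ => ha i
  have hQ4 : 1 / 4 ≤ Q := by
    obtain ⟨i, hi⟩ := hex
    have hi' : i ∈ Tᶜ := by
      rw [mem_compl, hT, mem_filter]; push Not; intro _; exact hi
    exact hi.le.trans (single_le_sum (fun j _ => ha j) hi')
  have hkl : 0 ≤ ∑ i ∈ T, kl (a i) (x / Fintype.card ι) := by
    rcases hx0.eq_or_lt with h0 | hpos
    · have h1 : ∀ i ∈ T, a i = 0 := by
        rw [hx] at h0; exact (sum_eq_zero_iff_of_nonneg fun i _ => ha i).1 h0.symm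
      rw [← h0]
      refine sum_nonneg fun i hi => ?_
      rw [h1 i hi]; simp [kl, sg]
    · exact sum_nonneg fun i _ => kl_nonneg (ha i) (div_pos hpos hn)
  have hsg : ∑ i ∈ Tᶜ, sg c (a i) ≤ Q * K := by
    rw [hQ, sum_mul]
    refine sum_le_sum fun i hi => ?_
    have h4 := hTc i hi
    have ha0 : 0 < a i := by linarith
    unfold sg
    have h5 : log (c / a i) ≤ log (4 * c) := by
      apply Real.log_le_log (div_pos hc ha0)
      rw [div_le_iff₀ ha0]
      nlinarith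
    rw [hK]
    exact mul_le_mul_of_nonneg_left (by linarith) ha0.le
  have hsq : ∑ i ∈ Tᶜ, a i ^ 2 ≤ Q ^ 2 := sum_sq_le_sq_sum_of_nonneg fun i _ => ha i
  have hsqA : ∑ i ∈ Tᶜ, a i ^ 2 ≤ A * Q := by
    rw [hQ, mul_sum]
    refine sum_le_sum fun i _ => ?_
    have := haA i; have := ha i
    nlinarith
  rcases le_or_gt Q (L / 2) with hq | hq
  · have hF := fluid_Q (s := s) (Q := Q) (x := x) (by linarith : 0 < L) (by linarith) hs1
      (by linarith) hx0
    have e1 : (5 / 6) * (3 / 4 * L * Q) ≤ s * (L * Q - Q ^ 2 / 2) := by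
      have e2 : 3 / 4 * L * Q ≤ L * Q - Q ^ 2 / 2 := by nlinarith
      have e3 : 0 ≤ 3 / 4 * L * Q := by positivity
      nlinarith
    have e4 : Q * K ≤ Q * (L / 2) := by gcongr
    nlinarith
  · have hF : sg (L * exp (s * L)) x - s * x ^ 2 / 2 - Q * x ≤
        (L + s * L ^ 2 / 2) - 5 / 16 * L ^ 2 := by
      rcases le_or_gt Q L with hq1 | hq1
      · have hF := fluid_Q (s := s) (Q := Q) (x := x) (by linarith : 0 < L) (by linarith) hs1
          (by linarith) hx0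
        have e1 : (5 / 6) * (3 / 8 * L ^ 2) ≤ s * (L * Q - Q ^ 2 / 2) := by
          have e2 : 3 / 8 * L ^ 2 ≤ L * Q - Q ^ 2 / 2 := by nlinarith
          have e3 : 0 ≤ 3 / 8 * L ^ 2 := by positivity
          nlinarith
        linarith
      · have hF := fluid_Q' (s := s) (Q := Q) (x := x) (by linarith : 0 < L) (by linarith) hs1
          hq1.le hx0
        nlinarith [sq_nonneg L]
    have e5 : ∑ i ∈ Tᶜ, sg c (a i) + (∑ i ∈ Tᶜ, a i ^ 2 - Q ^ 2) / 2 ≤ L ^ 2 / 4 := by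
      rcases le_or_gt (2 * A) Q with hA | hA
      · have e6 : ∑ i ∈ Tᶜ, a i ^ 2 ≤ Q ^ 2 / 2 := by nlinarith
        nlinarith [sq_nonneg (Q / 2 - K)]
      · have e7 : Q * K ≤ 2 * A * K := by gcongr
        nlinarith
    nlinarith

end Pool.Agent.Rg
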