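import Pool.Agent.Lib.MP_09cbbd_rg.Line

/-!
# The logistic trial profile

It has the value `2 √(b z)` up to `3 z` and an exponentially small error.
-/

set_option autoImplicit false

namespace Pool.Agent.Rg

open Finset Real

/-- The logistic function with the increment `l` of the log odds. -/
noncomputable def lgi (N l x : ℝ) : ℝ := N / (1 + exp (-(l * x)))

variable {N l x : ℝ}

theorem lgi_pos (hN : 0 < N) : 0 < lgi N l x := by
  unfold lgi
  positivity

theorem lgi_lt (hN : 0 < N) : lgi N l x < N := by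
  unfold lgi
  rw [div_lt_iff₀ (by positivity)]
  have := exp_pos (-(l * x))
  nlinarith

theorem lgi_neg : lgi N l (-x) = N - lgi N l x := by
  unfold lgi
  have h1 : exp (-(l * -x)) = (exp (-(l * x)))⁻¹ := by
    rw [← exp_neg]
    congr 1
    ring
  rw [h1]
  have := exp_pos (-(l * x))
  field_simp
  ring

/-- The increment is proportional to the reference mass. -/
theorem lgi_step (hN : 0 < N) :
    (lgi N l (x + 1) - lgi N l x) * N =
      lgi N l (x + 1) * (N - lgi N l x) * (1 - exp (-l)) := by
  unfold lgi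
  have h1 : exp (-(l * (x + 1))) = exp (-l) * exp (-(l * x)) := by
    rw [← exp_add]
    congr 1
    ring
  rw [h1]
  have h2 := exp_pos (-(l * x))
  have h3 := exp_pos (-l)
  field_simp
  ring

/-- The cumulated masses of the trial profile. -/
noncomputable def tF (N b : ℝ) (n k : ℕ) : ℝ := lgi N (N / b) ((k : ℝ) - n / 2)

/-- The trial profile. -/
noncomputable def tm (N b : ℝ) (n k : ℕ) : ℝ :=
  if k < n then tF N b n (k + 1) - tF N b n k else 0

variable {b : ℝ} {n : ℕ}

theorem tF_pos (hN : 0 < N) (k : ℕ) : 0 < tF N b n k := lgi_pos hN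

theorem tF_lt (hN : 0 < N) (k : ℕ) : tF N b n k < N := lgi_lt hN

/-- The reference masses. -/
noncomputable def tb (N b : ℝ) (n k : ℕ) : ℝ := tF N b n (k + 1) * (N - tF N b n k) / b

theorem tb_pos (hN : 0 < N) (hb : 0 < b) (k : ℕ) : 0 < tb N b n k :=
  div_pos (mul_pos (tF_pos hN _) (sub_pos.2 (tF_lt hN _))) hb

theorem tF_step (hN : 0 < N) (hb : 0 < b) (k : ℕ) :
    tF N b n (k + 1) - tF N b n k = tb N b n k * ((1 - exp (-(N / b))) / (N / b)) := by
  have h := lgi_step (l := N / b) (x := (k : ℝ) - n / 2) hN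
  have h1 : (k : ℝ) - n / 2 + 1 = ((k + 1 : ℕ) : ℝ) - n / 2 := by
    push_cast
    ring
  rw [h1] at h
  have h2 : (tF N b n (k + 1) - tF N b n k) * N =
      tF N b n (k + 1) * (N - tF N b n k) * (1 - exp (-(N / b))) := h
  unfold tb
  have h3 : tF N b n (k + 1) - tF N b n k =
      tF N b n (k + 1) * (N - tF N b n k) * (1 - exp (-(N / b))) / N := by
    rw [← h2]
    field_simp
  rw [h3]
  field_simp

theorem one_sub_exp_pos {x : ℝ} (hx : 0 < x) : 0 < 1 - exp (-x) := by
  have : exp (-x) < 1 := by
    rw [exp_lt_one_iff]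
    linarith
  linarith

theorem tF_step_pos (hN : 0 < N) (hb : 0 < b) (k : ℕ) :
    0 < tF N b n (k + 1) - tF N b n k := by
  rw [tF_step hN hb]
  exact mul_pos (tb_pos hN hb k) (div_pos (one_sub_exp_pos (div_pos hN hb)) (div_pos hN hb))

theorem tF_step_le (hN : 0 < N) (hb : 0 < b) (k : ℕ) :
    tF N b n (k + 1) - tF N b n k ≤ tb N b n k := by
  rw [tF_step hN hb]
  have h1 : 0 < N / b := div_pos hN hb
  have h2 : (1 - exp (-(N / b))) / (N / b) ≤ 1 := by
    rw [div_le_one h1]
    linarith [add_one_le_exp (-(N / b))]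
  have := mul_le_mul_of_nonneg_left h2 (tb_pos (n := n) hN hb k).le
  linarith

theorem tb_le (hN : 0 < N) (hb : 0 < b) (k : ℕ) :
    tb N b n k ≤ (tF N b n (k + 1) - tF N b n k) * (1 + N / b) := by
  rw [tF_step hN hb]
  have h1 : 0 < N / b := div_pos hN hb
  have h2 : 1 ≤ (1 - exp (-(N / b))) / (N / b) * (1 + N / b) := by
    have h3 := add_one_le_exp (N / b)
    have h4 : exp (-(N / b)) ≤ 1 / (1 + N / b) := by
      rw [exp_neg, ← one_div]
      exact one_div_le_one_div_of_le (by linarith) (by linarith)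
    rw [div_mul_eq_mul_div, le_div_iff₀ h1, one_mul]
    have h5 : (1 / (1 + N / b)) * (1 + N / b) = 1 := by field_simp
    nlinarith
  have := mul_le_mul_of_nonneg_left h2 (tb_pos (n := n) hN hb k).le
  rw [← mul_assoc] at this
  linarith

theorem tm_nonneg (hN : 0 < N) (hb : 0 < b) (k : ℕ) : 0 ≤ tm N b n k := by
  unfold tm
  split_ifs
  · exact (tF_step_pos hN hb k).le
  · exact le_rfl

theorem Sm_tm {k : ℕ} (hk : k ≤ n) : Sm (tm N b n) k = tF N b n k - tF N b n 0 := by
  induction k with
  | zero => simp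
  | succ k ih =>
    rw [Sm_succ, ih (by omega), tm, if_pos (by omega)]
    ring

theorem tF_sym : tF N b n n = N - tF N b n 0 := by
  unfold tF
  rw [← lgi_neg]
  congr 1
  push_cast
  ring

/-- The entropy of the trial. -/
theorem sg_tm_ge {z : ℝ} (hz : 0 < z) (hN : 0 < N) (hb : 0 < b) {k : ℕ} (hk : k < n) :
    (tF N b n (k + 1) - tF N b n k) * (1 + log z + log b - 2 * (N / b)) -
      (Hx (tF N b n (k + 1)) - Hx (tF N b n k)) -
      (Hx (N - tF N b n k) - Hx (N - tF N b n (k + 1))) ≤ sg z (tm N b n k) := by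
  have h0 := tF_step_pos (n := n) hN hb k
  have h1 := tF_step_le (n := n) hN hb k
  have hp := tF_pos (b := b) (n := n) hN (k + 1)
  have hp0 := tF_pos (b := b) (n := n) hN k
  have hq := sub_pos.2 (tF_lt (b := b) (n := n) hN k)
  have hq1 := sub_pos.2 (tF_lt (b := b) (n := n) hN (k + 1))
  have h2 := Hx_sub_ge hp0.le (by linarith) hp
  have h3 := Hx_sub_ge hq1.le (by linarith) hq
  rw [tm, if_pos hk]
  set m := tF N b n (k + 1) - tF N b n k with hm
  have h4 : N - tF N b n k - (N - tF N b n (k + 1)) = m := by rw [hm]; ring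
  rw [h4] at h3
  have h5 : m ^ 2 / tF N b n (k + 1) ≤ m * (N / b) := by
    rw [div_le_iff₀ hp]
    have h6 : m * m ≤ m * tb N b n k := mul_le_mul_of_nonneg_left h1 h0.le
    have h7 : tb N b n k ≤ N / b * tF N b n (k + 1) := by
      unfold tb
      rw [div_mul_eq_mul_div]
      refine div_le_div_of_nonneg_right ?_ hb.le
      nlinarith
    have h8 := mul_le_mul_of_nonneg_left h7 h0.le
    nlinarith
  have h6 : m ^ 2 / (N - tF N b n k) ≤ m * (N / b) := by
    rw [div_le_iff₀ hq]
    have h6 : m * m ≤ m * tb N b n k := mul_le_mul_of_nonneg_left h1 h0.le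
    have h7 : tb N b n k ≤ N / b * (N - tF N b n k) := by
      unfold tb
      rw [div_mul_eq_mul_div]
      refine div_le_div_of_nonneg_right ?_ hb.le
      have := tF_lt (b := b) (n := n) hN (k + 1)
      nlinarith
    have h8 := mul_le_mul_of_nonneg_left h7 h0.le
    nlinarith
  have h7 : log m ≤ log (tF N b n (k + 1)) + log (N - tF N b n k) - log b := by
    rw [← log_mul hp.ne' hq.ne', ← log_div (mul_pos hp hq).ne' hb.ne']
    exact log_le_log h0 h1
  unfold sg
  rw [log_div hz.ne' h0.ne']
  have h8 := mul_le_mul_of_nonneg_left h7 h0.le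
  nlinarith

/-- **The value of the logistic trial.** -/
theorem valL_tm_ge {z : ℝ} (hz : 0 < z) (hb : 0 < b) (hn : (n : ℝ) = b) :
    2 * √(b * z) - √(b * z) * (√(b * z) + 6) * exp (-(√(b * z) / 2)) - 3 * z ≤
      valL z b (tm (√(b * z)) b n) n := by
  have hN : 0 < √(b * z) := Real.sqrt_pos.2 (mul_pos hb hz)
  have hNsq : √(b * z) ^ 2 = b * z := Real.sq_sqrt (mul_pos hb hz).le
  have hlog : log z + log b = 2 * log √(b * z) := by
    rw [Real.log_sqrt (mul_pos hb hz).le, log_mul hb.ne' hz.ne']
    ring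
  set N := √(b * z) with hNdef
  set F0 := tF N b n 0 with hF0
  have hF0p : 0 < F0 := tF_pos hN 0
  have hF0l : F0 < N := tF_lt hN 0
  have hsum : ∀ j ≤ n, ∑ k ∈ range j, ((tF N b n (k + 1) - tF N b n k) *
      (1 + log z + log b - 2 * (N / b)) - (Hx (tF N b n (k + 1)) - Hx (tF N b n k)) -
      (Hx (N - tF N b n k) - Hx (N - tF N b n (k + 1)))) =
      (tF N b n j - F0) * (1 + log z + log b - 2 * (N / b)) - (Hx (tF N b n j) - Hx F0) -
        (Hx (N - F0) - Hx (N - tF N b n j)) := by
    intro j _
    induction j with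
    | zero => simp [hF0]
    | succ j ih =>
      rw [sum_range_succ, ih (by omega)]
      ring
  have h1 := sum_le_sum fun k hk => sg_tm_ge (z := z) (n := n) (k := k) hz hN hb (mem_range.1 hk)
  rw [hsum n le_rfl, tF_sym, ← hF0] at h1
  have h2 : N - (N - F0) = F0 := by ring
  rw [h2] at h1
  -- the energy
  have h3 : 1 / b * ∑ k ∈ range n, Sm (tm N b n) k * (Sm (tm N b n) n - Sm (tm N b n) k) ≤
      (N - 2 * F0) * (1 + N / b) := by
    have h4 : ∀ k ∈ range n, 1 / b * (Sm (tm N b n) k * (Sm (tm N b n) n - Sm (tm N b n) k)) ≤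
        (tF N b n (k + 1) - tF N b n k) * (1 + N / b) := by
      intro k hk
      rw [mem_range] at hk
      refine le_trans ?_ (tb_le hN hb k)
      rw [Sm_tm le_rfl, Sm_tm hk.le, tF_sym, ← hF0]
      unfold tb
      rw [one_div_mul_eq_div]
      refine div_le_div_of_nonneg_right ?_ hb.le
      have h5 := tF_step_pos (n := n) hN hb k
      have h6 := tF_lt (b := b) (n := n) hN k
      have h7 := tF_pos (b := b) (n := n) hN k
      have h8 : tF N b n k - F0 ≤ tF N b n (k + 1) := by linarith
      have h9 : N - F0 - F0 - (tF N b n k - F0) ≤ N - tF N b n k := by linarith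
      have h10 : 0 ≤ tF N b n (k + 1) := (tF_pos hN _).le
      have h11 : 0 ≤ N - tF N b n k := by linarith
      rcases le_or_gt 0 (N - F0 - F0 - (tF N b n k - F0)) with h12 | h12
      · rcases le_or_gt 0 (tF N b n k - F0) with h13 | h13
        · exact mul_le_mul h8 h9 h12 h10
        · have := mul_nonneg h10 h11
          nlinarith
      · rcases le_or_gt 0 (tF N b n k - F0) with h13 | h13
        · have := mul_nonneg h10 h11
          nlinarith
        · exfalso
          have h14 : F0 ≤ tF N b n k := by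
            have : ∀ j, F0 ≤ tF N b n j := by
              intro j
              induction j with
              | zero => exact hF0.le
              | succ j ih => linarith [tF_step_pos (n := n) hN hb j]
            exact this k
          linarith
    have h5 := sum_le_sum h4
    rw [← mul_sum, ← sum_mul] at h5
    refine h5.trans (le_of_eq ?_)
    congr 1
    have h6 : ∀ j, ∑ k ∈ range j, (tF N b n (k + 1) - tF N b n k) = tF N b n j - F0 := by
      intro j
      rw [sum_range_sub]
    rw [h6, tF_sym, ← hF0]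
    ring
  have h4 : log (N - F0) ≤ log N := log_le_log (by linarith) (by linarith)
  have h5 : F0 = N / (1 + exp (N / 2)) := by
    rw [hF0, tF, lgi]
    congr 3
    rw [hn]
    push_cast
    field_simp
    ring
  have h6 : log N - log F0 ≤ N / 2 + 1 := by
    rw [h5, log_div hN.ne' (by positivity)]
    have h7 : 1 + exp (N / 2) ≤ exp (N / 2 + 1) := by
      rw [exp_add]
      have h8 : 1 ≤ exp (N / 2) := one_le_exp (by positivity)
      have h9 := Real.add_one_le_exp (1 : ℝ)
      nlinarith
    have h8 := log_le_log (by positivity) h7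
    rw [log_exp] at h8
    linarith
  have h7 : F0 ≤ N * exp (-(N / 2)) := by
    rw [h5, exp_neg, ← div_eq_mul_inv]
    exact div_le_div_of_nonneg_left hN.le (exp_pos _) (by linarith)
  have h8 : N * (N / b) = z := by
    have : N * (N / b) = N ^ 2 / b := by ring
    rw [this, hNsq]
    field_simp
  have h9 : valL z b (tm N b n) n = ∑ k ∈ range n, sg z (tm N b n k) -
      1 / b * ∑ k ∈ range n, Sm (tm N b n) k * (Sm (tm N b n) n - Sm (tm N b n) k) := rfl
  rw [h9]
  have h10 : (N - F0 - F0) * (1 + log z + log b - 2 * (N / b)) - (Hx (N - F0) - Hx F0) -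
      (Hx (N - F0) - Hx F0) ≤ ∑ k ∈ range n, sg z (tm N b n k) := h1
  have h11 : Hx (N - F0) ≤ (N - F0) * log N - (N - F0) := by
    unfold Hx
    have := mul_le_mul_of_nonneg_left h4 (show 0 ≤ N - F0 by linarith)
    linarith
  have h12 : Hx F0 = F0 * log F0 - F0 := rfl
  have h13 := mul_le_mul_of_nonneg_left h6 hF0p.le
  have h14 : (N - 2 * F0) * (N / b) ≤ z := by
    have h15 : 0 < N / b := div_pos hN hb
    nlinarith
  have h16 : F0 * (N + 6) ≤ N * (N + 6) * exp (-(N / 2)) := by
    have := mul_le_mul_of_nonneg_right h7 (show 0 ≤ N + 6 by linarith)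
    linarith
  have h17 : (N - F0 - F0) * (1 + log z + log b - 2 * (N / b)) =
      (N - 2 * F0) * (1 + 2 * log N) - 2 * ((N - 2 * F0) * (N / b)) := by
    have : 1 + log z + log b - 2 * (N / b) = 1 + 2 * log N - 2 * (N / b) := by
      rw [← hlog]
      ring
    rw [this]
    ring
  rw [h17] at h10
  have h18 : (N - 2 * F0) * (1 + N / b) = (N - 2 * F0) + (N - 2 * F0) * (N / b) := by ring
  rw [h18] at h3
  nlinarith

end Pool.Agent.Rg
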